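import Pool.Agent.H438R2.DL.Main2

open Finset MeasureTheory Filter

namespace Pool.Agent.H438R2.DL

lemma PP_lower : ∃ X₀ : ℕ, 3 ≤ X₀ ∧ ∀ X : ℕ, X₀ ≤ X → (X : ℝ) / (2 * Real.log X) ≤ (PP X).card := by
  obtain ⟨X₀, hX₀, h⟩ := Pool.Agent.H357R2.SI.pc_window_lower (1 / 10) (by norm_num) (by norm_num)
  refine ⟨X₀, hX₀, fun X hX => ?_⟩
  have h1 := h X X hX le_rfl
  have hX3 : (3 : ℝ) ≤ X := by exact_mod_cast hX₀.trans hX
  have hL : 0 < Real.log X := Real.log_pos (by linarith)
  have e : (Pool.Agent.H357R2.SI.pc X (X + X) : ℝ) = (PP X).card := by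
    unfold Pool.Agent.H357R2.SI.pc PP
    rw [two_mul]
  rw [e] at h1
  rw [div_le_iff₀ (by positivity)]
  linarith

/-- a well-separated subset of the primes in `(X, 2X]` of positive relative density -/
lemma sep_set : ∃ c : ℝ, 0 < c ∧ ∃ X₀ : ℕ, 3 ≤ X₀ ∧ ∀ X : ℕ, X₀ ≤ X → ∀ lam : ℝ, 0 < lam → lam ≤ 1 →
    ∃ P' : Finset ℕ, P' ⊆ PP X ∧ (∀ p ∈ P', ∀ q ∈ P', p < q → lam * Real.log X ≤ (q : ℝ) - p) ∧
      c * (X / Real.log X) ≤ P'.card := by
  classical
  obtain ⟨C, hC, X1, hX1, hL2⟩ := prime_L2
  obtain ⟨X2, hX2, hlow⟩ := PP_lower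
  refine ⟨1 / (12 * C), by positivity, max X1 X2, hX1.trans (le_max_left _ _), ?_⟩
  intro X hX lam hlam hlam1
  have hXX1 : X1 ≤ X := (le_max_left _ _).trans hX
  have hXX2 : X2 ≤ X := (le_max_right _ _).trans hX
  have hX3 : (3 : ℝ) ≤ X := by exact_mod_cast hX1.trans hXX1
  have hX0 : (0 : ℝ) < X := by linarith
  have hL : 0 < Real.log X := Real.log_pos (by linarith)
  set L := Real.log X with hLd
  have hLX : L ≤ X := by
    have := Real.log_le_sub_one_of_pos hX0
    linarith
  set s : ℝ := lam * L / X with hs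
  have hs0 : 0 < s := by rw [hs]; positivity
  have hs1 : s ≤ 1 := by
    rw [hs, div_le_one hX0]
    nlinarith
  have hM := hL2 X hXX1 lam s hlam hlam1 (le_of_eq rfl) hs1 (PP X) (fun p hp => by
    rw [PP, mem_filter, mem_Ioc] at hp
    exact ⟨hp.2, hp.1.2⟩)
  have hPl := hlow X hXX2
  -- maximal separated subset
  let Sep : Finset ℕ → Prop := fun A => ∀ p ∈ A, ∀ q ∈ A, p < q → lam * L ≤ (q : ℝ) - p
  have hne : ((PP X).powerset.filter Sep).Nonempty :=
    ⟨∅, mem_filter.mpr ⟨mem_powerset.mpr (empty_subset _), fun p hp => absurd hp (notMem_empty p)⟩⟩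
  obtain ⟨P', hP', hmax⟩ := exists_max_image ((PP X).powerset.filter Sep) card hne
  rw [mem_filter, mem_powerset] at hP'
  obtain ⟨hsub, hsep⟩ := hP'
  have hcov : ∀ p ∈ PP X, ∃ q ∈ P', |(p : ℝ) - q| < lam * L := by
    intro p hp
    by_contra hcon
    push Not at hcon
    have hpn : p ∉ P' := by
      intro h
      have := hcon p h
      rw [sub_self, abs_zero] at this
      nlinarith
    have hins : insert p P' ∈ (PP X).powerset.filter Sep := by
      rw [mem_filter, mem_powerset]
      refine ⟨insert_subset hp hsub, ?_⟩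
      intro a ha b hb hab
      rw [mem_insert] at ha hb
      rcases ha with rfl | ha <;> rcases hb with rfl | hb
      · exact absurd hab (lt_irrefl _)
      · have h1 := hcon b hb
        have h2 : (a : ℝ) < b := by exact_mod_cast hab
        rw [abs_of_neg (by linarith)] at h1
        linarith
      · have h1 := hcon a ha
        have h2 : (a : ℝ) < b := by exact_mod_cast hab
        rw [abs_of_pos (by linarith)] at h1
        linarith
      · exact hsep a ha b hb hab
    have h1 := hmax _ hins
    rw [card_insert_of_notMem hpn] at h1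
    omega
  refine ⟨P', hsub, hsep, ?_⟩
  -- integral Cauchy-Schwarz
  set F : ℝ → ℝ := fun u => Fw (PP X) (fun p : ℕ => Real.log p) s u with hF
  set G' : ℝ → ℝ := fun u => ∑ q ∈ P', Set.indicator (Set.Ico (Real.log (q : ℝ) - 2 * s) (Real.log (q : ℝ) + s))
    (fun _ => (1 : ℝ)) u with hG'
  set n : ℝ := ((PP X).card : ℝ) with hn
  set m : ℝ := (P'.card : ℝ) with hm
  have hn0 : 0 < n := lt_of_lt_of_le (by positivity) hPl
  set M : ℝ := C / lam * (X / L) ^ 2 with hMd
  have hM0 : 0 < M := by rw [hMd]; positivity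
  set t : ℝ := M / n with ht
  have ht0 : 0 < t := by rw [ht]; positivity
  have hFint : ∫ u, F u = n := by
    have : F = fun u => ∑ p ∈ PP X, (1 / s) * Set.indicator (Set.Ico (Real.log (p : ℝ) - s) (Real.log (p : ℝ)))
        (fun _ => (1 : ℝ)) u := by
      funext u; exact Fw_real _ _ _ _
    rw [this, integral_finsetSum]
    · have : ∀ p ∈ PP X, ∫ u, (1 / s) * Set.indicator (Set.Ico (Real.log (p : ℝ) - s) (Real.log (p : ℝ)))
          (fun _ => (1 : ℝ)) u = 1 := by
        intro p _
        rw [integral_const_mul, integral_indicator_const _ measurableSet_Ico, smul_eq_mul, mul_one]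
        unfold Measure.real
        rw [Real.volume_Ico, sub_sub_cancel, ENNReal.toReal_ofReal hs0.le]
        field_simp
      rw [sum_congr rfl this, sum_const, nsmul_eq_mul, mul_one]
    · intro p _
      apply Integrable.const_mul
      rw [integrable_indicator_iff measurableSet_Ico]
      exact integrableOn_const (by simp) (by simp)
  have hGint : ∫ u, G' u = m * (3 * s) := by
    rw [hG', integral_finsetSum]
    · have : ∀ q ∈ P', ∫ u, Set.indicator (Set.Ico (Real.log (q : ℝ) - 2 * s) (Real.log (q : ℝ) + s))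
          (fun _ => (1 : ℝ)) u = 3 * s := by
        intro q _
        rw [integral_indicator_const _ measurableSet_Ico, smul_eq_mul, mul_one]
        unfold Measure.real
        rw [Real.volume_Ico, ENNReal.toReal_ofReal (by linarith)]
        ring
      rw [sum_congr rfl this, sum_const, nsmul_eq_mul]
    · intro q _
      rw [integrable_indicator_iff measurableSet_Ico]
      exact integrableOn_const (by simp) (by simp)
  have hGi : Integrable G' := by
    refine integrable_finsetSum _ fun q _ => ?_
    rw [integrable_indicator_iff measurableSet_Ico]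
    exact integrableOn_const (by simp) (by simp)
  have e0 : ∀ r : ℝ, ‖(r : ℂ)‖ ^ 2 = r ^ 2 := by
    intro r
    rw [Complex.norm_real, Real.norm_eq_abs, sq_abs]
  have hF2 : Integrable (fun u => F u ^ 2) := by
    have h4 := (Fw_L2 (PP X) (fun p : ℕ => Real.log p) s).integrable_norm_pow (by norm_num)
    simpa [e0, hF] using h4
  have hFi : Integrable F := by
    have h4 := Fw_int (PP X) (fun p : ℕ => Real.log p) s
    have h5 := h4.re
    simpa [hF] using h5
  have hpt : ∀ u, F u ≤ (1 / (2 * t)) * F u ^ 2 + (t / 2) * G' u := by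
    intro u
    have hG0 : 0 ≤ G' u := sum_nonneg fun q _ => Set.indicator_nonneg (fun _ _ => zero_le_one) _
    rcases eq_or_ne (F u) 0 with h0 | h0
    · rw [h0]; positivity
    · have hG1 : 1 ≤ G' u := by
        have hFu : ∃ p ∈ PP X, u < Real.log (p : ℝ) ∧ Real.log (p : ℝ) ≤ u + s := by
          by_contra hcon
          push Not at hcon
          apply h0
          simp only [hF, Fw]
          have : (PP X).filter (fun p : ℕ => u < Real.log (p : ℝ) ∧ Real.log (p : ℝ) ≤ u + s) = ∅ := by
            rw [filter_eq_empty_iff]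
            intro p hp h
            exact absurd h.2 (not_le.mpr (hcon p hp h.1))
          rw [this]; simp
        obtain ⟨p, hp, hp1, hp2⟩ := hFu
        obtain ⟨q, hq, hpq⟩ := hcov p hp
        have hlogpq : |Real.log (p : ℝ) - Real.log (q : ℝ)| ≤ s := by
          have hp' := hp
          have hq' := hsub hq
          rw [PP, mem_filter, mem_Ioc] at hp' hq'
          have hpX : (X : ℝ) < p := by exact_mod_cast hp'.1.1
          have hqX : (X : ℝ) < q := by exact_mod_cast hq'.1.1
          have key : ∀ a b : ℝ, (X : ℝ) < a → (X : ℝ) < b → |a - b| < lam * L → Real.log a - Real.log b ≤ s := by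
            intro a b ha hb hab
            have h1 := Real.log_le_sub_one_of_pos (x := a / b) (div_pos (by linarith) (by linarith))
            rw [Real.log_div (by linarith) (by linarith)] at h1
            refine h1.trans ?_
            have h2 : a / b - 1 = (a - b) / b := by
              have : b ≠ 0 := by linarith
              field_simp
            rw [h2, hs]
            apply div_le_div₀ (by positivity) (le_trans (le_abs_self _) hab.le) hX0 hb.le
          rw [abs_le]
          constructor
          · have := key q p hqX hpX (by rw [abs_sub_comm]; exact hpq)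
            linarith
          · exact key p q hpX hqX hpq
        rw [abs_le] at hlogpq
        have h1 : Set.indicator (Set.Ico (Real.log (q : ℝ) - 2 * s) (Real.log (q : ℝ) + s))
            (fun _ => (1 : ℝ)) u ≤ G' u :=
          single_le_sum (f := fun q : ℕ => Set.indicator (Set.Ico (Real.log (q : ℝ) - 2 * s) (Real.log (q : ℝ) + s))
            (fun _ => (1 : ℝ)) u) (fun q _ => Set.indicator_nonneg (fun _ _ => zero_le_one) _) hq
        rw [Set.indicator_of_mem] at h1
        · exact h1
        · rw [Set.mem_Ico]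
          constructor <;> linarith [hlogpq.1, hlogpq.2]
      have h2 : F u ≤ (1 / (2 * t)) * F u ^ 2 + t / 2 := by
        have h3 : 0 ≤ (F u - t) ^ 2 := sq_nonneg _
        have e1 : (1 / (2 * t)) * F u ^ 2 + t / 2 = (F u ^ 2 + t ^ 2) / (2 * t) := by field_simp
        rw [e1, le_div_iff₀ (by positivity)]
        nlinarith
      have h3 : t / 2 ≤ t / 2 * G' u := by
        have : 0 ≤ t / 2 := by positivity
        nlinarith
      linarith
  have hI := integral_mono hFi ((hF2.const_mul _).add (hGi.const_mul _)) hpt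
  rw [hFint] at hI
  have e1 : ∫ u, ((1 / (2 * t)) * F u ^ 2 + (t / 2) * G' u) = (1 / (2 * t)) * (∫ u, F u ^ 2) + (t / 2) * (m * (3 * s)) := by
    rw [integral_add (hF2.const_mul _) (hGi.const_mul _), integral_const_mul, integral_const_mul, hGint]
  have hI2 : n ≤ (1 / (2 * t)) * (∫ u, F u ^ 2) + (t / 2) * (m * (3 * s)) := by
    rw [← e1]; exact hI
  have hM' : (1 / (2 * t)) * (∫ u, F u ^ 2) ≤ (1 / (2 * t)) * M := by
    apply mul_le_mul_of_nonneg_left hM (by positivity)
  have e2 : (1 / (2 * t)) * M = n / 2 := by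
    rw [ht]; field_simp
  have h5 : n / 2 ≤ (t / 2) * (m * (3 * s)) := by linarith
  have h6 : n ^ 2 ≤ M * (m * (3 * s)) := by
    rw [ht] at h5
    have : M / n / 2 * (m * (3 * s)) = M * (m * (3 * s)) / (2 * n) := by field_simp
    rw [this, div_le_div_iff₀ (by norm_num) (by positivity)] at h5
    nlinarith
  have h7 : M * (m * (3 * s)) = 3 * C * m * (X / L) := by
    rw [hMd, hs]; field_simp
  rw [h7] at h6
  have h8 : (X / (2 * L)) ^ 2 ≤ n ^ 2 := by gcongr
  have h9 : (X / (2 * L)) ^ 2 = (X / L) * (X / L) / 4 := by field_simp; ring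
  rw [h9] at h8
  have h10 : 0 < (X : ℝ) / L := by positivity
  have h11 : (X / L) * ((X / L) / 4) ≤ (X / L) * (3 * C * m) := by nlinarith
  have h12 := le_of_mul_le_mul_left h11 h10
  rw [one_div_mul_eq_div, div_le_iff₀ (by positivity)]
  nlinarith

end Pool.Agent.H438R2.DL
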