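import Pool.Agent.H438R2.DL.App

open Finset MeasureTheory Filter

namespace Pool.Agent.H438R2.DL

/-- exceptional set form of `G2` -/
theorem good_set (δ : ℝ) (hδ : 0 < δ) (hδ1 : δ < 1) :
    ∃ κ : ℝ, 0 < κ ∧ κ ≤ δ / 32 ∧ ∃ X₀ : ℕ, 3 ≤ X₀ ∧ ∀ X : ℕ, X₀ ≤ X → ∀ P : Finset ℕ, P ⊆ Ioc X (2 * X) →
      ∀ (Y H β σ : ℝ), 0 < Y → Y ≤ (X:ℝ) ^ (1 - δ) →
      (X : ℝ) ^ (-κ) ≤ H → H ≤ Y → 0 ≤ β → β ≤ 1 → (σ = 0 ∨ σ = 1) →
      ∃ E : Set ℝ, MeasurableSet E ∧ volume E ≤ ENNReal.ofReal (Y * (X : ℝ) ^ (-κ)) ∧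
      ∀ y ∈ Set.Icc Y (2 * Y), y ∉ E →
        dv P (Ico ⌊X / (8 * Y)⌋₊ (64 * ⌊X / (8 * Y)⌋₊)) β σ H y < (H / Y) * (X : ℝ) ^ (1 - κ) := by
  obtain ⟨κ, hκ0, hκδ, X₀, hX₀, hG⟩ := G2 δ hδ hδ1
  refine ⟨κ / 2, by positivity, by linarith, X₀, hX₀, ?_⟩
  intro X hX P hP Y H β σ hY hYX hHl hHY hβ0 hβ1 hσ
  have hX3 : (3 : ℝ) ≤ X := by exact_mod_cast hX₀.trans hX
  have hX0 : (0 : ℝ) < X := by linarith
  have hHl' : (X : ℝ) ^ (-κ) ≤ H := by
    refine le_trans ?_ hHl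
    apply Real.rpow_le_rpow_of_exponent_le (by linarith)
    linarith
  have hH0 : 0 < H := lt_of_lt_of_le (by positivity) hHl
  have hI := hG X hX P hP Y H β σ hY hYX hHl' hHY hβ0 hβ1 hσ
  set f := dv P (Ico ⌊X / (8 * Y)⌋₊ (64 * ⌊X / (8 * Y)⌋₊)) β σ H with hf
  set t : ℝ := (H / Y) * (X : ℝ) ^ (1 - κ / 2) with ht
  have ht0 : 0 < t := by rw [ht]; positivity
  refine ⟨{y | t ≤ f y} ∩ Set.Icc Y (2 * Y),
    (measurableSet_le measurable_const (dv_measurable _ _ _ _ _)).inter measurableSet_Icc, ?_, ?_⟩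
  · have h1 := mul_meas_ge_le_integral_of_nonneg (μ := volume.restrict (Set.Icc Y (2 * Y))) (f := f)
      (Filter.Eventually.of_forall fun y => dv_nonneg _ _ _ _ _ _) (dv_int _ _ _ _ _ hY) t
    have h2 : (volume.restrict (Set.Icc Y (2 * Y))).real {y | t ≤ f y} =
        volume.real ({y | t ≤ f y} ∩ Set.Icc Y (2 * Y)) := by
      unfold Measure.real
      rw [Measure.restrict_apply (measurableSet_le measurable_const (dv_measurable _ _ _ _ _))]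
    rw [h2] at h1
    have hfin : volume ({y | t ≤ f y} ∩ Set.Icc Y (2 * Y)) ≠ ⊤ := by
      refine ne_top_of_le_ne_top ?_ (measure_mono Set.inter_subset_right)
      simp
    rw [ENNReal.le_ofReal_iff_toReal_le hfin (by positivity)]
    change volume.real ({y | t ≤ f y} ∩ Set.Icc Y (2 * Y)) ≤ _
    have h3 := h1.trans hI
    have e1 : H * (X : ℝ) ^ (1 - κ) = t * (Y * (X : ℝ) ^ (-(κ / 2))) := by
      rw [ht]
      have : (X : ℝ) ^ (1 - κ) = (X : ℝ) ^ (1 - κ / 2) * (X : ℝ) ^ (-(κ / 2)) := by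
        rw [← Real.rpow_add hX0]; congr 1; ring
      rw [this]; field_simp
    rw [e1] at h3
    exact le_of_mul_le_mul_left h3 ht0
  · intro y hy hyE
    by_contra hcon
    push Not at hcon
    exact hyE ⟨hcon, hy⟩

/-- pairs with the strict window, for irrational `y` -/
lemma pairs_eq {P : Finset ℕ} {X : ℕ} (hP : P ⊆ Ioc X (2 * X)) {Y H y : ℝ} (hY : 0 < Y)
    (hXY : 1000 * Y ≤ X) (hH0 : 0 < H) (hHY : H ≤ Y) (hy1 : Y ≤ y) (hy2 : y ≤ 2 * Y)
    (hy : y ∉ Set.range ((↑) : ℚ → ℝ)) :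
    ({q : ℕ × ℕ | q.2 ∈ P ∧ (q.1 : ℝ) * y - H < q.2 ∧ (q.2 : ℝ) < q.1 * y}.ncard : ℝ) =
      cnt P (Ico ⌊X / (8 * Y)⌋₊ (64 * ⌊X / (8 * Y)⌋₊)) 0 1 H y := by
  classical
  have hy0 : 0 < y := hY.trans_le hy1
  have hX0 : (0 : ℝ) < X := by nlinarith
  set N : ℕ := ⌊X / (8 * Y)⌋₊ with hN
  have hX8 : X / (8 * Y) = (X / Y) / 8 := by field_simp
  have hXYb : 1000 ≤ X / Y := by rw [le_div_iff₀ hY]; exact hXY
  have hNle : (N : ℝ) ≤ X / Y / 8 := by
    rw [← hX8]; exact Nat.floor_le (by positivity)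
  have hNge : X / Y / 16 ≤ N := by
    have h1 := Nat.lt_floor_add_one (X / (8 * Y))
    rw [← hN, hX8] at h1
    linarith
  have hset : {q : ℕ × ℕ | q.2 ∈ P ∧ (q.1 : ℝ) * y - H < q.2 ∧ (q.2 : ℝ) < q.1 * y} =
      (((Ico N (64 * N)) ×ˢ P).filter (fun q : ℕ × ℕ => ((q.1 : ℝ) + 0) * y - 1 * H < q.2 ∧
        (q.2 : ℝ) ≤ ((q.1 : ℝ) + 0) * y + (1 - 1) * H) : Finset (ℕ × ℕ)) := by
    ext ⟨k, p⟩
    simp only [Set.mem_setOf_eq, coe_filter, mem_product, mem_Ico, add_zero, one_mul, sub_self, zero_mul]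
    constructor
    · rintro ⟨hp, h1, h2⟩
      have hp' := mem_Ioc.mp (hP hp)
      have hpX : (X : ℝ) < p := by exact_mod_cast hp'.1
      have hpX2 : (p : ℝ) ≤ 2 * X := by exact_mod_cast hp'.2
      refine ⟨⟨⟨?_, ?_⟩, hp⟩, h1, h2.le⟩
      · have h3 : (N : ℝ) ≤ k := by
          by_contra hcon
          push Not at hcon
          have h4 : (k : ℝ) * y ≤ (X / Y / 8) * (2 * Y) := by
            apply mul_le_mul (by linarith) hy2 hy0.le (by positivity)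
          have h5 : (X / Y / 8) * (2 * Y) = X / 4 := by field_simp; ring
          linarith
        exact_mod_cast h3
      · have h3 : (k : ℝ) < 64 * N := by
          by_contra hcon
          push Not at hcon
          have h4 : (4 * (X / Y)) * Y ≤ (k : ℝ) * y := by
            apply mul_le_mul (by linarith) hy1 hY.le (Nat.cast_nonneg _)
          have h5 : (4 * (X / Y)) * Y = 4 * X := by field_simp
          have h6 : H ≤ X := by linarith
          linarith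
        exact_mod_cast h3
    · rintro ⟨⟨_, hp⟩, h1, h2⟩
      refine ⟨hp, h1, lt_of_le_of_ne h2 ?_⟩
      intro heq
      apply hy
      have hp' := mem_Ioc.mp (hP hp)
      have hp0 : (0 : ℝ) < p := by
        have : (X : ℝ) < p := by exact_mod_cast hp'.1
        linarith
      have hk0 : (k : ℝ) ≠ 0 := by
        intro hk; rw [hk, zero_mul] at heq; linarith
      refine ⟨(p : ℚ) / k, ?_⟩
      push_cast
      rw [heq]; field_simp
  rw [hset, Set.ncard_coe_finset]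
  unfold cnt
  rw [card_filter, sum_product]
  push_cast
  refine sum_congr rfl fun k _ => ?_
  rw [card_filter]; push_cast; rfl

lemma rat_null : volume (Set.range ((↑) : ℚ → ℝ)) = 0 :=
  (Set.countable_range _).measure_zero _

lemma rat_meas : MeasurableSet (Set.range ((↑) : ℚ → ℝ)) :=
  (Set.countable_range _).measurableSet

/-- asymptotic count of pairs for almost all dilates, arbitrary sets -/
theorem pairs_asymp (δ : ℝ) (hδ : 0 < δ) (hδ1 : δ < 1) :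
    ∃ κ : ℝ, 0 < κ ∧ ∃ X₀ : ℕ, ∀ X : ℕ, X₀ ≤ X → ∀ P : Finset ℕ, P ⊆ Ioc X (2 * X) →
      ∀ Y h : ℝ, 0 < Y → Y ≤ (X:ℝ) ^ (1 - δ) → (X : ℝ) ^ (-κ) ≤ h → h ≤ Y →
      ∃ E : Set ℝ, MeasurableSet E ∧ volume E ≤ ENNReal.ofReal (Y * (X : ℝ) ^ (-κ)) ∧
      ∀ x : ℝ, Y ≤ x → x ≤ 2 * Y → x ∉ E →
        |({q : ℕ × ℕ | q.2 ∈ P ∧ (q.1 : ℝ) * x - h < q.2 ∧ (q.2 : ℝ) < q.1 * x}.ncard : ℝ) -
          (h / x) * P.card| ≤ (h / x) * (X : ℝ) ^ (1 - κ) := by
  obtain ⟨κ, hκ0, hκδ, X₀, hX₀, hG⟩ := good_set δ hδ hδ1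
  have ev1 : ∀ᶠ X : ℕ in atTop, 1000 ≤ (X : ℝ) ^ δ :=
    ((tendsto_rpow_atTop hδ).comp tendsto_natCast_atTop_atTop).eventually_ge_atTop 1000
  have ev2 : ∀ᶠ X : ℕ in atTop, 2 ≤ (X : ℝ) ^ (κ / 2) :=
    ((tendsto_rpow_atTop (by positivity)).comp tendsto_natCast_atTop_atTop).eventually_ge_atTop 2
  obtain ⟨X1, hX1⟩ := (ev1.and ev2).exists_forall_of_atTop
  refine ⟨κ / 2, by positivity, max X₀ X1, ?_⟩
  intro X hX P hP Y h hY hYX hhl hhY
  have hXX₀ : X₀ ≤ X := (le_max_left _ _).trans hX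
  obtain ⟨h1000, h2⟩ := hX1 X ((le_max_right _ _).trans hX)
  have hX3 : (3 : ℝ) ≤ X := by exact_mod_cast hX₀.trans hXX₀
  have hX0 : (0 : ℝ) < X := by linarith
  have hh0 : 0 < h := lt_of_lt_of_le (by positivity) hhl
  have hhl' : (X : ℝ) ^ (-κ) ≤ h := by
    refine le_trans ?_ hhl
    apply Real.rpow_le_rpow_of_exponent_le (by linarith)
    linarith
  obtain ⟨E, hE1, hE2, hE3⟩ := hG X hXX₀ P hP Y h 0 1 hY hYX hhl' hhY le_rfl zero_le_one (Or.inr rfl)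
  refine ⟨E ∪ Set.range ((↑) : ℚ → ℝ), hE1.union rat_meas, ?_, ?_⟩
  · refine (measure_union_le _ _).trans ?_
    rw [rat_null, add_zero]
    refine hE2.trans (ENNReal.ofReal_le_ofReal ?_)
    apply mul_le_mul_of_nonneg_left _ hY.le
    apply Real.rpow_le_rpow_of_exponent_le (by linarith)
    linarith
  · intro x hx1 hx2 hxE
    rw [Set.mem_union, not_or] at hxE
    obtain ⟨hxE, hxQ⟩ := hxE
    have hx0 : 0 < x := hY.trans_le hx1
    have hXY : 1000 * Y ≤ X := by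
      have hXsplit : (X : ℝ) ^ (1 - δ) * (X : ℝ) ^ δ = X := by
        rw [← Real.rpow_add hX0]; simp
      calc 1000 * Y ≤ (X : ℝ) ^ δ * (X : ℝ) ^ (1 - δ) := by gcongr
        _ = X := by rw [mul_comm]; exact hXsplit
    rw [pairs_eq hP hY hXY hh0 hhY hx1 hx2 hxQ]
    have h3 := hE3 x ⟨hx1, hx2⟩ hxE
    unfold dv at h3
    rw [mul_comm (h / x)]
    refine h3.le.trans ?_
    have e1 : (X : ℝ) ^ (1 - κ / 2) = (X : ℝ) ^ (κ / 2) * (X : ℝ) ^ (1 - κ) := by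
      rw [← Real.rpow_add hX0]; congr 1; ring
    rw [e1]
    have h4 : h / Y ≤ 2 * (h / x) := by
      rw [← mul_div_assoc, div_le_div_iff₀ hY hx0]
      nlinarith
    calc h / Y * (X : ℝ) ^ (1 - κ) ≤ 2 * (h / x) * (X : ℝ) ^ (1 - κ) := by gcongr
      _ = (h / x) * (2 * (X : ℝ) ^ (1 - κ)) := by ring
      _ ≤ (h / x) * ((X : ℝ) ^ (κ / 2) * (X : ℝ) ^ (1 - κ)) := by gcongr

/-- positive proportion of the multiples -/
theorem pos_prop (δ lam : ℝ) (hδ : 0 < δ) (hδ1 : δ < 1) (hlam : 0 < lam) :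
    ∃ c κ : ℝ, 0 < c ∧ 0 < κ ∧ ∃ Y₀ : ℝ, ∀ Y : ℝ, Y₀ ≤ Y →
      ∃ E : Set ℝ, MeasurableSet E ∧ volume E ≤ ENNReal.ofReal (Y ^ (1 - κ)) ∧
      ∀ x : ℝ, Y ≤ x → x ≤ 2 * Y → x ∉ E →
        c * Y ^ δ ≤ ({k : ℕ | (k : ℝ) ≤ Y ^ δ ∧ ∃ p : ℕ, p.Prime ∧
          k * x - lam * Real.log (k * x) < p ∧ (p : ℝ) < k * x}.ncard : ℝ) := by
  classical
  obtain ⟨κ, hκ0, hκδ, X₀, hX₀, hG⟩ := good_set (δ / 4) (by positivity) (by linarith)
  obtain ⟨c0, hc0, X1, hX1, hsep⟩ := sep_set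
  set lam' : ℝ := min lam 1 with hlam'
  have hlam'0 : 0 < lam' := lt_min hlam one_pos
  have hlam'1 : lam' ≤ 1 := min_le_right _ _
  -- conditions on X
  have ev1 := log_pow_le 1 κ (4 / c0) hκ0
  have ev2 : ∀ᶠ X : ℕ in atTop, 1 / lam' ≤ (X : ℝ) ^ κ :=
    ((tendsto_rpow_atTop hκ0).comp tendsto_natCast_atTop_atTop).eventually_ge_atTop _
  obtain ⟨X2, hX2⟩ := (ev1.and ev2).exists_forall_of_atTop
  -- conditions on Y
  have ev3 : ∀ᶠ Y : ℝ in atTop, 8 ≤ Y ^ (δ / 2) := (tendsto_rpow_atTop (by positivity)).eventually_ge_atTop 8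
  have ev4 : ∀ᶠ Y : ℝ in atTop, ((max X₀ (max X1 X2) : ℕ) : ℝ) ≤ Y := eventually_ge_atTop _
  have ev5 : ∀ᶠ Y : ℝ in atTop, (3 : ℝ) ≤ Y := eventually_ge_atTop _
  obtain ⟨Y₀, hY₀⟩ := (ev3.and (ev4.and ev5)).exists_forall_of_atTop
  refine ⟨lam' * c0 / 32, κ, by positivity, hκ0, Y₀, ?_⟩
  intro Y hY
  obtain ⟨hY8, hYX, hY3⟩ := hY₀ Y hY
  have hY0 : 0 < Y := by linarith
  have hY1 : 1 ≤ Y := by linarith
  set X : ℕ := ⌊Y ^ (1 + δ) / 4⌋₊ with hXd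
  have hYδ8 : 8 ≤ Y ^ δ := by
    refine hY8.trans (Real.rpow_le_rpow_of_exponent_le hY1 (by linarith))
  have hY1δ : Y ^ (1 + δ) = Y * Y ^ δ := by rw [Real.rpow_add hY0, Real.rpow_one]
  have hXle : (X : ℝ) ≤ Y ^ (1 + δ) / 4 := Nat.floor_le (by positivity)
  have hXge : Y ^ (1 + δ) / 8 ≤ X := by
    have h1 := Nat.lt_floor_add_one (Y ^ (1 + δ) / 4)
    rw [← hXd] at h1
    have h2 : 8 ≤ Y ^ (1 + δ) := by rw [hY1δ]; nlinarith
    linarith
  have hYX1 : Y ≤ X := by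
    refine le_trans ?_ hXge
    rw [hY1δ]; nlinarith
  have hXbig : max X₀ (max X1 X2) ≤ X := by
    have h1 : ((max X₀ (max X1 X2) : ℕ) : ℝ) ≤ X := hYX.trans hYX1
    exact_mod_cast h1
  have hXX₀ : X₀ ≤ X := (le_max_left _ _).trans hXbig
  have hXX1 : X1 ≤ X := ((le_max_left _ _).trans (le_max_right _ _)).trans hXbig
  have hXX2 : X2 ≤ X := ((le_max_right _ _).trans (le_max_right _ _)).trans hXbig
  have hX3 : (3 : ℝ) ≤ X := by exact_mod_cast hX₀.trans hXX₀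
  have hX0 : (0 : ℝ) < X := by linarith
  have hL1 : 1 ≤ Real.log X := by
    rw [Real.le_log_iff_exp_le hX0]
    have := Real.exp_one_lt_d9
    linarith
  have hL0 : 0 < Real.log X := by linarith
  obtain ⟨f1, f2⟩ := hX2 X hXX2
  rw [pow_one] at f1
  obtain ⟨P', hP'sub, hP'sep, hP'card⟩ := hsep X hXX1 lam' hlam'0 hlam'1
  set H : ℝ := lam' * Real.log X with hH
  have hH0 : 0 < H := by positivity
  have hHl : (X : ℝ) ^ (-κ) ≤ H := by
    rw [Real.rpow_neg hX0.le]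
    have h1 : ((X : ℝ) ^ κ)⁻¹ ≤ lam' := by
      rw [inv_le_comm₀ (by positivity) hlam'0, ← one_div]; exact f2
    rw [hH]; nlinarith
  have hXY2 : (X : ℝ) ≤ Y ^ (2 : ℕ) := by
    calc (X : ℝ) ≤ Y ^ (1 + δ) / 4 := hXle
      _ ≤ Y ^ (1 + δ) := by
        have : 0 < Y ^ (1 + δ) := by positivity
        linarith
      _ ≤ Y ^ (2 : ℝ) := Real.rpow_le_rpow_of_exponent_le hY1 (by linarith)
      _ = Y ^ (2 : ℕ) := by rw [← Real.rpow_natCast]; norm_num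
  have hHY : H ≤ Y := by
    have h1 : Real.log X ≤ 2 * Real.log Y := by
      have := Real.log_le_log hX0 hXY2
      rwa [Real.log_pow] at this
    have h2 : Real.log (Y / 2) ≤ Y / 2 - 1 := Real.log_le_sub_one_of_pos (by positivity)
    rw [Real.log_div hY0.ne' (by norm_num)] at h2
    have h3 : Real.log 2 < 1 := by
      have := Real.log_two_lt_d9; linarith
    have h4 : H ≤ Real.log X := by rw [hH]; nlinarith
    linarith
  have hYXδ : Y ≤ (X : ℝ) ^ (1 - δ / 4) := by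
    have h1 : (Y ^ (1 + δ) / 8) ^ (1 - δ / 4) ≤ (X : ℝ) ^ (1 - δ / 4) := by
      apply Real.rpow_le_rpow (by positivity) hXge (by linarith)
    refine le_trans ?_ h1
    rw [Real.div_rpow (by positivity) (by norm_num), ← Real.rpow_mul hY0.le]
    have h2 : (8 : ℝ) ^ (1 - δ / 4) ≤ 8 := by
      calc (8 : ℝ) ^ (1 - δ / 4) ≤ 8 ^ (1 : ℝ) := Real.rpow_le_rpow_of_exponent_le (by norm_num) (by linarith)
        _ = 8 := Real.rpow_one _
    have h3 : Y ^ (1 + δ / 2) ≤ Y ^ ((1 + δ) * (1 - δ / 4)) := by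
      apply Real.rpow_le_rpow_of_exponent_le hY1
      nlinarith
    have h4 : Y ^ (1 + δ / 2) = Y * Y ^ (δ / 2) := by rw [Real.rpow_add hY0, Real.rpow_one]
    rw [le_div_iff₀ (by positivity)]
    calc Y * 8 ^ (1 - δ / 4) ≤ Y * 8 := by gcongr
      _ ≤ Y * Y ^ (δ / 2) := by gcongr
      _ = Y ^ (1 + δ / 2) := h4.symm
      _ ≤ _ := h3
  have hP'Ioc : P' ⊆ Ioc X (2 * X) := fun p hp => (mem_filter.mp (hP'sub hp)).1
  obtain ⟨E, hE1, hE2, hE3⟩ := hG X hXX₀ P' hP'Ioc Y H 0 1 hY0 hYXδ hHl hHY le_rfl zero_le_one (Or.inr rfl)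
  refine ⟨E ∪ Set.range ((↑) : ℚ → ℝ), hE1.union rat_meas, ?_, ?_⟩
  · refine (measure_union_le _ _).trans ?_
    rw [rat_null, add_zero]
    refine hE2.trans (ENNReal.ofReal_le_ofReal ?_)
    have h1 : (X : ℝ) ^ (-κ) ≤ Y ^ (-κ) := Real.rpow_le_rpow_of_nonpos hY0 hYX1 (by linarith)
    calc Y * (X : ℝ) ^ (-κ) ≤ Y * Y ^ (-κ) := by gcongr
      _ = Y ^ (1 - κ) := by rw [sub_eq_add_neg, Real.rpow_add hY0, Real.rpow_one]
  intro x hx1 hx2 hxE
  rw [Set.mem_union, not_or] at hxE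
  obtain ⟨hxE, hxQ⟩ := hxE
  have hx0 : 0 < x := hY0.trans_le hx1
  have h3 := hE3 x ⟨hx1, hx2⟩ hxE
  set K := Ico ⌊X / (8 * Y)⌋₊ (64 * ⌊X / (8 * Y)⌋₊) with hK
  -- the count is at most the number of good k
  set S : Finset ℕ := K.filter (fun k : ℕ => (P'.filter (fun p : ℕ => ((k : ℝ) + 0) * x - 1 * H < p ∧
    (p : ℝ) ≤ ((k : ℝ) + 0) * x + (1 - 1) * H)).Nonempty) with hS
  have hcnt : cnt P' K 0 1 H x ≤ S.card := by
    unfold cnt
    rw [hS, card_filter]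
    push_cast
    refine sum_le_sum fun k _ => ?_
    split_ifs with hne
    · have : (P'.filter (fun p : ℕ => ((k : ℝ) + 0) * x - 1 * H < p ∧
        (p : ℝ) ≤ ((k : ℝ) + 0) * x + (1 - 1) * H)).card ≤ 1 := by
        rw [card_le_one]
        intro a ha b hb
        rw [mem_filter] at ha hb
        obtain ⟨ha, ha1, ha2⟩ := ha
        obtain ⟨hb, hb1, hb2⟩ := hb
        rcases lt_trichotomy a b with h | h | h
        · have := hP'sep a ha b hb h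
          linarith
        · exact h
        · have := hP'sep b hb a ha h
          linarith
      exact_mod_cast this
    · rw [not_nonempty_iff_eq_empty] at hne
      rw [hne]; simp
  have hsubset : (S : Set ℕ) ⊆ {k : ℕ | (k : ℝ) ≤ Y ^ δ ∧ ∃ p : ℕ, p.Prime ∧
          k * x - lam * Real.log (k * x) < p ∧ (p : ℝ) < k * x} := by
    intro k hk
    rw [hS, mem_coe, mem_filter] at hk
    obtain ⟨-, p, hp⟩ := hk
    rw [mem_filter] at hp
    obtain ⟨hp, hp1, hp2⟩ := hp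
    rw [add_zero, one_mul] at hp1
    rw [add_zero, sub_self, zero_mul, add_zero] at hp2
    have hpP := hP'sub hp
    rw [PP, mem_filter, mem_Ioc] at hpP
    obtain ⟨⟨hpX, hpX2⟩, hpp⟩ := hpP
    have hpX' : (X : ℝ) < p := by exact_mod_cast hpX
    have hpX2' : (p : ℝ) ≤ 2 * X := by exact_mod_cast hpX2
    refine ⟨?_, p, hpp, ?_, lt_of_le_of_ne hp2 ?_⟩
    · have h4 : (k : ℝ) * Y ≤ Y ^ δ * Y := by
        have h5 : (k : ℝ) * Y ≤ k * x := by gcongr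
        have h6 : H ≤ Y * Y ^ δ / 2 := by nlinarith
        have h7 : 2 * (X : ℝ) ≤ Y * Y ^ δ / 2 := by rw [← hY1δ]; linarith
        linarith
      exact le_of_mul_le_mul_right h4 hY0
    · have h4 : Real.log X ≤ Real.log (k * x) := Real.log_le_log hX0 (by linarith)
      have h5 : H ≤ lam * Real.log (k * x) := by
        rw [hH]
        apply mul_le_mul (min_le_left _ _) h4 hL0.le hlam.le
      linarith
    · intro heq
      apply hxQ
      have hk0 : (k : ℝ) ≠ 0 := by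
        intro hk; rw [hk, zero_mul] at heq; linarith
      refine ⟨(p : ℚ) / k, ?_⟩
      push_cast
      rw [heq]; field_simp
  have hfinite : {k : ℕ | (k : ℝ) ≤ Y ^ δ ∧ ∃ p : ℕ, p.Prime ∧
          k * x - lam * Real.log (k * x) < p ∧ (p : ℝ) < k * x}.Finite := by
    refine (Set.finite_Iic ⌊Y ^ δ⌋₊).subset fun k hk => ?_
    exact Nat.le_floor hk.1
  have hcard : (S.card : ℝ) ≤ ({k : ℕ | (k : ℝ) ≤ Y ^ δ ∧ ∃ p : ℕ, p.Prime ∧
          k * x - lam * Real.log (k * x) < p ∧ (p : ℝ) < k * x}.ncard : ℝ) := by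
    have := Set.ncard_le_ncard hsubset hfinite
    rw [Set.ncard_coe_finset] at this
    exact_mod_cast this
  refine le_trans ?_ (hcnt.trans hcard)
  -- lower bound for the count
  unfold dv at h3
  rw [abs_lt] at h3
  obtain ⟨h3, -⟩ := h3
  have h4 : (X : ℝ) ^ (1 - κ) ≤ (P'.card : ℝ) / 4 := by
    rw [Real.rpow_sub hX0, Real.rpow_one]
    have h5 : (X : ℝ) / X ^ κ ≤ X / (4 / c0 * Real.log X) := by
      apply div_le_div_of_nonneg_left hX0.le (by positivity) f1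
    have h6 : (X : ℝ) / (4 / c0 * Real.log X) = c0 * (X / Real.log X) / 4 := by field_simp
    rw [h6] at h5
    linarith
  have h5 : H / (2 * Y) ≤ H / x := div_le_div_of_nonneg_left hH0.le hx0 hx2
  have h6 : (P'.card : ℝ) * (H / (2 * Y)) ≤ P'.card * (H / x) := by gcongr
  have h7 : H / Y * (X : ℝ) ^ (1 - κ) ≤ H / Y * ((P'.card : ℝ) / 4) := by gcongr
  have h8 : (P'.card : ℝ) * (H / (2 * Y)) - H / Y * ((P'.card : ℝ) / 4) = H / Y * ((P'.card : ℝ) / 4) := by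
    field_simp; ring
  have h9 : H / Y * ((P'.card : ℝ) / 4) ≤ cnt P' K 0 1 H x := by linarith
  refine le_trans ?_ h9
  calc lam' * c0 / 32 * Y ^ δ = (lam' * c0 / 4) * ((Y * Y ^ δ / 8) / Y) := by field_simp; ring
    _ ≤ (lam' * c0 / 4) * (X / Y) := by
      rw [hY1δ] at hXge
      gcongr
    _ = H / Y * (c0 * (X / Real.log X) / 4) := by
      rw [hH]; field_simp
    _ ≤ H / Y * ((P'.card : ℝ) / 4) := by gcongr

end Pool.Agent.H438R2.DL
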