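import Pool.Agent.H438R2.DL.IntMod

open Finset MeasureTheory Filter

namespace Pool.Agent.H438R2.DL

/-- number of elements of `P` in the residue classes `a mod q`, `β q < a ≤ β q + H` -/
noncomputable def classCount (P : Finset ℕ) (q : ℕ) (β H : ℝ) : ℕ :=
  ∑ a ∈ Ioc ⌊β * q⌋₊ ⌊β * q + H⌋₊, (P.filter (fun p => p ≡ a [MOD q])).card

lemma classes {P : Finset ℕ} {X Q q : ℕ} (hP : P ⊆ Ioc X (2 * X)) (hq : q ∈ Ioo Q (2 * Q))
    {β H : ℝ} (hβ0 : 0 ≤ β) (hβ1 : β ≤ 1) (hH1 : 1 ≤ H) (hHQ : H ≤ Q / 2) (hXQ : 1000 * (Q : ℝ) ≤ X) :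
    cnt P (Ico ⌊X / (8 * (Q : ℝ))⌋₊ (64 * ⌊X / (8 * (Q : ℝ))⌋₊)) β 0 H q = classCount P q β H := by
  classical
  rw [mem_Ioo] at hq
  have hq1 : (Q : ℝ) + 1 ≤ q := by exact_mod_cast hq.1
  have hq2 : (q : ℝ) + 1 ≤ 2 * Q := by exact_mod_cast hq.2
  have hQ0 : (0 : ℝ) < Q := by linarith
  have hq0 : (0 : ℝ) < q := by linarith
  have hqn : 0 < q := by omega
  have hX0 : (0 : ℝ) < X := by nlinarith
  set N : ℕ := ⌊X / (8 * (Q : ℝ))⌋₊ with hN
  have hX8 : X / (8 * (Q : ℝ)) = (X / Q) / 8 := by field_simp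
  have hXYb : 1000 ≤ (X : ℝ) / Q := by rw [le_div_iff₀ hQ0]; exact hXQ
  have hNle : (N : ℝ) ≤ X / Q / 8 := by
    rw [← hX8]; exact Nat.floor_le (by positivity)
  have hNge : X / Q / 16 ≤ (N : ℝ) := by
    have h1 := Nat.lt_floor_add_one (X / (8 * (Q : ℝ)))
    rw [← hN, hX8] at h1
    linarith
  have hNq : (N : ℝ) * q ≤ X / 4 := by
    calc (N : ℝ) * q ≤ (X / Q / 8) * (2 * Q) := by
          apply mul_le_mul hNle (by linarith) hq0.le (by positivity)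
      _ = X / 4 := by field_simp; ring
  have hNq2 : 4 * (X : ℝ) ≤ 64 * N * q := by
    calc 4 * (X : ℝ) = 64 * (X / Q / 16) * Q := by field_simp; ring
      _ ≤ 64 * N * q := by
        apply mul_le_mul (by linarith) (by linarith) hQ0.le (by positivity)
  unfold cnt classCount
  simp only [card_filter]
  push_cast
  rw [sum_comm]
  conv_rhs => rw [sum_comm]
  refine sum_congr rfl fun p hp => ?_
  have hp' := mem_Ioc.mp (hP hp)
  have hpX : (X : ℝ) < p := by exact_mod_cast hp'.1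
  have hpX2 : (p : ℝ) ≤ 2 * X := by exact_mod_cast hp'.2
  rw [← Nat.cast_one, ← Nat.cast_zero]
  simp only [← apply_ite Nat.cast]
  rw [← Nat.cast_sum, ← Nat.cast_sum, ← card_filter, ← card_filter]
  congr 1
  have hβq : 0 ≤ β * q := by positivity
  have hβq1 : β * q ≤ q := by nlinarith
  apply card_nbij' (fun k => p - k * q) (fun a => (p - a) / q)
  · intro k hk
    rw [mem_coe, mem_filter, mem_Ico] at hk
    obtain ⟨⟨hk1, hk2⟩, h1, h2⟩ := hk
    simp only [Nat.cast_zero, zero_mul, sub_zero, Nat.cast_one, one_mul] at h1 h2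
    have h3 : (k : ℝ) * q < p := by nlinarith
    have h4 : k * q < p := by exact_mod_cast h3
    have h5 : ((p - k * q : ℕ) : ℝ) = p - k * q := by
      rw [Nat.cast_sub h4.le]; push_cast; ring
    rw [mem_coe, mem_filter, mem_Ioc, Nat.floor_lt hβq, Nat.le_floor_iff (by positivity), h5]
    refine ⟨⟨by linarith, by linarith⟩, ?_⟩
    have h6 : p = (p - k * q) + k * q := by omega
    conv_lhs => rw [h6]
    unfold Nat.ModEq
    simp
  · intro a ha
    rw [mem_coe, mem_filter, mem_Ioc, Nat.floor_lt hβq, Nat.le_floor_iff (by positivity)] at ha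
    obtain ⟨⟨ha1, ha2⟩, ha3⟩ := ha
    have h1 : (a : ℝ) ≤ 3 * Q := by linarith
    have h2 : (a : ℝ) < p := by linarith
    have h2' : a < p := by exact_mod_cast h2
    have hdvd : q ∣ p - a := (Nat.modEq_iff_dvd' h2'.le).mp ha3.symm
    have h3 : (p - a) / q * q = p - a := Nat.div_mul_cancel hdvd
    have h4 : (((p - a) / q : ℕ) : ℝ) * q = p - a := by
      have : (((p - a) / q * q : ℕ) : ℝ) = ((p - a : ℕ) : ℝ) := by rw [h3]
      rw [Nat.cast_sub h2'.le] at this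
      push_cast at this
      exact this
    rw [mem_coe, mem_filter, mem_Ico]
    simp only [Nat.cast_zero, zero_mul, sub_zero, Nat.cast_one, one_mul]
    refine ⟨⟨?_, ?_⟩, ?_, ?_⟩
    · have : (N : ℝ) ≤ (((p - a) / q : ℕ) : ℝ) := by
        by_contra hcon
        push Not at hcon
        have : (((p - a) / q : ℕ) : ℝ) * q ≤ N * q := by gcongr
        linarith
      exact_mod_cast this
    · have : (((p - a) / q : ℕ) : ℝ) < ((64 * N : ℕ) : ℝ) := by
        push_cast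
        by_contra hcon
        push Not at hcon
        have : 64 * (N : ℝ) * q ≤ (((p - a) / q : ℕ) : ℝ) * q := by gcongr
        linarith
      exact_mod_cast this
    · rw [add_mul, h4]; linarith
    · rw [add_mul, h4]; linarith
  · intro k hk
    rw [mem_coe, mem_filter, mem_Ico] at hk
    obtain ⟨⟨hk1, hk2⟩, h1, h2⟩ := hk
    simp only [Nat.cast_zero, zero_mul, sub_zero, Nat.cast_one, one_mul] at h1 h2
    have h3 : (k : ℝ) * q < p := by nlinarith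
    have h4 : k * q < p := by exact_mod_cast h3
    show (p - (p - k * q)) / q = k
    rw [Nat.sub_sub_self h4.le, Nat.mul_div_cancel _ hqn]
  · intro a ha
    rw [mem_coe, mem_filter, mem_Ioc, Nat.floor_lt hβq, Nat.le_floor_iff (by positivity)] at ha
    obtain ⟨⟨ha1, ha2⟩, ha3⟩ := ha
    have h1 : (a : ℝ) ≤ 3 * Q := by linarith
    have h2 : (a : ℝ) < p := by linarith
    have h2' : a < p := by exact_mod_cast h2
    have hdvd : q ∣ p - a := (Nat.modEq_iff_dvd' h2'.le).mp ha3.symm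
    have h3 : (p - a) / q * q = p - a := Nat.div_mul_cancel hdvd
    show p - (p - a) / q * q = a
    rw [h3]; omega

/-- **Integer moduli, residue classes.** -/
theorem INT2 (δ : ℝ) (hδ : 0 < δ) (hδ1 : δ < 1) :
    ∃ κ : ℝ, 0 < κ ∧ κ ≤ δ / 32 ∧ ∃ X₀ : ℕ, 3 ≤ X₀ ∧ ∀ X : ℕ, X₀ ≤ X → ∀ P : Finset ℕ, P ⊆ Ioc X (2 * X) →
      ∀ Q : ℕ, (Q : ℝ) ≤ (X:ℝ) ^ (1 - δ) → 16 * (X : ℝ) ≤ (Q : ℝ) ^ 2 →
      ∀ H β : ℝ, 1 ≤ H → H ≤ Q / 2 → 0 ≤ β → β ≤ 1 →
      ∑ q ∈ Ioo Q (2 * Q), |(classCount P q β H : ℝ) - P.card * (H / q)| ≤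
        H * (X : ℝ) ^ (1 - κ) + 24 * (X : ℝ) ^ 2 / Q := by
  obtain ⟨κ, hκ0, hκδ, X₀, hX₀, hI⟩ := INT δ hδ hδ1
  have ev1 : ∀ᶠ X : ℕ in atTop, 1000 ≤ (X : ℝ) ^ δ :=
    ((tendsto_rpow_atTop hδ).comp tendsto_natCast_atTop_atTop).eventually_ge_atTop 1000
  obtain ⟨X1, hX1⟩ := ev1.exists_forall_of_atTop
  refine ⟨κ, hκ0, hκδ, max X₀ X1, hX₀.trans (le_max_left _ _), ?_⟩
  intro X hX P hP Q hQX hXQ H β hH1 hHQ hβ0 hβ1
  have h1000 := hX1 X ((le_max_right _ _).trans hX)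
  have hXX₀ : X₀ ≤ X := (le_max_left _ _).trans hX
  have hX3 : (3 : ℝ) ≤ X := by exact_mod_cast hX₀.trans hXX₀
  have hX0 : (0 : ℝ) < X := by linarith
  have hXY : 1000 * (Q : ℝ) ≤ X := by
    have hXsplit : (X : ℝ) ^ (1 - δ) * (X : ℝ) ^ δ = X := by
      rw [← Real.rpow_add hX0]; simp
    calc 1000 * (Q : ℝ) ≤ (X : ℝ) ^ δ * (X : ℝ) ^ (1 - δ) := by gcongr
      _ = X := by rw [mul_comm]; exact hXsplit
  refine le_trans (le_of_eq ?_) (hI X hXX₀ P hP Q hQX hXQ H β hH1 hHQ hβ0 hβ1)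
  refine sum_congr rfl fun q hq => ?_
  rw [classes hP hq hβ0 hβ1 hH1 hHQ hXY]

end Pool.Agent.H438R2.DL
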