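import Pool.Agent.H438R2.DL.Four

open MeasureTheory FourierTransform

namespace Pool.Agent.H438R2.DL

open Pool.Agent.H469R2.NK (e norm_e e_add e_zero)

lemma fourier_sum {α : Type*} (S : Finset α) (c : α → ℂ) (f : α → ℝ → ℂ) (hf : ∀ i ∈ S, Integrable (f i))
    (ξ : ℝ) : 𝓕 (fun u => ∑ i ∈ S, c i * f i u) ξ = ∑ i ∈ S, c i * 𝓕 (f i) ξ := by
  rw [Real.fourier_real_eq_integral_exp_smul]
  simp only [smul_eq_mul, Finset.mul_sum]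
  rw [integral_finsetSum]
  · refine Finset.sum_congr rfl fun i _ => ?_
    rw [Real.fourier_real_eq_integral_exp_smul, ← integral_const_mul]
    congr 1
    funext v
    simp only [smul_eq_mul]
    ring
  · intro i hi
    have h1 := (hf i hi).const_mul (c i)
    refine (h1.bdd_mul (c := 1) (f := fun v : ℝ => Complex.exp (((-2 * Real.pi * v * ξ : ℝ) : ℂ) * Complex.I)) ?_ ?_)
    · exact Continuous.aestronglyMeasurable (by fun_prop)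
    · refine Filter.Eventually.of_forall fun v => ?_
      exact (Complex.norm_exp_ofReal_mul_I _).le

/-- normalized number of points in `(u, u + s]` -/
noncomputable def Fw {ι : Type*} (P : Finset ι) (x : ι → ℝ) (s u : ℝ) : ℝ :=
  (1 / s) * ((P.filter (fun p => u < x p ∧ x p ≤ u + s)).card : ℝ)

lemma Fw_nonneg {ι : Type*} (P : Finset ι) (x : ι → ℝ) {s : ℝ} (hs : 0 ≤ s) (u : ℝ) : 0 ≤ Fw P x s u := by
  unfold Fw; positivity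

lemma Fw_eq {ι : Type*} (P : Finset ι) (x : ι → ℝ) (s u : ℝ) :
    ((Fw P x s u : ℝ) : ℂ) = ∑ p ∈ P, (1 / s : ℂ) * bx (x p - s) (x p) u := by
  classical
  unfold Fw
  rw [← Finset.mul_sum]
  push_cast
  congr 1
  rw [Finset.card_filter]
  push_cast
  refine Finset.sum_congr rfl fun p _ => ?_
  unfold bx
  by_cases h : u < x p ∧ x p ≤ u + s
  · rw [if_pos h, Set.indicator_of_mem]
    · rw [Set.mem_Ico]; constructor <;> linarith [h.1, h.2]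
  · rw [if_neg h, Set.indicator_of_notMem]
    · rw [Set.mem_Ico]; intro h'; apply h; constructor <;> linarith [h'.1, h'.2]

lemma Fw_int {ι : Type*} (P : Finset ι) (x : ι → ℝ) (s : ℝ) :
    Integrable (fun u => ((Fw P x s u : ℝ) : ℂ)) := by
  simp only [Fw_eq]
  exact integrable_finsetSum _ fun p _ => (bx_int _ _).const_mul _

lemma Fw_L2 {ι : Type*} (P : Finset ι) (x : ι → ℝ) (s : ℝ) :
    MemLp (fun u => ((Fw P x s u : ℝ) : ℂ)) 2 := by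
  simp only [Fw_eq]
  exact memLp_finsetSum _ fun p _ => (bx_L2 _ _).const_mul _

lemma Fw_fourier {ι : Type*} (P : Finset ι) (x : ι → ℝ) (s ξ : ℝ) (hs : 0 ≤ s) :
    𝓕 (fun u => ((Fw P x s u : ℝ) : ℂ)) ξ = (∑ p ∈ P, e (-(x p * ξ))) * (J s ξ / s) := by
  simp only [Fw_eq]
  rw [fourier_sum P (fun _ => (1 / s : ℂ)) (fun p => bx (x p - s) (x p)) (fun p _ => bx_int _ _)]
  rw [Finset.sum_mul]
  refine Finset.sum_congr rfl fun p _ => ?_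
  rw [fourier_bx _ _ _ hs]
  ring

/-- the averaged difference -/
noncomputable def AD {ι κ : Type*} (P : Finset ι) (x : ι → ℝ) (K : Finset κ) (a : κ → ℝ) (o τ ω u : ℝ) : ℝ :=
  ∑ k ∈ K, (Fw P x τ (u + o + a k) - Fw P x ω (u + a k))

lemma AD_eq {ι κ : Type*} (P : Finset ι) (x : ι → ℝ) (K : Finset κ) (a : κ → ℝ) (o τ ω u : ℝ) :
    ((AD P x K a o τ ω u : ℝ) : ℂ) =
      (∑ i ∈ K ×ˢ P, (1 / τ : ℂ) * bx ((x i.2 - o - a i.1) - τ) (x i.2 - o - a i.1) u) +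
      ∑ i ∈ K ×ˢ P, (-(1 / ω) : ℂ) * bx ((x i.2 - a i.1) - ω) (x i.2 - a i.1) u := by
  unfold AD
  push_cast
  rw [Finset.sum_sub_distrib, Finset.sum_product, Finset.sum_product, sub_eq_add_neg, ← Finset.sum_neg_distrib]
  congr 1
  · refine Finset.sum_congr rfl fun k _ => ?_
    rw [Fw_eq]
    refine Finset.sum_congr rfl fun p _ => ?_
    congr 1
    unfold bx
    simp only [Set.indicator_apply, Set.mem_Ico]
    congr 1
    apply propext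
    constructor <;> rintro ⟨h1, h2⟩ <;> constructor <;> linarith
  · refine Finset.sum_congr rfl fun k _ => ?_
    rw [Fw_eq, ← Finset.sum_neg_distrib]
    refine Finset.sum_congr rfl fun p _ => ?_
    rw [← neg_mul]
    congr 1
    unfold bx
    simp only [Set.indicator_apply, Set.mem_Ico]
    congr 1
    apply propext
    constructor <;> rintro ⟨h1, h2⟩ <;> constructor <;> linarith

lemma AD_int {ι κ : Type*} (P : Finset ι) (x : ι → ℝ) (K : Finset κ) (a : κ → ℝ) (o τ ω : ℝ) :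
    Integrable (fun u => ((AD P x K a o τ ω u : ℝ) : ℂ)) := by
  simp only [AD_eq]
  exact (integrable_finsetSum _ fun p _ => (bx_int _ _).const_mul _).add
    (integrable_finsetSum _ fun p _ => (bx_int _ _).const_mul _)

lemma AD_L2 {ι κ : Type*} (P : Finset ι) (x : ι → ℝ) (K : Finset κ) (a : κ → ℝ) (o τ ω : ℝ) :
    MemLp (fun u => ((AD P x K a o τ ω u : ℝ) : ℂ)) 2 := by
  simp only [AD_eq]
  exact (memLp_finsetSum _ fun p _ => (bx_L2 _ _).const_mul _).add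
    (memLp_finsetSum _ fun p _ => (bx_L2 _ _).const_mul _)

lemma AD_fourier {ι κ : Type*} (P : Finset ι) (x : ι → ℝ) (K : Finset κ) (a : κ → ℝ) (o τ ω ξ : ℝ)
    (hτ : 0 ≤ τ) (hω : 0 ≤ ω) :
    𝓕 (fun u => ((AD P x K a o τ ω u : ℝ) : ℂ)) ξ =
      (∑ k ∈ K, e (a k * ξ)) * ((∑ p ∈ P, e (-(x p * ξ))) * (e (o * ξ) * (J τ ξ / τ) - J ω ξ / ω)) := by
  classical
  have h0 : (fun u => ((AD P x K a o τ ω u : ℝ) : ℂ)) = fun u =>
      ∑ i ∈ (K ×ˢ P).disjSum (K ×ˢ P),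
        (Sum.elim (fun _ => (1 / τ : ℂ)) (fun _ => (-(1 / ω) : ℂ)) i) *
        (Sum.elim (fun i : κ × ι => bx ((x i.2 - o - a i.1) - τ) (x i.2 - o - a i.1))
          (fun i : κ × ι => bx ((x i.2 - a i.1) - ω) (x i.2 - a i.1)) i) u := by
    funext u
    rw [AD_eq, Finset.sum_disjSum]
    simp only [Sum.elim_inl, Sum.elim_inr]
  rw [h0, fourier_sum]
  · rw [Finset.sum_disjSum]
    simp only [Sum.elim_inl, Sum.elim_inr]
    rw [Finset.sum_product, Finset.sum_product, Finset.sum_mul, ← Finset.sum_add_distrib]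
    refine Finset.sum_congr rfl fun k _ => ?_
    rw [← Finset.sum_add_distrib, Finset.sum_mul, Finset.mul_sum]
    refine Finset.sum_congr rfl fun p _ => ?_
    rw [fourier_bx _ _ _ hτ, fourier_bx _ _ _ hω]
    rw [show -((x p - o - a k) * ξ) = -(x p * ξ) + (o * ξ + a k * ξ) by ring,
      show -((x p - a k) * ξ) = -(x p * ξ) + a k * ξ by ring, e_add, e_add, e_add]
    ring
  · intro i _
    rcases i with i | i <;> simp only [Sum.elim_inl, Sum.elim_inr] <;> exact bx_int _ _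

/-- the pointwise inequality in frequency space -/
lemma pointwise {n W Pn A B D w0 η Ξ0 Ξ1 ξ τ : ℝ} (hn : 0 ≤ n) (hW0 : 0 ≤ W) (hWn : W ≤ n)
    (hPn : 0 ≤ Pn) {Ph : ℝ} (hPh0 : 0 ≤ Ph) (hPh : Ph ≤ Pn) (hA : 0 ≤ A) (hB : 0 ≤ B) (hD0 : 0 ≤ D)
    (hη : 0 ≤ η) (hΞ1 : 0 < Ξ1) (hτ : 0 < τ)
    (h1 : |ξ| ≤ Ξ0 → D ≤ w0 ∧ 1 ≤ 2 * A)
    (h2 : Ξ0 ≤ |ξ| → |ξ| ≤ Ξ1 → W ≤ η * n)
    (h2' : D ≤ A + B)
    (h3 : Ξ1 < |ξ| → D ≤ 1 / (τ * |ξ|)) (hw0 : 0 ≤ w0) :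
    (W * (Ph * D)) ^ 2 ≤ n ^ 2 * ((4 * w0 ^ 2 + 2 * η ^ 2) * (Ph * A) ^ 2 + 2 * η ^ 2 * (Ph * B) ^ 2 +
      Pn ^ 2 * (2 / τ ^ 2) * (Ξ1 ^ 2 + ξ ^ 2)⁻¹) := by
  have hΞξ : 0 < Ξ1 ^ 2 + ξ ^ 2 := by positivity
  have t3 : 0 ≤ Pn ^ 2 * (2 / τ ^ 2) * (Ξ1 ^ 2 + ξ ^ 2)⁻¹ := by positivity
  have t2 : 0 ≤ 2 * η ^ 2 * (Ph * B) ^ 2 := by positivity
  have t1 : 0 ≤ (4 * w0 ^ 2 + 2 * η ^ 2) * (Ph * A) ^ 2 := by positivity
  rcases le_or_gt |ξ| Ξ0 with hc | hc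
  · obtain ⟨hD, hA2⟩ := h1 hc
    calc (W * (Ph * D)) ^ 2 ≤ (n * (Ph * w0)) ^ 2 := by gcongr
      _ = n ^ 2 * (w0 ^ 2 * Ph ^ 2 * 1) := by ring
      _ ≤ n ^ 2 * (w0 ^ 2 * Ph ^ 2 * (2 * A) ^ 2) := by
        gcongr
        nlinarith
      _ = n ^ 2 * (4 * w0 ^ 2 * (Ph * A) ^ 2) := by ring
      _ ≤ _ := by
        apply mul_le_mul_of_nonneg_left _ (sq_nonneg n)
        have : 0 ≤ 2 * η ^ 2 * (Ph * A) ^ 2 := by positivity
        have e3 : (4 * w0 ^ 2 + 2 * η ^ 2) * (Ph * A) ^ 2 =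
          4 * w0 ^ 2 * (Ph * A) ^ 2 + 2 * η ^ 2 * (Ph * A) ^ 2 := by ring
        linarith
  · rcases le_or_gt |ξ| Ξ1 with hc2 | hc2
    · have hW := h2 hc.le hc2
      calc (W * (Ph * D)) ^ 2 ≤ (η * n * (Ph * (A + B))) ^ 2 := by gcongr
        _ = n ^ 2 * (η ^ 2 * Ph ^ 2 * (A + B) ^ 2) := by ring
        _ ≤ n ^ 2 * (η ^ 2 * Ph ^ 2 * (2 * A ^ 2 + 2 * B ^ 2)) := by
          gcongr
          nlinarith [sq_nonneg (A - B)]
        _ = n ^ 2 * (2 * η ^ 2 * (Ph * A) ^ 2 + 2 * η ^ 2 * (Ph * B) ^ 2) := by ring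
        _ ≤ _ := by
          apply mul_le_mul_of_nonneg_left _ (sq_nonneg n)
          have : 0 ≤ 4 * w0 ^ 2 * (Ph * A) ^ 2 := by positivity
          have e3 : (4 * w0 ^ 2 + 2 * η ^ 2) * (Ph * A) ^ 2 =
            4 * w0 ^ 2 * (Ph * A) ^ 2 + 2 * η ^ 2 * (Ph * A) ^ 2 := by ring
          linarith
    · have hD := h3 hc2
      have hξ : 0 < |ξ| := hΞ1.trans hc2
      calc (W * (Ph * D)) ^ 2 ≤ (n * (Pn * (1 / (τ * |ξ|)))) ^ 2 := by gcongr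
        _ = n ^ 2 * (Pn ^ 2 * (1 / τ ^ 2) * (1 / ξ ^ 2)) := by
          rw [← sq_abs ξ]; field_simp
        _ ≤ n ^ 2 * (Pn ^ 2 * (1 / τ ^ 2) * (2 * (Ξ1 ^ 2 + ξ ^ 2)⁻¹)) := by
          gcongr
          rw [← one_div, mul_one_div, div_le_div_iff₀ (by rw [← sq_abs]; positivity) hΞξ]
          have : Ξ1 ^ 2 ≤ ξ ^ 2 := by rw [← sq_abs ξ]; gcongr
          linarith
        _ = n ^ 2 * (Pn ^ 2 * (2 / τ ^ 2) * (Ξ1 ^ 2 + ξ ^ 2)⁻¹) := by ring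
        _ ≤ _ := by
          apply mul_le_mul_of_nonneg_left _ (sq_nonneg n)
          linarith

lemma lorentz (c : ℝ) (hc : 0 < c) : Integrable (fun ξ : ℝ => (c ^ 2 + ξ ^ 2)⁻¹) ∧
    ∫ ξ : ℝ, (c ^ 2 + ξ ^ 2)⁻¹ = Real.pi / c := by
  have h1 : ∀ ξ : ℝ, (c ^ 2 + ξ ^ 2)⁻¹ = (c ^ 2)⁻¹ * (1 + (ξ / c) ^ 2)⁻¹ := by
    intro ξ
    rw [← mul_inv]
    congr 1
    field_simp
  have h2 : Integrable (fun ξ : ℝ => (1 + (ξ / c) ^ 2)⁻¹) := by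
    have := integrable_inv_one_add_sq
    exact this.comp_div hc.ne'
  simp only [h1]
  refine ⟨h2.const_mul _, ?_⟩
  rw [integral_const_mul]
  have h3 := MeasureTheory.Measure.integral_comp_div (fun y : ℝ => (1 + y ^ 2)⁻¹) c
  rw [h3, integral_univ_inv_one_add_sq, smul_eq_mul, abs_of_pos hc]
  field_simp

/-- **Core inequality.** -/
theorem core {ι κ : Type*} (P : Finset ι) (x : ι → ℝ) (K : Finset κ) (a : κ → ℝ)
    {o τ ω Ξ0 Ξ1 η M : ℝ} (hτ : 0 < τ) (hτω : τ ≤ ω) (ho : |o| ≤ ω) (hΞ0 : 0 ≤ Ξ0)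
    (hωΞ : 2 * Real.pi * ω * Ξ0 ≤ 1 / 2) (hΞ1 : 0 < Ξ1) (hη : 0 ≤ η)
    (hM1 : ∫ u, (Fw P x τ u) ^ 2 ≤ M) (hM2 : ∫ u, (Fw P x ω u) ^ 2 ≤ M)
    (hW : ∀ ξ : ℝ, Ξ0 ≤ |ξ| → |ξ| ≤ Ξ1 → ‖∑ k ∈ K, e (a k * ξ)‖ ≤ η * K.card) :
    ∫ u, (AD P x K a o τ ω u) ^ 2 ≤ (K.card : ℝ) ^ 2 *
      ((4 * (6 * Real.pi * ω * Ξ0) ^ 2 + 4 * η ^ 2) * M + 2 * Real.pi * (P.card : ℝ) ^ 2 / (τ ^ 2 * Ξ1)) := by
  have hω : 0 < ω := hτ.trans_le hτω
  have hpi := Real.pi_pos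
  obtain ⟨hi, hp⟩ := planch _ (AD_int P x K a o τ ω) (AD_L2 P x K a o τ ω)
  obtain ⟨hiτ, hpτ⟩ := planch _ (Fw_int P x τ) (Fw_L2 P x τ)
  obtain ⟨hiω, hpω⟩ := planch _ (Fw_int P x ω) (Fw_L2 P x ω)
  obtain ⟨hil, hpl⟩ := lorentz Ξ1 hΞ1
  have e0 : ∀ r : ℝ, ‖(r : ℂ)‖ ^ 2 = r ^ 2 := by
    intro r
    rw [Complex.norm_real, Real.norm_eq_abs, sq_abs]
  simp only [e0] at hp hpτ hpω
  rw [← hp]
  rw [← hpτ] at hM1
  rw [← hpω] at hM2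
  set w0 : ℝ := 6 * Real.pi * ω * Ξ0 with hw0
  have hw00 : 0 ≤ w0 := by rw [hw0]; positivity
  have key : ∀ ξ : ℝ, ‖𝓕 (fun u => ((AD P x K a o τ ω u : ℝ) : ℂ)) ξ‖ ^ 2 ≤
      (K.card : ℝ) ^ 2 * ((4 * w0 ^ 2 + 2 * η ^ 2) * ‖𝓕 (fun u => ((Fw P x τ u : ℝ) : ℂ)) ξ‖ ^ 2 +
        2 * η ^ 2 * ‖𝓕 (fun u => ((Fw P x ω u : ℝ) : ℂ)) ξ‖ ^ 2 +
        (P.card : ℝ) ^ 2 * (2 / τ ^ 2) * (Ξ1 ^ 2 + ξ ^ 2)⁻¹) := by
    intro ξ
    rw [AD_fourier _ _ _ _ _ _ _ _ hτ.le hω.le, Fw_fourier _ _ _ _ hτ.le, Fw_fourier _ _ _ _ hω.le,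
      norm_mul, norm_mul, norm_mul, norm_mul]
    have hWn : ‖∑ k ∈ K, e (a k * ξ)‖ ≤ K.card := by
      refine (norm_sum_le _ _).trans ?_
      simp only [norm_e, Finset.sum_const, nsmul_eq_mul, mul_one]
      exact le_rfl
    have hPn : ‖∑ p ∈ P, e (-(x p * ξ))‖ ≤ P.card := by
      refine (norm_sum_le _ _).trans ?_
      simp only [norm_e, Finset.sum_const, nsmul_eq_mul, mul_one]
      exact le_rfl
    have hJτ : ‖J τ ξ / τ - 1‖ ≤ 2 * Real.pi * τ * |ξ| := by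
      have h1 : J τ ξ / τ - 1 = (J τ ξ - τ) / τ := by
        rw [sub_div, div_self]; exact_mod_cast hτ.ne'
      rw [h1, norm_div, Complex.norm_real, Real.norm_eq_abs, abs_of_pos hτ, div_le_iff₀ hτ]
      refine (J_sub τ ξ hτ.le).trans (le_of_eq (by ring))
    have hJω : ‖J ω ξ / ω - 1‖ ≤ 2 * Real.pi * ω * |ξ| := by
      have h1 : J ω ξ / ω - 1 = (J ω ξ - ω) / ω := by
        rw [sub_div, div_self]; exact_mod_cast hω.ne'
      rw [h1, norm_div, Complex.norm_real, Real.norm_eq_abs, abs_of_pos hω, div_le_iff₀ hω]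
      refine (J_sub ω ξ hω.le).trans (le_of_eq (by ring))
    refine pointwise (Ξ0 := Ξ0) (by positivity) (norm_nonneg _) hWn (by positivity) (norm_nonneg _) hPn
      (norm_nonneg _) (norm_nonneg _) (norm_nonneg _) hη hΞ1 hτ ?_ ?_ ?_ ?_ hw00
    · intro hξ
      have hξ0 := abs_nonneg ξ
      constructor
      · have h1 : e (o * ξ) * (J τ ξ / τ) - J ω ξ / ω =
            e (o * ξ) * (J τ ξ / τ - 1) + (e (o * ξ) - 1) - (J ω ξ / ω - 1) := by ring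
        rw [h1]
        refine (norm_sub_le _ _).trans ?_
        have h2 := norm_add_le (e (o * ξ) * (J τ ξ / τ - 1)) (e (o * ξ) - 1)
        rw [norm_mul, norm_e, one_mul] at h2
        have h3 := e_sub_one (o * ξ)
        rw [abs_mul] at h3
        have h4 : 2 * Real.pi * τ * |ξ| ≤ 2 * Real.pi * ω * Ξ0 := by gcongr
        have h5 : 2 * Real.pi * ω * |ξ| ≤ 2 * Real.pi * ω * Ξ0 := by gcongr
        have h6 : 2 * Real.pi * (|o| * |ξ|) ≤ 2 * Real.pi * (ω * Ξ0) := by gcongr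
        have h7 : w0 = 2 * Real.pi * ω * Ξ0 + 2 * Real.pi * (ω * Ξ0) + 2 * Real.pi * ω * Ξ0 := by
          rw [hw0]; ring
        linarith
      · have h1 : 2 * Real.pi * τ * |ξ| ≤ 1 / 2 := by
          calc 2 * Real.pi * τ * |ξ| ≤ 2 * Real.pi * ω * Ξ0 := by gcongr
            _ ≤ _ := hωΞ
        have h2 := norm_sub_norm_le (1 : ℂ) (J τ ξ / τ)
        rw [norm_one, norm_sub_rev] at h2
        linarith
    · intro h1 h2
      exact hW ξ h1 h2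
    · refine (norm_sub_le _ _).trans ?_
      rw [norm_mul, norm_e, one_mul]
    · intro hξ
      have hξ0 : ξ ≠ 0 := by
        intro h; rw [h, abs_zero] at hξ; linarith
      have hξ1 : 0 < |ξ| := abs_pos.mpr hξ0
      refine (norm_sub_le _ _).trans ?_
      rw [norm_mul, norm_e, one_mul, norm_div, norm_div, Complex.norm_real, Complex.norm_real,
        Real.norm_eq_abs, Real.norm_eq_abs, abs_of_pos hτ, abs_of_pos hω]
      have h1 := J_decay τ ξ hξ0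
      have h2 := J_decay ω ξ hξ0
      have h3 : ‖J τ ξ‖ / τ ≤ 1 / (Real.pi * |ξ|) / τ := by gcongr
      have h4 : ‖J ω ξ‖ / ω ≤ 1 / (Real.pi * |ξ|) / τ := by gcongr
      have h5 : 1 / (Real.pi * |ξ|) / τ + 1 / (Real.pi * |ξ|) / τ ≤ 1 / (τ * |ξ|) := by
        rw [div_div, ← add_div, div_le_div_iff₀ (by positivity) (by positivity)]
        have := Real.pi_gt_three
        have h6 : 0 < τ * |ξ| := by positivity
        nlinarith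
      linarith
  have hbound : Integrable (fun ξ : ℝ => (K.card : ℝ) ^ 2 *
      ((4 * w0 ^ 2 + 2 * η ^ 2) * ‖𝓕 (fun u => ((Fw P x τ u : ℝ) : ℂ)) ξ‖ ^ 2 +
        2 * η ^ 2 * ‖𝓕 (fun u => ((Fw P x ω u : ℝ) : ℂ)) ξ‖ ^ 2 +
        (P.card : ℝ) ^ 2 * (2 / τ ^ 2) * (Ξ1 ^ 2 + ξ ^ 2)⁻¹)) :=
    (((hiτ.const_mul _).add (hiω.const_mul _)).add (hil.const_mul _)).const_mul _
  refine (integral_mono hi hbound key).trans ?_
  rw [integral_const_mul]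
  gcongr
  have ea : ∫ ξ : ℝ, ((4 * w0 ^ 2 + 2 * η ^ 2) * ‖𝓕 (fun u => ((Fw P x τ u : ℝ) : ℂ)) ξ‖ ^ 2 +
        2 * η ^ 2 * ‖𝓕 (fun u => ((Fw P x ω u : ℝ) : ℂ)) ξ‖ ^ 2 +
        (P.card : ℝ) ^ 2 * (2 / τ ^ 2) * (Ξ1 ^ 2 + ξ ^ 2)⁻¹) =
      (4 * w0 ^ 2 + 2 * η ^ 2) * (∫ ξ : ℝ, ‖𝓕 (fun u => ((Fw P x τ u : ℝ) : ℂ)) ξ‖ ^ 2) +
        2 * η ^ 2 * (∫ ξ : ℝ, ‖𝓕 (fun u => ((Fw P x ω u : ℝ) : ℂ)) ξ‖ ^ 2) +
        (P.card : ℝ) ^ 2 * (2 / τ ^ 2) * (∫ ξ : ℝ, (Ξ1 ^ 2 + ξ ^ 2)⁻¹) := by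
    rw [integral_add (by exact (hiτ.const_mul _).add (hiω.const_mul _)) (hil.const_mul _),
      integral_add (hiτ.const_mul _) (hiω.const_mul _), integral_const_mul, integral_const_mul,
      integral_const_mul]
  rw [ea, hpl]
  have eb : (P.card : ℝ) ^ 2 * (2 / τ ^ 2) * (Real.pi / Ξ1) =
      2 * Real.pi * (P.card : ℝ) ^ 2 / (τ ^ 2 * Ξ1) := by field_simp
  rw [eb]
  have ec : (4 * w0 ^ 2 + 2 * η ^ 2) * ∫ ξ : ℝ, ‖𝓕 (fun u => ((Fw P x τ u : ℝ) : ℂ)) ξ‖ ^ 2 ≤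
      (4 * w0 ^ 2 + 2 * η ^ 2) * M := by gcongr
  have ed : 2 * η ^ 2 * ∫ ξ : ℝ, ‖𝓕 (fun u => ((Fw P x ω u : ℝ) : ℂ)) ξ‖ ^ 2 ≤
      2 * η ^ 2 * M := by gcongr
  linarith

end Pool.Agent.H438R2.DL
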