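import Pool.Agent.H438R2.DL.Piece

open Finset MeasureTheory

namespace Pool.Agent.H438R2.DL

/-- the averaged difference with logarithmic points -/
noncomputable def ADl (P K : Finset ℕ) (β σ s ω u : ℝ) : ℝ :=
  AD P (fun p : ℕ => Real.log p) K (fun k : ℕ => Real.log ((k : ℝ) + β)) (-(σ * s)) s ω u

lemma piece_est (P : Finset ℕ) (N : ℕ) {β σ H N1 N2 X ω y : ℝ} (hσ : σ = 0 ∨ σ = 1) (hω : 0 < ω) (hω1 : ω ≤ 1)
    (hy : 0 < y) (hX : 0 < X) (hβ0 : 0 ≤ β) (hN : 1 ≤ N) (hH : 0 < H) (hHX : H ≤ X / 2)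
    (hN1 : X ≤ N1) (hN12 : N1 ≤ N2) (hN2 : N2 ≤ 2 * X)
    (hP : ∀ p ∈ P, N1 < (p : ℝ) ∧ (p : ℝ) ≤ N2)
    (hP2 : ∀ p ∈ P, N + β ≤ Real.exp (-ω) * p / y ∧ p / y ≤ 64 * N + β) :
    |cnt P (Ico N (64 * N)) β σ H y - P.card * (H / y)| ≤
      (2 * H / X) * |ADl P (Ico N (64 * N)) β σ (H / (N1 - H)) ω (Real.log y)| +
      (2 * H / X) * |ADl P (Ico N (64 * N)) β σ (H / (N2 + H)) ω (Real.log y)| +
      P.card * ((H / y) * (4 * ω + 2 * y / (X * ω) + 2 * (N2 - N1 + H) / X)) := by
  have hN1H : 0 < N1 - H := by linarith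
  have hK : ∀ k ∈ Ico N (64 * N), 1 ≤ k := fun k hk => hN.trans (mem_Ico.mp hk).1
  have hlow := cnt_lower (P := P) (K := Ico N (64 * N)) (β := β) (σ := σ) (H := H) (N1 := N1) (N2 := N2) (y := y)
    hσ hy hβ0 hK hH (by linarith) hN12 hP
  have hup := cnt_upper (P := P) (K := Ico N (64 * N)) (β := β) (σ := σ) (H := H) (N1 := N1) (N2 := N2) (y := y)
    hσ hy hβ0 hK hH (by linarith) hP
  have hmain := main_term P N (β := β) (ω := ω) (y := y) (X := X) hω hω1 hy hX hβ0 hN (fun p hp => by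
    obtain ⟨h1, h2⟩ := hP p hp
    obtain ⟨h3, h4⟩ := hP2 p hp
    exact ⟨by linarith, by linarith, h3, h4⟩)
  set K := Ico N (64 * N) with hKdef
  set M := ∑ k ∈ K, Fw P (fun p : ℕ => Real.log p) ω (Real.log y + Real.log ((k : ℝ) + β)) with hM
  have hsplit : ∀ s : ℝ, s * ∑ k ∈ K, Fw P (fun p : ℕ => Real.log p) s
      (Real.log y + -(σ * s) + Real.log ((k : ℝ) + β)) = s * ADl P K β σ s ω (Real.log y) + s * M := by
    intro s
    unfold ADl AD
    rw [sum_sub_distrib, ← hM]
    ring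
  -- a general estimate for `s`
  have hgen : ∀ s : ℝ, 0 < s → s ≤ 2 * H / X → (∀ p ∈ P, |s * (p : ℝ) - H| ≤ 2 * H * (N2 - N1 + H) / X) →
      |s * M - P.card * (H / y)| ≤ P.card * ((H / y) * (4 * ω + 2 * y / (X * ω) + 2 * (N2 - N1 + H) / X)) := by
    intro s hs0 hs hsp
    have h1 : s * M - P.card * (H / y) = s * (M - ∑ p ∈ P, (p : ℝ) / y) +
        ∑ p ∈ P, (s * (p : ℝ) - H) / y := by
      have : ∑ p ∈ P, (s * (p : ℝ) - H) / y = s * ∑ p ∈ P, ((p : ℝ) / y) - P.card * (H / y) := by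
        rw [← nsmul_eq_mul, ← sum_const, mul_sum, ← sum_sub_distrib]
        refine sum_congr rfl fun p _ => by ring
      rw [this]; ring
    rw [h1]
    refine (abs_add_le _ _).trans ?_
    have h2 : |s * (M - ∑ p ∈ P, (p : ℝ) / y)| ≤ (2 * H / X) * (P.card * (2 * X * ω / y + 1 / ω)) := by
      rw [abs_mul, abs_of_pos hs0]
      gcongr
    have h3 : |∑ p ∈ P, (s * (p : ℝ) - H) / y| ≤ P.card * (2 * H * (N2 - N1 + H) / X / y) := by
      refine (abs_sum_le_sum_abs _ _).trans ?_
      rw [← nsmul_eq_mul, ← sum_const]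
      refine sum_le_sum fun p hp => ?_
      rw [abs_div, abs_of_pos hy]
      exact div_le_div_of_nonneg_right (hsp p hp) hy.le
    have h4 : (2 * H / X) * (P.card * (2 * X * ω / y + 1 / ω)) + P.card * (2 * H * (N2 - N1 + H) / X / y) =
        P.card * ((H / y) * (4 * ω + 2 * y / (X * ω) + 2 * (N2 - N1 + H) / X)) := by
      field_simp
      ring
    linarith
  have hsm : H / (N2 + H) ≤ 2 * H / X := by
    rw [div_le_div_iff₀ (by linarith) hX]
    nlinarith
  have hsp : H / (N1 - H) ≤ 2 * H / X := by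
    rw [div_le_div_iff₀ hN1H hX]
    nlinarith
  have hD : 0 ≤ N2 - N1 + H := by linarith
  have g1 := hgen (H / (N2 + H)) (div_pos hH (by linarith)) hsm (by
    intro p hp
    obtain ⟨h1, h2⟩ := hP p hp
    have e1 : H / (N2 + H) * (p : ℝ) - H = -(H * (N2 - p + H) / (N2 + H)) := by
      have : N2 + H ≠ 0 := by linarith
      field_simp; ring
    rw [e1, abs_neg, abs_of_nonneg (div_nonneg (mul_nonneg hH.le (by linarith)) (by linarith))]
    rw [div_le_div_iff₀ (by linarith) hX]
    have h3 : N2 - p + H ≤ N2 - N1 + H := by linarith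
    have h4 : 0 ≤ N2 - p + H := by linarith
    calc H * (N2 - p + H) * X ≤ H * (N2 - N1 + H) * (N2 + H) := by
          apply mul_le_mul _ (by linarith) hX.le (by positivity)
          gcongr
      _ ≤ 2 * H * (N2 - N1 + H) * (N2 + H) := by
          have : 0 ≤ H * (N2 - N1 + H) * (N2 + H) := by
            apply mul_nonneg (by positivity) (by linarith)
          linarith)
  have g2 := hgen (H / (N1 - H)) (by positivity) hsp (by
    intro p hp
    obtain ⟨h1, h2⟩ := hP p hp
    have e1 : H / (N1 - H) * (p : ℝ) - H = H * (p - N1 + H) / (N1 - H) := by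
      field_simp; ring
    rw [e1, abs_of_nonneg (div_nonneg (mul_nonneg hH.le (by linarith)) hN1H.le)]
    rw [div_le_div_iff₀ hN1H hX]
    have h3 : p - N1 + H ≤ N2 - N1 + H := by linarith
    have h4 : 0 ≤ (p : ℝ) - N1 + H := by linarith
    calc H * (p - N1 + H) * X ≤ H * (N2 - N1 + H) * (2 * (N1 - H)) := by
          apply mul_le_mul _ (by linarith) hX.le (by positivity)
          gcongr
      _ = 2 * H * (N2 - N1 + H) * (N1 - H) := by ring)
  rw [hsplit] at hlow hup
  set A1 := ADl P K β σ (H / (N1 - H)) ω (Real.log y) with hA1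
  set A2 := ADl P K β σ (H / (N2 + H)) ω (Real.log y) with hA2
  have b1 : |H / (N1 - H) * A1| ≤ 2 * H / X * |A1| := by
    rw [abs_mul, abs_of_pos (by positivity)]
    gcongr
  have b2 : |H / (N2 + H) * A2| ≤ 2 * H / X * |A2| := by
    rw [abs_mul, abs_of_pos (div_pos hH (by linarith))]
    gcongr
  have b3 : 0 ≤ 2 * H / X * |A1| := by positivity
  have b4 : 0 ≤ 2 * H / X * |A2| := by positivity
  rw [abs_le] at g1 g2 b1 b2 ⊢
  constructor <;> linarith [g1.1, g1.2, g2.1, g2.2, b1.1, b1.2, b2.1, b2.2]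

lemma Fw_measurable {ι : Type*} (P : Finset ι) (x : ι → ℝ) (s : ℝ) : Measurable (Fw P x s) := by
  have : Fw P x s = fun u => ∑ p ∈ P, (1 / s) * Set.indicator (Set.Ico (x p - s) (x p)) (fun _ => (1 : ℝ)) u := by
    funext u; exact Fw_real P x s u
  rw [this]
  refine Finset.measurable_sum _ fun p _ => ?_
  exact (measurable_const.indicator measurableSet_Ico).const_mul _

lemma AD_measurable {ι κ : Type*} (P : Finset ι) (x : ι → ℝ) (K : Finset κ) (a : κ → ℝ) (o τ ω : ℝ) :
    Measurable (AD P x K a o τ ω) := by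
  unfold AD
  refine Finset.measurable_sum _ fun k _ => ?_
  refine Measurable.sub ?_ ?_
  · exact (Fw_measurable P x τ).comp (by fun_prop)
  · exact (Fw_measurable P x ω).comp (by fun_prop)

lemma Fw_le {ι : Type*} (P : Finset ι) (x : ι → ℝ) {s : ℝ} (hs : 0 < s) (u : ℝ) : Fw P x s u ≤ (1 / s) * P.card := by
  unfold Fw
  gcongr
  exact filter_subset _ _

lemma AD_bounded {ι κ : Type*} (P : Finset ι) (x : ι → ℝ) (K : Finset κ) (a : κ → ℝ) {o τ ω : ℝ}
    (hτ : 0 < τ) (hω : 0 < ω) (u : ℝ) : |AD P x K a o τ ω u| ≤ K.card * ((1 / τ) * P.card + (1 / ω) * P.card) := by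
  unfold AD
  refine (abs_sum_le_sum_abs _ _).trans ?_
  rw [← nsmul_eq_mul, ← sum_const]
  refine sum_le_sum fun k _ => ?_
  have h1 := Fw_le P x hτ (u + o + a k)
  have h2 := Fw_le P x hω (u + a k)
  have h3 := Fw_nonneg P x hτ.le (u + o + a k)
  have h4 := Fw_nonneg P x hω.le (u + a k)
  rw [abs_le]
  constructor <;> linarith

/-- passing from `u = log y` to `y` -/
lemma change {g : ℝ → ℝ} (hg : Measurable g) {B : ℝ} (hB : ∀ u, |g u| ≤ B) (hgi : Integrable (fun u => g u ^ 2))
    {Y E : ℝ} (hY : 0 < Y) (hE : 0 < E) (hgE : ∫ u, g u ^ 2 ≤ E) :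
    IntegrableOn (fun y => |g (Real.log y)|) (Set.Icc Y (2 * Y)) ∧
    ∫ y in Set.Icc Y (2 * Y), |g (Real.log y)| ≤ 2 * Y * √E := by
  have hB0 : 0 ≤ B := (abs_nonneg _).trans (hB 0)
  have hfin : volume (Set.Icc Y (2 * Y)) < ⊤ := by simp
  have hi1 : IntegrableOn (fun y => |g (Real.log y)|) (Set.Icc Y (2 * Y)) := by
    refine Measure.integrableOn_of_bounded (M := B) hfin.ne ?_ ?_
    · exact (measurable_abs.comp (hg.comp Real.measurable_log)).aestronglyMeasurable
    · exact Filter.Eventually.of_forall fun y => by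
        rw [Real.norm_eq_abs, abs_abs]; exact hB _
  have hi2 : IntegrableOn (fun y => g (Real.log y) ^ 2) (Set.Icc Y (2 * Y)) := by
    refine Measure.integrableOn_of_bounded (M := B ^ 2) hfin.ne ?_ ?_
    · exact ((hg.comp Real.measurable_log).pow_const 2).aestronglyMeasurable
    · exact Filter.Eventually.of_forall fun y => by
        rw [Real.norm_eq_abs, abs_pow]
        gcongr
        exact hB _
  refine ⟨hi1, ?_⟩
  have himg : Real.exp '' (Set.Icc (Real.log Y) (Real.log (2 * Y))) = Set.Icc Y (2 * Y) := by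
    ext y
    simp only [Set.mem_image, Set.mem_Icc]
    constructor
    · rintro ⟨u, ⟨h1, h2⟩, rfl⟩
      constructor
      · rwa [← Real.log_le_iff_le_exp hY]
      · rwa [← Real.le_log_iff_exp_le (by positivity)]
    · rintro ⟨h1, h2⟩
      have hy : 0 < y := by linarith
      refine ⟨Real.log y, ⟨Real.log_le_log hY h1, Real.log_le_log hy h2⟩, Real.exp_log hy⟩
  have hsq : ∫ y in Set.Icc Y (2 * Y), g (Real.log y) ^ 2 ≤ 2 * Y * E := by
    rw [← himg]
    rw [integral_image_eq_integral_abs_deriv_smul (f' := Real.exp) measurableSet_Icc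
      (fun u _ => (Real.hasDerivAt_exp u).hasDerivWithinAt) (Real.exp_injective.injOn)]
    have h1 : ∫ u in Set.Icc (Real.log Y) (Real.log (2 * Y)), |Real.exp u| • g (Real.log (Real.exp u)) ^ 2 ≤
        ∫ u in Set.Icc (Real.log Y) (Real.log (2 * Y)), (2 * Y) * g u ^ 2 := by
      refine setIntegral_mono_on ?_ ?_ measurableSet_Icc ?_
      · have : IntegrableOn (fun u => |Real.exp u| • g (Real.log (Real.exp u)) ^ 2)
            (Set.Icc (Real.log Y) (Real.log (2 * Y))) := by
          refine Measure.integrableOn_of_bounded (M := 2 * Y * B ^ 2) (by simp) ?_ ?_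
          · apply Measurable.aestronglyMeasurable
            simp only [Real.log_exp, smul_eq_mul]
            exact (measurable_abs.comp Real.measurable_exp).mul (hg.pow_const 2)
          · rw [ae_restrict_iff' measurableSet_Icc]
            refine Filter.Eventually.of_forall fun u hu => ?_
            rw [Real.log_exp, norm_smul, Real.norm_eq_abs, Real.norm_eq_abs, abs_abs, abs_of_pos (Real.exp_pos u),
              abs_pow]
            have h2 : Real.exp u ≤ 2 * Y := by
              rw [← Real.le_log_iff_exp_le (by positivity)]; exact hu.2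
            gcongr
            exact hB u
        exact this
      · exact (hgi.const_mul _).integrableOn
      · intro u hu
        rw [Real.log_exp, smul_eq_mul, abs_of_pos (Real.exp_pos u)]
        have h2 : Real.exp u ≤ 2 * Y := by
          rw [← Real.le_log_iff_exp_le (by positivity)]; exact hu.2
        gcongr
    refine h1.trans ?_
    rw [integral_const_mul]
    gcongr
    refine (setIntegral_le_integral hgi (Filter.Eventually.of_forall fun u => sq_nonneg _)).trans hgE
  -- AM-GM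
  have hsE : 0 < √E := Real.sqrt_pos.mpr hE
  have hpt : ∀ y, |g (Real.log y)| ≤ (1 / (2 * √E)) * g (Real.log y) ^ 2 + √E / 2 := by
    intro y
    have h1 : 0 ≤ (|g (Real.log y)| - √E) ^ 2 := sq_nonneg _
    have h2 : |g (Real.log y)| ^ 2 = g (Real.log y) ^ 2 := sq_abs _
    have e1 : (1 / (2 * √E)) * g (Real.log y) ^ 2 + √E / 2 = (g (Real.log y) ^ 2 + √E ^ 2) / (2 * √E) := by
      field_simp
    rw [e1, le_div_iff₀ (by positivity)]
    nlinarith
  have h3 : ∫ y in Set.Icc Y (2 * Y), |g (Real.log y)| ≤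
      ∫ y in Set.Icc Y (2 * Y), ((1 / (2 * √E)) * g (Real.log y) ^ 2 + √E / 2) := by
    refine integral_mono_ae hi1 ((hi2.const_mul _).add (integrableOn_const (by simp) (by simp))) ?_
    exact Filter.Eventually.of_forall hpt
  refine h3.trans ?_
  rw [integral_add (hi2.const_mul _) (integrableOn_const (by simp) (by simp)), integral_const_mul]
  have h4 : ∫ y in Set.Icc Y (2 * Y), √E / 2 = Y * (√E / 2) := by
    rw [setIntegral_const, smul_eq_mul]
    congr 1
    unfold Measure.real
    rw [Real.volume_Icc, ENNReal.toReal_ofReal (by linarith)]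
    ring
  rw [h4]
  have h5 : 1 / (2 * √E) * ∫ y in Set.Icc Y (2 * Y), g (Real.log y) ^ 2 ≤ 1 / (2 * √E) * (2 * Y * E) := by gcongr
  have h6 : 1 / (2 * √E) * (2 * Y * E) = Y * √E := by
    have : E = √E * √E := (Real.mul_self_sqrt hE.le).symm
    rw [one_div_mul_eq_div, div_eq_iff (by positivity)]
    nlinarith
  nlinarith

end Pool.Agent.H438R2.DL
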