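import Pool.Agent.Helper76.HPlanch
import Pool.Agent.H469R2.NK.KL

open MeasureTheory FourierTransform

namespace Pool.Agent.H438R2.DL

open Pool.Agent.H469R2.NK (e norm_e e_add e_zero)

lemma planch (F : ℝ → ℂ) (h1 : Integrable F) (h2 : MemLp F 2) :
    Integrable (fun ξ => ‖𝓕 F ξ‖ ^ 2) ∧ ∫ ξ, ‖𝓕 F ξ‖ ^ 2 = ∫ u, ‖F u‖ ^ 2 := by
  have hcont : Continuous (𝓕 F) := VectorFourier.fourierIntegral_continuous Real.continuous_fourierChar
      (innerSL ℝ).continuous₂ h1
  have hF2 : Integrable (fun u => ‖F u‖ ^ 2) := by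
    have := h2.integrable_norm_pow (by norm_num)
    simpa using this
  have hpl := Pool.Agent.Helper76.NormalHP.plancherel_lintegral F h1 h2
  have e1 : ∀ z : ℂ, ‖z‖ₑ ^ 2 = ENNReal.ofReal (‖z‖ ^ 2) := by
    intro z
    rw [ENNReal.ofReal_pow (norm_nonneg _), ofReal_norm_eq_enorm]
  simp only [e1] at hpl
  have hfin : ∫⁻ u, ENNReal.ofReal (‖F u‖ ^ 2) < ⊤ := by
    have := hF2.lintegral_lt_top
    exact this
  have hint : Integrable (fun ξ => ‖𝓕 F ξ‖ ^ 2) := by
    refine ⟨(hcont.norm.pow 2).aestronglyMeasurable, ?_⟩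
    rw [hasFiniteIntegral_iff_ofReal (Filter.Eventually.of_forall fun _ => by positivity), hpl]
    exact hfin
  refine ⟨hint, ?_⟩
  rw [integral_eq_lintegral_of_nonneg_ae (Filter.Eventually.of_forall fun _ => by positivity) hint.1,
    integral_eq_lintegral_of_nonneg_ae (Filter.Eventually.of_forall fun _ => by positivity) hF2.1, hpl]

/-- indicator of `[a, b)` -/
noncomputable def bx (a b : ℝ) : ℝ → ℂ := Set.indicator (Set.Ico a b) (fun _ => (1 : ℂ))

lemma bx_int (a b : ℝ) : Integrable (bx a b) := by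
  unfold bx
  rw [integrable_indicator_iff measurableSet_Ico]
  exact integrableOn_const (by simp) (by simp)

lemma bx_L2 (a b : ℝ) : MemLp (bx a b) 2 := by
  unfold bx
  exact memLp_indicator_const 2 measurableSet_Ico 1 (Or.inr (by simp))

/-- `∫_0^s e(v ξ) dv` -/
noncomputable def J (s ξ : ℝ) : ℂ := ∫ v in (0 : ℝ)..s, e (v * ξ)

lemma e_cont : Continuous e := by
  unfold e
  fun_prop

lemma fourier_bx (c s ξ : ℝ) (hs : 0 ≤ s) : 𝓕 (bx (c - s) c) ξ = e (-(c * ξ)) * J s ξ := by
  rw [Real.fourier_real_eq_integral_exp_smul]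
  have h1 : (fun v : ℝ => Complex.exp (((-2 * Real.pi * v * ξ : ℝ) : ℂ) * Complex.I) • bx (c - s) c v) =
      Set.indicator (Set.Ico (c - s) c) (fun v => e (-(v * ξ))) := by
    funext v
    unfold bx
    by_cases hv : v ∈ Set.Ico (c - s) c
    · rw [Set.indicator_of_mem hv, Set.indicator_of_mem hv]
      unfold e
      simp only [smul_eq_mul, mul_one]
      congr 2
      push_cast
      ring
    · rw [Set.indicator_of_notMem hv, Set.indicator_of_notMem hv, smul_zero]
  rw [h1, integral_indicator measurableSet_Ico, integral_Ico_eq_integral_Ioc,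
    ← intervalIntegral.integral_of_le (by linarith)]
  unfold J
  rw [← intervalIntegral.integral_const_mul]
  have h2 : ∀ v : ℝ, e (-(c * ξ)) * e (v * ξ) = (fun w => e (-(w * ξ))) (c - v) := by
    intro v
    simp only
    rw [← e_add]
    congr 1; ring
  simp only [h2]
  rw [intervalIntegral.integral_comp_sub_left (fun w => e (-(w * ξ))) c]
  simp

lemma e_sub_one (x : ℝ) : ‖e x - 1‖ ≤ 2 * Real.pi * |x| := by
  unfold e
  have h := Real.norm_exp_I_mul_ofReal_sub_one_le (x := 2 * Real.pi * x)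
  rw [mul_comm Complex.I] at h
  refine h.trans (le_of_eq ?_)
  rw [Real.norm_eq_abs, abs_mul, abs_of_pos (by positivity : (0 : ℝ) < 2 * Real.pi)]

lemma J_le (s ξ : ℝ) (hs : 0 ≤ s) : ‖J s ξ‖ ≤ s := by
  unfold J
  have := intervalIntegral.norm_integral_le_of_norm_le_const (a := 0) (b := s) (f := fun v => e (v * ξ)) (C := 1)
    (fun v _ => (norm_e _).le)
  rw [one_mul, sub_zero, abs_of_nonneg hs] at this
  exact this

lemma J_sub (s ξ : ℝ) (hs : 0 ≤ s) : ‖J s ξ - s‖ ≤ 2 * Real.pi * s ^ 2 * |ξ| := by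
  have h1 : J s ξ - s = ∫ v in (0 : ℝ)..s, (e (v * ξ) - 1) := by
    rw [intervalIntegral.integral_sub]
    · simp [J]
    · exact (e_cont.comp (by fun_prop)).intervalIntegrable _ _
    · exact intervalIntegrable_const
  rw [h1]
  have := intervalIntegral.norm_integral_le_of_norm_le_const (a := 0) (b := s)
    (f := fun v => e (v * ξ) - 1) (C := 2 * Real.pi * s * |ξ|)
    (fun v hv => by
      rw [Set.uIoc_of_le hs] at hv
      refine (e_sub_one _).trans ?_
      rw [abs_mul, abs_of_pos hv.1]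
      have : v ≤ s := hv.2
      calc 2 * Real.pi * (v * |ξ|) ≤ 2 * Real.pi * (s * |ξ|) := by gcongr
        _ = _ := by ring)
  rw [sub_zero, abs_of_nonneg hs] at this
  refine this.trans (le_of_eq (by ring))

lemma J_decay (s ξ : ℝ) (hξ : ξ ≠ 0) : ‖J s ξ‖ ≤ 1 / (Real.pi * |ξ|) := by
  have hc : (2 * Real.pi * ξ * Complex.I : ℂ) ≠ 0 := by
    simp [hξ, Real.pi_ne_zero, Complex.I_ne_zero]
  have h1 : J s ξ = (e (s * ξ) - 1) / (2 * Real.pi * ξ * Complex.I) := by
    unfold J e
    have h2 : ∀ v : ℝ, Complex.exp (((2 * Real.pi * (v * ξ) : ℝ) : ℂ) * Complex.I) =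
        Complex.exp ((2 * Real.pi * ξ * Complex.I) * (v : ℂ)) := by
      intro v
      congr 1
      push_cast
      ring
    simp only [h2]
    rw [integral_exp_mul_complex hc]
    simp
  rw [h1, norm_div]
  have h3 : ‖(2 * Real.pi * ξ * Complex.I : ℂ)‖ = 2 * (Real.pi * |ξ|) := by
    simp [Real.pi_pos.le, abs_of_pos Real.pi_pos]
    ring
  rw [h3]
  have h4 : ‖e (s * ξ) - 1‖ ≤ 2 := by
    refine (norm_sub_le _ _).trans ?_
    rw [norm_e, norm_one]; norm_num
  have hpos : 0 < Real.pi * |ξ| := by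
    have := Real.pi_pos
    have := abs_pos.mpr hξ
    positivity
  rw [div_le_div_iff₀ (by positivity) hpos]
  nlinarith

end Pool.Agent.H438R2.DL
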