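import Pool.Agent.H438R2.DL.Weyl

open Finset

namespace Pool.Agent.H438R2.DL

open Pool.Agent.H469R2.NK (e norm_e e_add e_zero conj_e)

/-- sums over `[N, 64 N)` -/
theorem W_bound (Q : ℕ) (hQ : 1 ≤ Q) : ∃ η : ℝ, 0 < η ∧ η ≤ 1 ∧ ∃ C : ℝ, 0 < C ∧
    ∀ (N : ℕ) (β ξ : ℝ), 1 ≤ N → 0 ≤ β → β ≤ 1 → 1 ≤ |ξ| → |ξ| ≤ (N : ℝ) ^ Q →
      ‖∑ k ∈ Ico N (64 * N), e (Real.log ((k : ℝ) + β) * ξ)‖ ≤ C * N * (1 / |ξ| + (N : ℝ) ^ (-η)) := by
  obtain ⟨η, hη0, hη1, C, hC, hb⟩ := log_sum_bound Q hQ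
  refine ⟨η, hη0, hη1, 6 * 32 * C, by positivity, ?_⟩
  intro N β ξ hN hβ0 hβ1 hξ1 hξ2
  have hN' : (1 : ℝ) ≤ N := by exact_mod_cast hN
  have hN0 : (0 : ℝ) < N := by linarith
  -- reduce to positive `Z = |ξ|`
  have hpos : ∀ S : Finset ℕ, ‖∑ k ∈ S, e (Real.log ((k : ℝ) + β) * ξ)‖ =
      ‖∑ k ∈ S, e (|ξ| * Real.log ((k : ℝ) + β))‖ := by
    intro S
    rcases le_or_gt 0 ξ with h | h
    · rw [abs_of_nonneg h]
      simp only [mul_comm]
    · rw [abs_of_neg h]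
      have : ∑ k ∈ S, e (-ξ * Real.log ((k : ℝ) + β)) =
          (starRingEnd ℂ) (∑ k ∈ S, e (Real.log ((k : ℝ) + β) * ξ)) := by
        rw [map_sum]
        refine sum_congr rfl fun k _ => ?_
        rw [conj_e]
        congr 1; ring
      rw [this, Complex.norm_conj]
  set Z := |ξ| with hZ
  have hZ0 : 0 < Z := by linarith
  have hpiece : ∀ i < 6, ‖∑ k ∈ (Ico (2 ^ i * N) (2 ^ (i + 1) * N) : Finset ℕ), e (Z * Real.log ((k : ℝ) + β))‖ ≤
      32 * C * N * (1 / Z + (N : ℝ) ^ (-η)) := by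
    intro i hi
    have h1 : 1 ≤ 2 ^ i * N := Nat.one_le_iff_ne_zero.mpr (by positivity)
    have h2 : (N : ℝ) ≤ ((2 ^ i * N : ℕ) : ℝ) := by
      push_cast
      have : (1 : ℝ) ≤ 2 ^ i := one_le_pow₀ (by norm_num)
      nlinarith
    have h32 : (2 : ℝ) ^ i ≤ 32 := by
      calc (2 : ℝ) ^ i ≤ 2 ^ 5 := pow_le_pow_right₀ (by norm_num) (by omega)
        _ = 32 := by norm_num
    have h := hb (2 ^ i * N) (2 ^ i * N) (2 ^ i * N) β Z h1 le_rfl le_rfl (by omega) hβ0 hβ1 hξ1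
      (hξ2.trans (by gcongr))
    rw [sum_Ico_eq_sum_range, show 2 ^ (i + 1) * N - 2 ^ i * N = 2 ^ i * N by
      rw [pow_succ, mul_assoc, mul_comm 2 N, ← mul_assoc]; omega]
    refine h.trans ?_
    have h3 : ((2 ^ i * N : ℕ) : ℝ) / Z ≤ 32 * N * (1 / Z) := by
      push_cast
      rw [mul_one_div]
      gcongr
    have h4 : ((2 ^ i * N : ℕ) : ℝ) ^ (1 - η) ≤ 32 * N * (N : ℝ) ^ (-η) := by
      calc ((2 ^ i * N : ℕ) : ℝ) ^ (1 - η) ≤ (32 * (N : ℝ)) ^ (1 - η) := by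
            apply Real.rpow_le_rpow (by positivity) _ (by linarith)
            push_cast
            gcongr
        _ = 32 ^ (1 - η) * (N : ℝ) ^ (1 - η) := Real.mul_rpow (by norm_num) hN0.le
        _ ≤ 32 * (N : ℝ) ^ (1 - η) := by
            gcongr
            calc (32 : ℝ) ^ (1 - η) ≤ 32 ^ (1 : ℝ) := Real.rpow_le_rpow_of_exponent_le (by norm_num) (by linarith)
              _ = 32 := by norm_num
        _ = _ := by
            rw [mul_assoc, sub_eq_add_neg, Real.rpow_add hN0, Real.rpow_one]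
    calc C * (((2 ^ i * N : ℕ) : ℝ) / Z + ((2 ^ i * N : ℕ) : ℝ) ^ (1 - η)) ≤
        C * (32 * N * (1 / Z) + 32 * N * (N : ℝ) ^ (-η)) := by gcongr
      _ = _ := by ring
  rw [hpos]
  have hsplit : ∀ (m : ℕ), ∑ k ∈ (Ico N (2 ^ m * N) : Finset ℕ), e (Z * Real.log ((k : ℝ) + β)) =
      ∑ i ∈ range m, ∑ k ∈ (Ico (2 ^ i * N) (2 ^ (i + 1) * N) : Finset ℕ), e (Z * Real.log ((k : ℝ) + β)) := by
    intro m
    induction m with
    | zero => simp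
    | succ m ih =>
      rw [sum_range_succ, ← ih]
      rw [sum_Ico_consecutive]
      · calc N = 1 * N := (one_mul N).symm
          _ ≤ 2 ^ m * N := Nat.mul_le_mul_right _ Nat.one_le_two_pow
      · exact Nat.mul_le_mul_right _ (Nat.pow_le_pow_right (by norm_num) (by omega))
  have h64 : 64 * N = 2 ^ 6 * N := by norm_num
  rw [h64, hsplit 6]
  refine (norm_sum_le _ _).trans ?_
  calc ∑ i ∈ range 6, ‖∑ k ∈ (Ico (2 ^ i * N) (2 ^ (i + 1) * N) : Finset ℕ), e (Z * Real.log ((k : ℝ) + β))‖ ≤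
      ∑ i ∈ range 6, 32 * C * N * (1 / Z + (N : ℝ) ^ (-η)) :=
        sum_le_sum fun i hi => hpiece i (mem_range.mp hi)
    _ = _ := by
      rw [sum_const, card_range, nsmul_eq_mul]; push_cast; ring

end Pool.Agent.H438R2.DL
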