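import Pool.Agent.H438R2.DL.Est
import Pool.Agent.H438R2.DL.WSum

open Finset MeasureTheory Filter

namespace Pool.Agent.H438R2.DL

open Pool.Agent.H469R2.NK (e norm_e)

/-- the primes in `(X, 2 X]` -/
def PP (X : ℕ) : Finset ℕ := (Ioc X (2 * X)).filter Nat.Prime

lemma PP_card_le (X : ℕ) : ((PP X).card : ℝ) ≤ X := by
  have : (PP X).card ≤ X := by
    unfold PP
    refine (card_filter_le _ _).trans ?_
    rw [Nat.card_Ioc]; omega
  exact_mod_cast this

lemma log_pow_le (B : ℕ) (κ c : ℝ) (hκ : 0 < κ) : ∀ᶠ X : ℕ in atTop, c * Real.log X ^ B ≤ (X : ℝ) ^ κ := by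
  have h := isLittleO_log_rpow_rpow_atTop (B : ℝ) hκ
  have h1 := (h.bound (c := 1 / (|c| + 1)) (by positivity))
  have h2 := (tendsto_natCast_atTop_atTop (R := ℝ)).eventually h1
  filter_upwards [h2, eventually_ge_atTop 1] with X hX hX1
  have hX1' : (1 : ℝ) ≤ X := by exact_mod_cast hX1
  have hlog : 0 ≤ Real.log X := Real.log_nonneg hX1'
  rw [Real.rpow_natCast, Real.norm_of_nonneg (by positivity), Real.norm_of_nonneg (by positivity)] at hX
  have h3 : c * Real.log X ^ B ≤ (|c| + 1) * Real.log X ^ B := by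
    gcongr
    linarith [le_abs_self c]
  refine h3.trans ?_
  rw [one_div_mul_eq_div, le_div_iff₀ (by positivity)] at hX
  linarith

lemma cnt_measurable (P K : Finset ℕ) (β σ H : ℝ) : Measurable (cnt P K β σ H) := by
  unfold cnt
  refine Finset.measurable_sum _ fun k _ => ?_
  simp only [card_filter]
  push_cast
  refine Finset.measurable_sum _ fun p _ => ?_
  refine Measurable.ite ?_ measurable_const measurable_const
  have h1 : MeasurableSet {y : ℝ | ((k : ℝ) + β) * y - σ * H < p} :=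
    measurableSet_lt (by fun_prop) measurable_const
  have h2 : MeasurableSet {y : ℝ | (p : ℝ) ≤ ((k : ℝ) + β) * y + (1 - σ) * H} :=
    measurableSet_le measurable_const (by fun_prop)
  exact h1.inter h2

lemma cnt_nonneg (P K : Finset ℕ) (β σ H y : ℝ) : 0 ≤ cnt P K β σ H y := by
  unfold cnt; positivity

lemma cnt_le (P K : Finset ℕ) (β σ H y : ℝ) : cnt P K β σ H y ≤ K.card * P.card := by
  unfold cnt
  rw [← nsmul_eq_mul, ← sum_const]
  refine sum_le_sum fun k _ => ?_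
  exact_mod_cast card_filter_le _ _

/-- index of the piece containing `p` -/
noncomputable def jf (X J : ℕ) (p : ℕ) : ℕ := ⌈((p : ℝ) - X) * J / X⌉₊ - 1

noncomputable def Pj (X J j : ℕ) : Finset ℕ := (PP X).filter (fun p => jf X J p = j)

lemma jf_spec {X J p : ℕ} (hX : 0 < X) (hJ : 0 < J) (hp : p ∈ PP X) :
    jf X J p < J ∧ (X : ℝ) + (jf X J p) * (X / J) < p ∧ (p : ℝ) ≤ X + ((jf X J p : ℝ) + 1) * (X / J) := by
  have hX' : (0 : ℝ) < X := by exact_mod_cast hX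
  have hJ' : (0 : ℝ) < J := by exact_mod_cast hJ
  rw [PP, mem_filter, mem_Ioc] at hp
  obtain ⟨⟨hp1, hp2⟩, _⟩ := hp
  have hp1' : (X : ℝ) < p := by exact_mod_cast hp1
  have hp2' : (p : ℝ) ≤ 2 * X := by exact_mod_cast hp2
  set t : ℝ := ((p : ℝ) - X) * J / X with ht
  have ht0 : 0 < t := by
    rw [ht]; apply div_pos (mul_pos (by linarith) hJ') hX'
  have htJ : t ≤ J := by
    rw [ht, div_le_iff₀ hX']; nlinarith
  have hc1 : 0 < ⌈t⌉₊ := Nat.ceil_pos.mpr ht0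
  have hc2 : ⌈t⌉₊ ≤ J := Nat.ceil_le.mpr htJ
  have hj : jf X J p = ⌈t⌉₊ - 1 := rfl
  have hcast : ((⌈t⌉₊ - 1 : ℕ) : ℝ) = (⌈t⌉₊ : ℝ) - 1 := by
    rw [Nat.cast_sub hc1]; simp
  have h1 := Nat.ceil_lt_add_one ht0.le
  have h2 := Nat.le_ceil t
  have ep : (p : ℝ) = X + t * (X / J) := by
    rw [ht]; field_simp; ring
  refine ⟨by omega, ?_, ?_⟩
  · rw [hj, hcast, ep]
    have : ((⌈t⌉₊ : ℝ) - 1) * (X / J) < t * (X / J) := by
      gcongr; linarith
    linarith
  · rw [hj, hcast, ep]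
    have : t * (X / J) ≤ (((⌈t⌉₊ : ℝ) - 1) + 1) * (X / J) := by
      gcongr; linarith
    linarith

lemma cnt_split {X J : ℕ} (hX : 0 < X) (hJ : 0 < J) (K : Finset ℕ) (β σ H y : ℝ) :
    cnt (PP X) K β σ H y = ∑ j ∈ range J, cnt (Pj X J j) K β σ H y := by
  unfold cnt
  rw [sum_comm]
  refine sum_congr rfl fun k _ => ?_
  rw [card_eq_sum_card_fiberwise (f := jf X J) (t := range J) (fun p hp => by
    rw [mem_coe, mem_filter] at hp
    exact mem_coe.mpr (mem_range.mpr (jf_spec hX hJ hp.1).1))]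
  push_cast
  refine sum_congr rfl fun j _ => ?_
  congr 2
  unfold Pj
  rw [filter_filter, filter_filter]
  apply filter_congr
  intro p _
  tauto

lemma card_split {X J : ℕ} (hX : 0 < X) (hJ : 0 < J) :
    ((PP X).card : ℝ) = ∑ j ∈ range J, ((Pj X J j).card : ℝ) := by
  rw [card_eq_sum_card_fiberwise (f := jf X J) (t := range J) (fun p hp => by
    exact mem_coe.mpr (mem_range.mpr (jf_spec hX hJ hp).1))]
  push_cast
  rfl

/-- the deviation -/
noncomputable def dev (X : ℕ) (K : Finset ℕ) (β σ H y : ℝ) : ℝ :=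
  |cnt (PP X) K β σ H y - (PP X).card * (H / y)|

lemma dev_measurable (X : ℕ) (K : Finset ℕ) (β σ H : ℝ) : Measurable (dev X K β σ H) := by
  unfold dev
  exact measurable_abs.comp ((cnt_measurable _ _ _ _ _).sub (by fun_prop))

lemma dev_int (X : ℕ) (K : Finset ℕ) (β σ H : ℝ) {Y : ℝ} (hY : 0 < Y) :
    IntegrableOn (dev X K β σ H) (Set.Icc Y (2 * Y)) := by
  refine Measure.integrableOn_of_bounded (M := K.card * (PP X).card + (PP X).card * (|H| / Y)) (by simp)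
    (dev_measurable X K β σ H).aestronglyMeasurable ?_
  rw [ae_restrict_iff' measurableSet_Icc]
  refine Filter.Eventually.of_forall fun y hy => ?_
  have hy0 : 0 < y := hY.trans_le hy.1
  unfold dev
  rw [Real.norm_eq_abs, abs_abs]
  refine (abs_sub _ _).trans ?_
  rw [abs_of_nonneg (cnt_nonneg _ _ _ _ _ _), abs_mul, abs_div, abs_of_pos hy0, Nat.abs_cast]
  have := cnt_le (PP X) K β σ H y
  have h2 : |H| / y ≤ |H| / Y := by
    apply div_le_div_of_nonneg_left (abs_nonneg _) hY hy.1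
  gcongr

/-- the numerical facts for large `X` -/
lemma facts (δ lam η' : ℝ) (hδ : 0 < δ) (hη' : 0 < η') (A : ℕ) : ∃ X₀ : ℕ, ∀ X : ℕ, X₀ ≤ X →
    16 ≤ Real.log X ∧ 1000 ≤ (X : ℝ) ^ δ ∧ 1000 * Real.log X ^ (5 * A + 3) ≤ (X : ℝ) ^ δ ∧
    2 * Real.log X ^ (2 * A + 1) ≤ (X : ℝ) ^ (δ * η' / 2) ∧ 16 ≤ (X : ℝ) ^ (δ / 2) ∧
    |lam| * Real.log X ^ (4 * A + 4) ≤ (X : ℝ) ^ (1 : ℝ) ∧ Real.log X ^ (4 * A + 2) ≤ (X : ℝ) ^ (1 : ℝ) := by
  have h1 : ∀ᶠ X : ℕ in atTop, 16 ≤ Real.log X :=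
    (Real.tendsto_log_atTop.comp tendsto_natCast_atTop_atTop).eventually_ge_atTop 16
  have h2 : ∀ᶠ X : ℕ in atTop, 1000 ≤ (X : ℝ) ^ δ :=
    ((tendsto_rpow_atTop hδ).comp tendsto_natCast_atTop_atTop).eventually_ge_atTop 1000
  have h3 := log_pow_le (5 * A + 3) δ 1000 hδ
  have h4 := log_pow_le (2 * A + 1) (δ * η' / 2) 2 (by positivity)
  have h5 : ∀ᶠ X : ℕ in atTop, 16 ≤ (X : ℝ) ^ (δ / 2) :=
    ((tendsto_rpow_atTop (by positivity)).comp tendsto_natCast_atTop_atTop).eventually_ge_atTop 16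
  have h6 := log_pow_le (4 * A + 4) 1 |lam| one_pos
  have h7 := log_pow_le (4 * A + 2) 1 1 one_pos
  have := h1.and (h2.and (h3.and (h4.and (h5.and (h6.and h7)))))
  obtain ⟨X₀, hX₀⟩ := this.exists_forall_of_atTop
  refine ⟨X₀, fun X hX => ?_⟩
  obtain ⟨a, b, c, d, e1, f, g⟩ := hX₀ X hX
  exact ⟨a, b, c, d, e1, f, by simpa using g⟩

end Pool.Agent.H438R2.DL
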