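import Pool.Agent.H438R2.DL.Gen

open Finset MeasureTheory Filter

namespace Pool.Agent.H438R2.DL

/-- trivial second moment bound: arbitrary sets of integers -/
lemma triv_L2 {X : ℕ} {P : Finset ℕ} (hX : 0 < X) (hP : P ⊆ Ioc X (2 * X)) {s : ℝ} (hs : 0 < s) :
    ∫ u, (Fw P (fun p : ℕ => Real.log p) s u) ^ 2 ≤ (P.card : ℝ) * (4 * X + 1 / s) := by
  refine (Fw_sq_le P _ hs).trans ?_
  have hX' : (0 : ℝ) < X := by exact_mod_cast hX
  have hcard : (((P ×ˢ P).filter (fun i => |Real.log (i.1 : ℝ) - Real.log (i.2 : ℝ)| < s)).card : ℝ) ≤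
      P.card * (4 * X * s + 1) := by
    rw [card_filter, sum_product]
    push_cast
    rw [← nsmul_eq_mul, ← sum_const]
    refine sum_le_sum fun p hp => ?_
    have hp1 := mem_Ioc.mp (hP hp)
    have hp0 : (0 : ℝ) < p := by exact_mod_cast (Nat.zero_lt_of_lt hp1.1)
    have hp2 : (p : ℝ) ≤ 2 * X := by exact_mod_cast hp1.2
    have h1 : (∑ q ∈ P, if |Real.log (p : ℝ) - Real.log (q : ℝ)| < s then (1 : ℝ) else 0) =
        ((P.filter (fun q : ℕ => |Real.log (p : ℝ) - Real.log (q : ℝ)| < s)).card : ℝ) := by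
      rw [card_filter]; push_cast; rfl
    rw [h1]
    set R : ℝ := 2 * X * s with hR
    have hsub : (P.filter (fun q : ℕ => |Real.log (p : ℝ) - Real.log (q : ℝ)| < s)).image (fun q : ℕ => (q : ℤ)) ⊆
        Finset.Icc ⌈(p : ℝ) - R⌉ ⌊(p : ℝ) + R⌋ := by
      intro z hz
      rw [mem_image] at hz
      obtain ⟨q, hq, rfl⟩ := hz
      rw [mem_filter] at hq
      obtain ⟨hqP, hq⟩ := hq
      have hq1 := mem_Ioc.mp (hP hqP)
      have hq0 : (0 : ℝ) < q := by exact_mod_cast (Nat.zero_lt_of_lt hq1.1)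
      have hq2 : (q : ℝ) ≤ 2 * X := by exact_mod_cast hq1.2
      rw [abs_lt] at hq
      have key : ∀ a b : ℝ, 0 < a → 0 < b → a ≤ 2 * X → Real.log a - Real.log b < s → a - b ≤ R := by
        intro a b ha hb haX hab
        have h1 : 1 - (a / b)⁻¹ ≤ Real.log (a / b) := Real.one_sub_inv_le_log_of_pos (by positivity)
        rw [Real.log_div ha.ne' hb.ne', inv_div] at h1
        have h2 : 1 - b / a < s := lt_of_le_of_lt h1 hab
        have h3 : a - b = (1 - b / a) * a := by field_simp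
        rw [h3, hR]
        calc (1 - b / a) * a ≤ s * a := by gcongr
          _ ≤ s * (2 * X) := by gcongr
          _ = _ := by ring
      have k1 := key p q hp0 hq0 hp2 (by linarith)
      have k2 := key q p hq0 hp0 hq2 (by linarith)
      rw [Finset.mem_Icc, Int.ceil_le, Int.le_floor]
      push_cast
      constructor <;> linarith
    have h2 := card_le_card hsub
    rw [card_image_of_injective _ Nat.cast_injective, Int.card_Icc] at h2
    have h3 : ((⌊(p : ℝ) + R⌋ + 1 - ⌈(p : ℝ) - R⌉).toNat : ℝ) ≤ 2 * R + 1 := by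
      have h4 : (⌊(p : ℝ) + R⌋ : ℝ) ≤ p + R := Int.floor_le _
      have h5 : (p : ℝ) - R ≤ ⌈(p : ℝ) - R⌉ := Int.le_ceil _
      have hR0 : 0 ≤ R := by rw [hR]; positivity
      rcases le_or_gt 0 (⌊(p : ℝ) + R⌋ + 1 - ⌈(p : ℝ) - R⌉) with h6 | h6
      · have h7 : ((⌊(p : ℝ) + R⌋ + 1 - ⌈(p : ℝ) - R⌉).toNat : ℝ) =
            ((⌊(p : ℝ) + R⌋ + 1 - ⌈(p : ℝ) - R⌉ : ℤ) : ℝ) := by
          have := Int.toNat_of_nonneg h6
          exact_mod_cast this
        rw [h7]; push_cast; linarith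
      · rw [Int.toNat_of_nonpos h6.le]; simp; positivity
    have h4 : ((P.filter (fun q : ℕ => |Real.log (p : ℝ) - Real.log (q : ℝ)| < s)).card : ℝ) ≤
        ((⌊(p : ℝ) + R⌋ + 1 - ⌈(p : ℝ) - R⌉).toNat : ℝ) := by exact_mod_cast h2
    refine h4.trans (h3.trans (le_of_eq ?_))
    rw [hR]; ring
  calc 1 / s * (((P ×ˢ P).filter (fun i => |Real.log (i.1 : ℝ) - Real.log (i.2 : ℝ)| < s)).card : ℝ) ≤
      1 / s * (P.card * (4 * X * s + 1)) := by gcongr
    _ = _ := by field_simp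

/-- pieces of an arbitrary set -/
noncomputable def Pk (P : Finset ℕ) (X J j : ℕ) : Finset ℕ := P.filter (fun p => jf X J p = j)

lemma jf_spec' {X J p : ℕ} (hX : 0 < X) (hJ : 0 < J) (hp : p ∈ Ioc X (2 * X)) :
    jf X J p < J ∧ (X : ℝ) + (jf X J p) * (X / J) < p ∧ (p : ℝ) ≤ X + ((jf X J p : ℝ) + 1) * (X / J) := by
  have hX' : (0 : ℝ) < X := by exact_mod_cast hX
  have hJ' : (0 : ℝ) < J := by exact_mod_cast hJ
  rw [mem_Ioc] at hp
  obtain ⟨hp1, hp2⟩ := hp
  have hp1' : (X : ℝ) < p := by exact_mod_cast hp1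
  have hp2' : (p : ℝ) ≤ 2 * X := by exact_mod_cast hp2
  set t : ℝ := ((p : ℝ) - X) * J / X with ht
  have ht0 : 0 < t := by
    rw [ht]; apply div_pos (mul_pos (by linarith) hJ') hX'
  have htJ : t ≤ J := by
    rw [ht, div_le_iff₀ hX']; nlinarith
  have hc1 : 0 < ⌈t⌉₊ := Nat.ceil_pos.mpr ht0
  have hc2 : ⌈t⌉₊ ≤ J := Nat.ceil_le.mpr htJ
  have hj : jf X J p = ⌈t⌉₊ - 1 := rfl
  have hcast : ((⌈t⌉₊ - 1 : ℕ) : ℝ) = (⌈t⌉₊ : ℝ) - 1 := by
    rw [Nat.cast_sub hc1]; simp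
  have h1 := Nat.ceil_lt_add_one ht0.le
  have h2 := Nat.le_ceil t
  have ep : (p : ℝ) = X + t * (X / J) := by
    rw [ht]; field_simp; ring
  refine ⟨by omega, ?_, ?_⟩
  · rw [hj, hcast, ep]
    have : ((⌈t⌉₊ : ℝ) - 1) * (X / J) < t * (X / J) := by
      gcongr; linarith
    linarith
  · rw [hj, hcast, ep]
    have : t * (X / J) ≤ (((⌈t⌉₊ : ℝ) - 1) + 1) * (X / J) := by
      gcongr; linarith
    linarith

lemma cnt_split' {P : Finset ℕ} {X J : ℕ} (hX : 0 < X) (hJ : 0 < J) (hP : P ⊆ Ioc X (2 * X))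
    (K : Finset ℕ) (β σ H y : ℝ) :
    cnt P K β σ H y = ∑ j ∈ range J, cnt (Pk P X J j) K β σ H y := by
  unfold cnt
  rw [sum_comm]
  refine sum_congr rfl fun k _ => ?_
  rw [card_eq_sum_card_fiberwise (f := jf X J) (t := range J) (fun p hp => by
    rw [mem_coe, mem_filter] at hp
    exact mem_coe.mpr (mem_range.mpr (jf_spec' hX hJ (hP hp.1)).1))]
  push_cast
  refine sum_congr rfl fun j _ => ?_
  congr 2
  unfold Pk
  rw [filter_filter, filter_filter]
  apply filter_congr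
  intro p _
  tauto

lemma card_split' {P : Finset ℕ} {X J : ℕ} (hX : 0 < X) (hJ : 0 < J) (hP : P ⊆ Ioc X (2 * X)) :
    (P.card : ℝ) = ∑ j ∈ range J, ((Pk P X J j).card : ℝ) := by
  rw [card_eq_sum_card_fiberwise (f := jf X J) (t := range J) (fun p hp => by
    exact mem_coe.mpr (mem_range.mpr (jf_spec' hX hJ (hP (mem_coe.mp hp))).1))]
  push_cast
  rfl

/-- the deviation for an arbitrary set -/
noncomputable def dv (P K : Finset ℕ) (β σ H y : ℝ) : ℝ :=
  |cnt P K β σ H y - P.card * (H / y)|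

lemma dv_measurable (P K : Finset ℕ) (β σ H : ℝ) : Measurable (dv P K β σ H) := by
  unfold dv
  exact measurable_abs.comp ((cnt_measurable _ _ _ _ _).sub (by fun_prop))

lemma dv_nonneg (P K : Finset ℕ) (β σ H y : ℝ) : 0 ≤ dv P K β σ H y := abs_nonneg _

lemma dv_int (P K : Finset ℕ) (β σ H : ℝ) {Y : ℝ} (hY : 0 < Y) :
    IntegrableOn (dv P K β σ H) (Set.Icc Y (2 * Y)) := by
  refine Measure.integrableOn_of_bounded (M := K.card * P.card + P.card * (|H| / Y)) (by simp)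
    (dv_measurable P K β σ H).aestronglyMeasurable ?_
  rw [ae_restrict_iff' measurableSet_Icc]
  refine Filter.Eventually.of_forall fun y hy => ?_
  have hy0 : 0 < y := hY.trans_le hy.1
  unfold dv
  rw [Real.norm_eq_abs, abs_abs]
  refine (abs_sub _ _).trans ?_
  rw [abs_of_nonneg (cnt_nonneg _ _ _ _ _ _), abs_mul, abs_div, abs_of_pos hy0, Nat.abs_cast]
  have := cnt_le P K β σ H y
  have h2 : |H| / y ≤ |H| / Y := by
    apply div_le_div_of_nonneg_left (abs_nonneg _) hY hy.1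
  gcongr

lemma card_P_le {P : Finset ℕ} {X : ℕ} (hP : P ⊆ Ioc X (2 * X)) : (P.card : ℝ) ≤ X := by
  have : P.card ≤ X := by
    refine (card_le_card hP).trans ?_
    rw [Nat.card_Ioc]; omega
  exact_mod_cast this

end Pool.Agent.H438R2.DL
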