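import Pool.Agent.H438R2.DL.App2

open Finset MeasureTheory Filter

namespace Pool.Agent.H438R2.DL

/-- summing unit interval integrals; `s = 0`: intervals `(q-1, q]`, `s = 1`: `(q, q+1]` -/
lemma sum_unit {f : ℝ → ℝ} (hf : ∀ y, 0 ≤ f y) (Q : ℕ) (hint : IntegrableOn f (Set.Icc (Q : ℝ) (2 * Q)))
    (s : ℝ) (hs0 : 0 ≤ s) (hs1 : s ≤ 1) :
    ∑ q ∈ Ioo Q (2 * Q), ∫ y in Set.Ioc ((q : ℝ) - 1 + s) (q + s), f y ≤ ∫ y in Set.Icc (Q : ℝ) (2 * Q), f y := by
  have hsub : ∀ q ∈ Ioo Q (2 * Q), Set.Ioc ((q : ℝ) - 1 + s) (q + s) ⊆ Set.Icc (Q : ℝ) (2 * Q) := by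
    intro q hq y hy
    rw [mem_Ioo] at hq
    have h1 : (Q : ℝ) + 1 ≤ q := by exact_mod_cast hq.1
    have h2 : (q : ℝ) + 1 ≤ 2 * Q := by exact_mod_cast hq.2
    exact ⟨by linarith [hy.1], by linarith [hy.2]⟩
  rw [← integral_biUnion_finset]
  · apply setIntegral_mono_set hint
    · exact Filter.Eventually.of_forall hf
    · apply HasSubset.Subset.eventuallyLE
      exact Set.iUnion₂_subset hsub
  · intro q _; exact measurableSet_Ioc
  · intro a _ b _ hab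
    simp only [Function.onFun]
    rw [Set.disjoint_left]
    intro y hy1 hy2
    have h1 : (a : ℝ) < b + 1 := by linarith [hy1.1, hy2.2]
    have h2 : (b : ℝ) < a + 1 := by linarith [hy1.2, hy2.1]
    have h3 : a < b + 1 := by exact_mod_cast h1
    have h4 : b < a + 1 := by exact_mod_cast h2
    exact hab (by omega)
  · intro q hq; exact hint.mono_set (hsub q hq)

lemma avg_unit {f : ℝ → ℝ} {a c b : ℝ} (hint : IntegrableOn f (Set.Ioc a (a + 1)))
    (h : ∀ y ∈ Set.Ioc a (a + 1), c ≤ f y + b) : c ≤ (∫ y in Set.Ioc a (a + 1), f y) + b := by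
  have h1 : ∫ y in Set.Ioc a (a + 1), (c - b) ≤ ∫ y in Set.Ioc a (a + 1), f y := by
    refine setIntegral_mono_on (integrableOn_const (by simp) (by simp)) hint measurableSet_Ioc ?_
    intro y hy
    linarith [h y hy]
  rw [setIntegral_const, smul_eq_mul] at h1
  unfold Measure.real at h1
  rw [Real.volume_Ioc, show a + 1 - a = 1 by ring, ENNReal.toReal_ofReal zero_le_one, one_mul] at h1
  linarith

/-- **Integer moduli.** -/
theorem INT (δ : ℝ) (hδ : 0 < δ) (hδ1 : δ < 1) :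
    ∃ κ : ℝ, 0 < κ ∧ κ ≤ δ / 32 ∧ ∃ X₀ : ℕ, 3 ≤ X₀ ∧ ∀ X : ℕ, X₀ ≤ X → ∀ P : Finset ℕ, P ⊆ Ioc X (2 * X) →
      ∀ Q : ℕ, (Q : ℝ) ≤ (X:ℝ) ^ (1 - δ) → 16 * (X : ℝ) ≤ (Q : ℝ) ^ 2 →
      ∀ H β : ℝ, 1 ≤ H → H ≤ Q / 2 → 0 ≤ β → β ≤ 1 →
      ∑ q ∈ Ioo Q (2 * Q), |cnt P (Ico ⌊X / (8 * (Q : ℝ))⌋₊ (64 * ⌊X / (8 * (Q : ℝ))⌋₊)) β 0 H q -
        P.card * (H / q)| ≤ H * (X : ℝ) ^ (1 - κ) + 24 * (X : ℝ) ^ 2 / Q := by
  obtain ⟨κ, hκ0, hκδ, X₀, hX₀, hG⟩ := G2 δ hδ hδ1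
  have ev1 : ∀ᶠ X : ℕ in atTop, 3 ≤ (X : ℝ) ^ (κ / 2) :=
    ((tendsto_rpow_atTop (by positivity)).comp tendsto_natCast_atTop_atTop).eventually_ge_atTop 3
  obtain ⟨X1, hX1⟩ := ev1.exists_forall_of_atTop
  refine ⟨κ / 2, by positivity, by linarith, max X₀ X1, hX₀.trans (le_max_left _ _), ?_⟩
  intro X hX P hP Q hQX hXQ H β hH1 hHQ hβ0 hβ1
  have hXX₀ : X₀ ≤ X := (le_max_left _ _).trans hX
  have h3X := hX1 X ((le_max_right _ _).trans hX)
  have hX3 : (3 : ℝ) ≤ X := by exact_mod_cast hX₀.trans hXX₀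
  have hX0 : (0 : ℝ) < X := by linarith
  have hX1r : (1 : ℝ) ≤ X := by linarith
  have hQ0 : (0 : ℝ) < Q := by linarith
  set N : ℕ := ⌊X / (8 * (Q : ℝ))⌋₊ with hN
  set K := Ico N (64 * N) with hK
  set Δ : ℝ := 64 * N with hΔ
  have hΔ0 : 0 ≤ Δ := by rw [hΔ]; positivity
  have hNle : (N : ℝ) ≤ X / (8 * Q) := Nat.floor_le (by positivity)
  have hΔle : Δ ≤ 8 * X / Q := by
    rw [hΔ]
    calc 64 * (N : ℝ) ≤ 64 * (X / (8 * Q)) := by gcongr
      _ = 8 * X / Q := by field_simp; ring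
  have hΔQ : Δ ≤ Q / 2 := by
    refine hΔle.trans ?_
    rw [div_le_div_iff₀ hQ0 (by norm_num)]
    nlinarith
  have hPX : (P.card : ℝ) ≤ X := card_P_le hP
  have hXκ1 : (X : ℝ) ^ (-κ) ≤ 1 := Real.rpow_le_one_of_one_le_of_nonpos hX1r (by linarith)
  -- the two comparison functions
  set f1 : ℝ → ℝ := dv P K β 0 (H + Δ) with hf1
  have hI1 := hG X hXX₀ P hP Q (H + Δ) β 0 hQ0 hQX (by linarith) (by linarith) hβ0 hβ1 (Or.inl rfl)
  rw [← hN, ← hK, ← hf1] at hI1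
  have hint1 : IntegrableOn f1 (Set.Icc (Q : ℝ) (2 * Q)) := dv_int _ _ _ _ _ hQ0
  set f2 : ℝ → ℝ := if Δ + 1 ≤ H then dv P K β 0 (H - Δ) else 0 with hf2
  have hf20 : ∀ y, 0 ≤ f2 y := by
    intro y
    rw [hf2]
    split_ifs
    · exact dv_nonneg _ _ _ _ _ _
    · exact le_rfl
  have hint2 : IntegrableOn f2 (Set.Icc (Q : ℝ) (2 * Q)) := by
    rw [hf2]
    split_ifs
    · exact dv_int _ _ _ _ _ hQ0
    · exact integrableOn_zero
  have hI2 : ∫ y in Set.Icc (Q : ℝ) (2 * Q), f2 y ≤ H * (X : ℝ) ^ (1 - κ) := by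
    rw [hf2]
    split_ifs with hc
    · refine (hG X hXX₀ P hP Q (H - Δ) β 0 hQ0 hQX (by linarith) (by linarith) hβ0 hβ1 (Or.inl rfl)).trans ?_
      gcongr
      linarith
    · simp only [Pi.zero_apply, integral_zero]
      positivity
  set b : ℝ := X * ((Δ + 1) / Q + H / (Q : ℝ) ^ 2) with hb
  have hb0 : 0 ≤ b := by rw [hb]; positivity
  -- pointwise bounds
  have hkb : ∀ k ∈ K, 0 ≤ (k : ℝ) + β ∧ (k : ℝ) + β ≤ Δ := by
    intro k hk
    rw [hK, mem_Ico] at hk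
    have h1 : (k : ℝ) + 1 ≤ 64 * N := by exact_mod_cast hk.2
    constructor
    · positivity
    · rw [hΔ]; linarith
  have hup : ∀ q ∈ Ioo Q (2 * Q), ∀ y ∈ Set.Ioc ((q : ℝ) - 1) ((q : ℝ) - 1 + 1),
      cnt P K β 0 H q - P.card * (H / q) ≤ f1 y + b := by
    intro q hq y hy
    rw [mem_Ioo] at hq
    have hq1 : (Q : ℝ) + 1 ≤ q := by exact_mod_cast hq.1
    have hy1 : (Q : ℝ) ≤ y := by linarith [hy.1]
    have hy0 : 0 < y := by linarith
    have hyq : y ≤ q := by linarith [hy.2]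
    have hyq1 : (q : ℝ) - y ≤ 1 := by linarith [hy.1]
    have h1 : cnt P K β 0 H q ≤ cnt P K β 0 (H + Δ) y := by
      unfold cnt
      refine sum_le_sum fun k hk => ?_
      obtain ⟨hk1, hk2⟩ := hkb k hk
      have : P.filter (fun p : ℕ => ((k : ℝ) + β) * q - 0 * H < p ∧ (p : ℝ) ≤ ((k : ℝ) + β) * q + (1 - 0) * H) ⊆
          P.filter (fun p : ℕ => ((k : ℝ) + β) * y - 0 * (H + Δ) < p ∧
            (p : ℝ) ≤ ((k : ℝ) + β) * y + (1 - 0) * (H + Δ)) := by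
        intro p hp
        rw [mem_filter] at hp ⊢
        obtain ⟨hp, h1, h2⟩ := hp
        have h3 : ((k : ℝ) + β) * y ≤ ((k : ℝ) + β) * q := by gcongr
        have h4 : ((k : ℝ) + β) * q - ((k : ℝ) + β) * y ≤ Δ := by
          have : ((k : ℝ) + β) * q - ((k : ℝ) + β) * y = ((k : ℝ) + β) * (q - y) := by ring
          rw [this]
          calc ((k : ℝ) + β) * (q - y) ≤ Δ * 1 := by
                apply mul_le_mul hk2 hyq1 (by linarith) hΔ0
            _ = Δ := mul_one _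
        exact ⟨hp, by linarith, by linarith⟩
      exact_mod_cast card_le_card this
    have h2 : cnt P K β 0 (H + Δ) y - P.card * ((H + Δ) / y) ≤ f1 y := by
      rw [hf1]; unfold dv; exact le_abs_self _
    have h3 : (H + Δ) / y - H / q ≤ (Δ + 1) / Q + H / (Q : ℝ) ^ 2 := by
      have e1 : (H + Δ) / y - H / q = Δ / y + H * (q - y) / (y * q) := by
        have : (q : ℝ) ≠ 0 := by linarith
        field_simp; ring
      rw [e1]
      apply add_le_add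
      · apply div_le_div₀ (by linarith) (by linarith) hQ0 hy1
      · apply div_le_div₀ (by linarith) _ (by positivity) _
        · nlinarith
        · rw [sq]; apply mul_le_mul hy1 (by linarith) hQ0.le hy0.le
    have h4 : (P.card : ℝ) * ((H + Δ) / y - H / q) ≤ b := by
      rw [hb]
      calc (P.card : ℝ) * ((H + Δ) / y - H / q) ≤ P.card * ((Δ + 1) / Q + H / (Q : ℝ) ^ 2) := by gcongr
        _ ≤ _ := by gcongr
    rw [mul_sub] at h4
    linarith
  have hlo : ∀ q ∈ Ioo Q (2 * Q), ∀ y ∈ Set.Ioc (q : ℝ) ((q : ℝ) + 1),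
      P.card * (H / q) - cnt P K β 0 H q ≤ f2 y + b := by
    intro q hq y hy
    rw [mem_Ioo] at hq
    have hq1 : (Q : ℝ) + 1 ≤ q := by exact_mod_cast hq.1
    have hq0 : (0 : ℝ) < q := by linarith
    have hy0 : 0 < y := by linarith [hy.1]
    have hqy : (q : ℝ) ≤ y := hy.1.le
    have hyq1 : y - q ≤ 1 := by linarith [hy.2]
    rw [hf2]
    split_ifs with hc
    · have h1 : cnt P K β 0 (H - Δ) y ≤ cnt P K β 0 H q := by
        unfold cnt
        refine sum_le_sum fun k hk => ?_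
        obtain ⟨hk1, hk2⟩ := hkb k hk
        have : P.filter (fun p : ℕ => ((k : ℝ) + β) * y - 0 * (H - Δ) < p ∧
              (p : ℝ) ≤ ((k : ℝ) + β) * y + (1 - 0) * (H - Δ)) ⊆
            P.filter (fun p : ℕ => ((k : ℝ) + β) * q - 0 * H < p ∧ (p : ℝ) ≤ ((k : ℝ) + β) * q + (1 - 0) * H) := by
          intro p hp
          rw [mem_filter] at hp ⊢
          obtain ⟨hp, h1, h2⟩ := hp
          have h3 : ((k : ℝ) + β) * q ≤ ((k : ℝ) + β) * y := by gcongr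
          have h4 : ((k : ℝ) + β) * y - ((k : ℝ) + β) * q ≤ Δ := by
            have : ((k : ℝ) + β) * y - ((k : ℝ) + β) * q = ((k : ℝ) + β) * (y - q) := by ring
            rw [this]
            calc ((k : ℝ) + β) * (y - q) ≤ Δ * 1 := by
                  apply mul_le_mul hk2 hyq1 (by linarith) hΔ0
              _ = Δ := mul_one _
          exact ⟨hp, by linarith, by linarith⟩
        exact_mod_cast card_le_card this
      have h2 : P.card * ((H - Δ) / y) - cnt P K β 0 (H - Δ) y ≤ dv P K β 0 (H - Δ) y := by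
        unfold dv; rw [abs_sub_comm]; exact le_abs_self _
      have h3 : H / q - (H - Δ) / y ≤ (Δ + 1) / Q + H / (Q : ℝ) ^ 2 := by
        have e1 : H / q - (H - Δ) / y = Δ / y + H * (y - q) / (q * y) := by
          field_simp; ring
        rw [e1]
        apply add_le_add
        · apply div_le_div₀ (by linarith) (by linarith) hQ0 (by linarith)
        · apply div_le_div₀ (by linarith) _ (by positivity) _
          · nlinarith
          · rw [sq]; apply mul_le_mul (by linarith) (by linarith) hQ0.le hq0.le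
      have h4 : (P.card : ℝ) * (H / q - (H - Δ) / y) ≤ b := by
        rw [hb]
        calc (P.card : ℝ) * (H / q - (H - Δ) / y) ≤ P.card * ((Δ + 1) / Q + H / (Q : ℝ) ^ 2) := by gcongr
          _ ≤ _ := by gcongr
      rw [mul_sub] at h4
      linarith
    · push Not at hc
      have h1 := cnt_nonneg P K β 0 H q
      have h2 : H / q ≤ (Δ + 1) / Q := by
        apply div_le_div₀ (by linarith) hc.le hQ0 (by linarith)
      have h3 : (P.card : ℝ) * (H / q) ≤ b := by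
        rw [hb]
        calc (P.card : ℝ) * (H / q) ≤ X * ((Δ + 1) / Q) := by gcongr
          _ ≤ X * ((Δ + 1) / Q + H / (Q : ℝ) ^ 2) := by
            gcongr
            have : 0 ≤ H / (Q : ℝ) ^ 2 := by positivity
            linarith
      simp only [Pi.zero_apply]
      linarith
  have hterm : ∀ q ∈ Ioo Q (2 * Q), |cnt P K β 0 H q - P.card * (H / q)| ≤
      (∫ y in Set.Ioc ((q : ℝ) - 1 + 0) (q + 0), f1 y) + (∫ y in Set.Ioc ((q : ℝ) - 1 + 1) (q + 1), f2 y) + b := by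
    intro q hq
    have hq' := mem_Ioo.mp hq
    have hq1 : (Q : ℝ) + 1 ≤ q := by exact_mod_cast hq'.1
    have hq2 : (q : ℝ) + 1 ≤ 2 * Q := by exact_mod_cast hq'.2
    have i1 : IntegrableOn f1 (Set.Ioc ((q : ℝ) - 1) ((q : ℝ) - 1 + 1)) := by
      apply hint1.mono_set
      intro y hy
      exact ⟨by linarith [hy.1], by linarith [hy.2]⟩
    have i2 : IntegrableOn f2 (Set.Ioc (q : ℝ) ((q : ℝ) + 1)) := by
      apply hint2.mono_set
      intro y hy
      exact ⟨by linarith [hy.1], by linarith [hy.2]⟩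
    have a1 := avg_unit i1 (hup q hq)
    have a2 := avg_unit i2 (hlo q hq)
    have e1 : (q : ℝ) - 1 + 1 = q := by ring
    have e2 : (q : ℝ) - 1 + 0 = q - 1 := by ring
    rw [e1] at a1 ⊢
    rw [e2, add_zero]
    have n1 : 0 ≤ ∫ y in Set.Ioc ((q : ℝ) - 1) q, f1 y :=
      setIntegral_nonneg measurableSet_Ioc fun y _ => dv_nonneg _ _ _ _ _ _
    have n2 : 0 ≤ ∫ y in Set.Ioc (q : ℝ) (q + 1), f2 y :=
      setIntegral_nonneg measurableSet_Ioc fun y _ => hf20 y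
    rw [abs_le]
    constructor <;> linarith
  refine (sum_le_sum hterm).trans ?_
  rw [sum_add_distrib, sum_add_distrib, sum_const, nsmul_eq_mul]
  have s1 := sum_unit (f := f1) (fun y => dv_nonneg _ _ _ _ _ _) Q hint1 0 le_rfl zero_le_one
  have s2 := sum_unit (f := f2) hf20 Q hint2 1 zero_le_one le_rfl
  have hcard : ((Ioo Q (2 * Q)).card : ℝ) ≤ Q := by
    have : (Ioo Q (2 * Q)).card ≤ Q := by rw [Nat.card_Ioo]; omega
    exact_mod_cast this
  have hlast : ((Ioo Q (2 * Q)).card : ℝ) * b ≤ X * (Δ + 1) + X * H / Q := by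
    calc ((Ioo Q (2 * Q)).card : ℝ) * b ≤ Q * b := by gcongr
      _ = X * (Δ + 1) + X * H / Q := by rw [hb]; field_simp
  have hXκ : (X : ℝ) ^ (1 - κ) ≤ X := by
    calc (X : ℝ) ^ (1 - κ) ≤ (X : ℝ) ^ (1 : ℝ) := Real.rpow_le_rpow_of_exponent_le hX1r (by linarith)
      _ = X := Real.rpow_one _
  have hXH : X * H / Q ≤ H * (X : ℝ) ^ (1 - κ) := by
    have h1 : (X : ℝ) ^ (κ : ℝ) ≤ Q := by
      have h2 : (X : ℝ) ^ (κ : ℝ) ≤ (X : ℝ) ^ (1 / 2 : ℝ) :=
        Real.rpow_le_rpow_of_exponent_le hX1r (by linarith)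
      refine h2.trans ?_
      rw [← Real.sqrt_eq_rpow]
      rw [Real.sqrt_le_left hQ0.le]
      linarith
    rw [Real.rpow_sub hX0, Real.rpow_one]
    have h3 : (0 : ℝ) < (X : ℝ) ^ κ := by positivity
    calc (X : ℝ) * H / Q = H * (X / Q) := by ring
      _ ≤ H * (X / (X : ℝ) ^ κ) := by gcongr
  have hX1 : X * 1 ≤ H * X := by nlinarith
  have hXQ' : (X : ℝ) ≤ 16 * X ^ 2 / Q := by
    rw [le_div_iff₀ hQ0]
    have : (Q : ℝ) ≤ X := hQX.trans (by
      calc (X : ℝ) ^ (1 - δ) ≤ (X : ℝ) ^ (1 : ℝ) := Real.rpow_le_rpow_of_exponent_le hX1r (by linarith)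
        _ = X := Real.rpow_one _)
    nlinarith
  have hXΔ : X * Δ ≤ 8 * (X : ℝ) ^ 2 / Q := by
    calc X * Δ ≤ X * (8 * X / Q) := by gcongr
      _ = _ := by ring
  have hXsm : (X : ℝ) ≤ (X : ℝ) ^ 2 / Q := by
    rw [le_div_iff₀ hQ0]
    have : (Q : ℝ) ≤ X := hQX.trans (by
      calc (X : ℝ) ^ (1 - δ) ≤ (X : ℝ) ^ (1 : ℝ) := Real.rpow_le_rpow_of_exponent_le hX1r (by linarith)
        _ = X := Real.rpow_one _)
    nlinarith
  have hΔκ : Δ * (X : ℝ) ^ (1 - κ) ≤ 8 * (X : ℝ) ^ 2 / Q := by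
    calc Δ * (X : ℝ) ^ (1 - κ) ≤ Δ * X := by gcongr
      _ = X * Δ := mul_comm _ _
      _ ≤ _ := hXΔ
  have h3 : 3 * (H * (X : ℝ) ^ (1 - κ)) ≤ H * (X : ℝ) ^ (1 - κ / 2) := by
    have e1 : (X : ℝ) ^ (1 - κ / 2) = (X : ℝ) ^ (κ / 2) * (X : ℝ) ^ (1 - κ) := by
      rw [← Real.rpow_add hX0]; congr 1; ring
    rw [e1]
    have : 0 ≤ H * (X : ℝ) ^ (1 - κ) := by positivity
    nlinarith
  have hfinal : (H + Δ) * (X : ℝ) ^ (1 - κ) + H * (X : ℝ) ^ (1 - κ) + (X * (Δ + 1) + X * H / Q) ≤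
      3 * (H * (X : ℝ) ^ (1 - κ)) + 24 * (X : ℝ) ^ 2 / Q := by
    have e2 : 24 * (X : ℝ) ^ 2 / Q = 8 * (X : ℝ) ^ 2 / Q + 8 * (X : ℝ) ^ 2 / Q + 8 * ((X : ℝ) ^ 2 / Q) := by ring
    rw [e2]
    nlinarith
  linarith

end Pool.Agent.H438R2.DL
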