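import Pool.Agent.H438R2.DL.Core
import Pool.Agent.H357R2.SI.Energy

open MeasureTheory

namespace Pool.Agent.H438R2.DL

lemma Fw_real {ι : Type*} (P : Finset ι) (x : ι → ℝ) (s u : ℝ) :
    Fw P x s u = ∑ p ∈ P, (1 / s) * Set.indicator (Set.Ico (x p - s) (x p)) (fun _ => (1 : ℝ)) u := by
  classical
  unfold Fw
  rw [← Finset.mul_sum, Finset.card_filter]
  push_cast
  congr 1
  refine Finset.sum_congr rfl fun p _ => ?_
  by_cases h : u < x p ∧ x p ≤ u + s
  · rw [if_pos h, Set.indicator_of_mem]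
    rw [Set.mem_Ico]; constructor <;> linarith [h.1, h.2]
  · rw [if_neg h, Set.indicator_of_notMem]
    rw [Set.mem_Ico]; intro h'; apply h; constructor <;> linarith [h'.1, h'.2]

/-- second moment of `Fw` bounded by the number of close pairs -/
lemma Fw_sq_le {ι : Type*} (P : Finset ι) (x : ι → ℝ) {s : ℝ} (hs : 0 < s) :
    ∫ u, (Fw P x s u) ^ 2 ≤ (1 / s) * (((P ×ˢ P).filter (fun i => |x i.1 - x i.2| < s)).card : ℝ) := by
  classical
  have h1 : ∀ u, (Fw P x s u) ^ 2 = ∑ i ∈ P ×ˢ P, (1 / s ^ 2) *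
      Set.indicator (Set.Ico (x i.1 - s) (x i.1) ∩ Set.Ico (x i.2 - s) (x i.2)) (fun _ => (1 : ℝ)) u := by
    intro u
    rw [Fw_real, sq, Finset.sum_mul_sum, Finset.sum_product]
    refine Finset.sum_congr rfl fun p _ => Finset.sum_congr rfl fun q _ => ?_
    simp only [Set.indicator_apply, Set.mem_inter_iff]
    by_cases h1 : u ∈ Set.Ico (x p - s) (x p) <;> by_cases h2 : u ∈ Set.Ico (x q - s) (x q) <;>
      simp [h1, h2] <;> field_simp
  simp only [h1]
  have hmeas : ∀ i : ι × ι, MeasurableSet (Set.Ico (x i.1 - s) (x i.1) ∩ Set.Ico (x i.2 - s) (x i.2)) :=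
    fun i => measurableSet_Ico.inter measurableSet_Ico
  have hvol : ∀ i : ι × ι, volume (Set.Ico (x i.1 - s) (x i.1) ∩ Set.Ico (x i.2 - s) (x i.2)) ≤ ENNReal.ofReal s := by
    intro i
    refine (measure_mono Set.inter_subset_left).trans ?_
    rw [Real.volume_Ico]
    simp
  rw [integral_finsetSum]
  · rw [Finset.card_filter]
    push_cast
    rw [Finset.mul_sum]
    refine Finset.sum_le_sum fun i _ => ?_
    rw [integral_const_mul, integral_indicator_const _ (hmeas i), smul_eq_mul, mul_one]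
    by_cases h : |x i.1 - x i.2| < s
    · rw [if_pos h]
      have h2 : volume.real (Set.Ico (x i.1 - s) (x i.1) ∩ Set.Ico (x i.2 - s) (x i.2)) ≤ s := by
        unfold Measure.real
        exact ENNReal.toReal_le_of_le_ofReal hs.le (hvol i)
      calc 1 / s ^ 2 * volume.real (Set.Ico (x i.1 - s) (x i.1) ∩ Set.Ico (x i.2 - s) (x i.2)) ≤
          1 / s ^ 2 * s := by gcongr
        _ = 1 / s * 1 := by field_simp
    · rw [if_neg h]
      have h2 : Set.Ico (x i.1 - s) (x i.1) ∩ Set.Ico (x i.2 - s) (x i.2) = ∅ := by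
        ext u
        simp only [Set.mem_inter_iff, Set.mem_Ico, Set.mem_empty_iff_false, iff_false]
        rintro ⟨⟨h3, h4⟩, h5, h6⟩
        apply h
        rw [abs_lt]
        constructor <;> linarith
      rw [h2]
      simp
  · intro i _
    apply Integrable.const_mul
    rw [integrable_indicator_iff (hmeas i)]
    refine integrableOn_const (lt_of_le_of_lt (hvol i) ENNReal.ofReal_lt_top).ne (by simp)

open Pool.Agent.H357R2.SI in
/-- **Second moment of primes in short windows.** -/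
theorem prime_L2 : ∃ C : ℝ, 1 ≤ C ∧ ∃ X₀ : ℕ, 3 ≤ X₀ ∧ ∀ X : ℕ, X₀ ≤ X → ∀ (lam s : ℝ), 0 < lam → lam ≤ 1 →
    lam * Real.log X / X ≤ s → s ≤ 1 → ∀ P : Finset ℕ, (∀ p ∈ P, p.Prime ∧ p ≤ 2 * X) →
    ∫ u, (Fw P (fun p => Real.log p) s u) ^ 2 ≤ C / lam * (X / Real.log X) ^ 2 := by
  obtain ⟨C1, hC1, u0, hps⟩ := pair_sieve
  obtain ⟨C2, hC2, hsg⟩ := sum_sg_sq
  obtain ⟨X₀, hX₀, hpnt⟩ := pnt 1 one_pos
  refine ⟨4 + 4 * C1 * C2 * 3, by nlinarith, max X₀ u0, by omega, ?_⟩
  intro X hX lam s hlam hlam1 hs hs1 P hP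
  have hX0 : X₀ ≤ X := (le_max_left _ _).trans hX
  have hXu : u0 ≤ X := (le_max_right _ _).trans hX
  have hX3 : (3 : ℝ) ≤ X := by exact_mod_cast hX₀.trans hX0
  have hL : 1 ≤ Real.log X := by
    rw [Real.le_log_iff_exp_le (by linarith)]
    have := Real.exp_one_lt_d9
    linarith
  have hL0 : 0 < Real.log X := by linarith
  have hspos : 0 < s := lt_of_lt_of_le (by positivity) hs
  refine (Fw_sq_le P _ hspos).trans ?_
  set T : ℕ := ⌈2 * X * s⌉₊ with hT
  have hTle : (T : ℝ) ≤ 2 * X * s + 1 := (Nat.ceil_lt_add_one (by positivity)).le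
  have hTge : 2 * X * s ≤ T := Nat.le_ceil _
  have hsub : (P ×ˢ P).filter (fun i => |Real.log i.1 - Real.log i.2| < s) ⊆
      ((PZ (2 * X)) ×ˢ (PZ (2 * X))).filter (fun x => x.1 < x.2 + T ∧ x.2 < x.1 + T) := by
    rintro ⟨p, q⟩ h
    rw [Finset.mem_filter, Finset.mem_product] at h
    obtain ⟨⟨hp, hq⟩, h⟩ := h
    simp only at hp hq h
    obtain ⟨hp1, hp2⟩ := hP p hp
    obtain ⟨hq1, hq2⟩ := hP q hq
    rw [Finset.mem_filter, Finset.mem_product, mem_PZ, mem_PZ]
    refine ⟨⟨⟨hp1, hp2⟩, hq1, hq2⟩, ?_⟩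
    simp only
    have key : ∀ a b : ℕ, 0 < a → 0 < b → a ≤ 2 * X → Real.log a - Real.log b < s → a < b + T := by
      intro a b ha hb haX hab
      have ha' : (0 : ℝ) < a := by exact_mod_cast ha
      have hb' : (0 : ℝ) < b := by exact_mod_cast hb
      have h1 : 1 - ((a : ℝ) / b)⁻¹ ≤ Real.log ((a : ℝ) / b) := Real.one_sub_inv_le_log_of_pos (by positivity)
      rw [Real.log_div ha'.ne' hb'.ne', inv_div] at h1
      have h2 : 1 - (b : ℝ) / a < s := lt_of_le_of_lt h1 hab
      have h3 : (a : ℝ) - b < s * a := by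
        have : (a : ℝ) - b = (1 - (b : ℝ) / a) * a := by field_simp
        rw [this]
        gcongr
      have h4 : (a : ℝ) ≤ 2 * X := by exact_mod_cast haX
      have h5 : (a : ℝ) < b + T := by
        have : s * a ≤ s * (2 * X) := by gcongr
        linarith
      exact_mod_cast h5
    rw [abs_lt] at h
    exact ⟨key p q hp1.pos hq1.pos hp2 (by linarith), key q p hq1.pos hp1.pos hq2 (by linarith)⟩
  have hcard := (Finset.card_le_card hsub).trans (close_pairs (2 * X) T)
  have hcard' : (((P ×ˢ P).filter (fun i => |Real.log i.1 - Real.log i.2| < s)).card : ℝ) ≤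
      ((PZ (2 * X)).card : ℝ) + 2 * ∑ h ∈ Finset.Icc 1 T,
        (((Finset.Ioc 0 (2 * X)).filter (fun n => n.Prime ∧ (n + h).Prime)).card : ℝ) := by
    exact_mod_cast hcard
  have hlogZ : Real.log X ≤ Real.log ((2 * X : ℕ) : ℝ) := by
    apply Real.log_le_log (by linarith)
    push_cast; linarith
  have h2 : ((PZ (2 * X)).card : ℝ) ≤ 4 * X / Real.log X := by
    have h3 : (PZ (2 * X)).card = Nat.primeCounting (2 * X) := pc_zero (2 * X)
    rw [h3]
    refine (hpnt (2 * X) (by omega)).2.trans ?_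
    apply div_le_div₀ (by positivity) _ hL0 hlogZ
    push_cast; linarith
  have h3 : ∀ h ∈ Finset.Icc 1 T,
      (((Finset.Ioc 0 (2 * X)).filter (fun n => n.Prime ∧ (n + h).Prime)).card : ℝ) ≤
      2 * C1 * X / Real.log X ^ 2 * sg h ^ 2 := by
    intro h hh
    rw [Finset.mem_Icc] at hh
    have h4 := hps h 0 (2 * X) (by omega) (by omega)
    rw [zero_add] at h4
    refine h4.trans ?_
    calc C1 * sg h ^ 2 * ((2 * X : ℕ) : ℝ) / Real.log ((2 * X : ℕ) : ℝ) ^ 2
        ≤ C1 * sg h ^ 2 * (2 * X) / Real.log X ^ 2 := by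
          apply div_le_div₀ (by positivity) _ (by positivity)
          · gcongr
          · push_cast; rfl
      _ = 2 * C1 * X / Real.log X ^ 2 * sg h ^ 2 := by ring
  have h4 : ∑ h ∈ Finset.Icc 1 T,
      (((Finset.Ioc 0 (2 * X)).filter (fun n => n.Prime ∧ (n + h).Prime)).card : ℝ) ≤
      2 * C1 * X / Real.log X ^ 2 * (C2 * T) := by
    refine (Finset.sum_le_sum h3).trans ?_
    rw [← Finset.mul_sum]
    exact mul_le_mul_of_nonneg_left (hsg T) (by positivity)
  -- bounds in terms of `s`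
  have hlogs : Real.log X ≤ X * s / lam := by
    rw [div_le_iff₀ (by linarith)] at hs
    rw [le_div_iff₀ hlam]
    linarith
  have h1s : (1 : ℝ) ≤ X * s / lam := hL.trans hlogs
  have h5 : 4 * (X : ℝ) / Real.log X ≤ s * (4 / lam * (X / Real.log X) ^ 2) := by
    have e1 : s * (4 / lam * (X / Real.log X) ^ 2) = 4 * X * (X * s / lam) / Real.log X ^ 2 := by
      field_simp
    rw [e1, div_le_div_iff₀ hL0 (by positivity), sq]
    calc 4 * (X : ℝ) * (Real.log X * Real.log X) ≤ 4 * X * ((X * s / lam) * Real.log X) := by gcongr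
      _ = _ := by ring
  have hXs : 0 ≤ X * s := by positivity
  have hTs : (T : ℝ) ≤ 3 * (X * s / lam) := by
    have : X * s ≤ X * s / lam := by
      rw [le_div_iff₀ hlam]
      nlinarith
    linarith
  have h6 : 2 * (2 * C1 * X / Real.log X ^ 2 * (C2 * T)) ≤
      s * (4 * C1 * C2 * 3 / lam * (X / Real.log X) ^ 2) := by
    calc 2 * (2 * C1 * X / Real.log X ^ 2 * (C2 * T)) ≤
        2 * (2 * C1 * X / Real.log X ^ 2 * (C2 * (3 * (X * s / lam)))) := by gcongr
      _ = _ := by field_simp; ring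
  calc 1 / s * (((P ×ˢ P).filter (fun i => |Real.log i.1 - Real.log i.2| < s)).card : ℝ) ≤
      1 / s * (s * (4 / lam * (X / Real.log X) ^ 2) + s * (4 * C1 * C2 * 3 / lam * (X / Real.log X) ^ 2)) := by
        gcongr
        linarith
    _ = _ := by field_simp

end Pool.Agent.H438R2.DL
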