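import Pool.Agent.H438R2.DL.Classes
import Pool.Agent.Helper602.MK.J3

open Finset MeasureTheory Filter

namespace Pool.Agent.H438R2.DL

lemma class_bt {X q a M : ℕ} {C : ℝ}
    (hBT : ∀ (a q N : ℕ), 1 ≤ q → 2 ≤ N →
    (((Finset.range N).filter (fun k => (a + k * q).Prime)).card : ℝ) ≤
      C * ((q : ℝ) / (Nat.totient q : ℝ)) * N / Real.log N) (hq : 1 ≤ q) (hM : 2 ≤ M)
    (hMX : 2 * X < M * q) :
    (((PP X).filter (fun p => p ≡ a [MOD q])).card : ℝ) ≤ C * ((q : ℝ) / (Nat.totient q : ℝ)) * M / Real.log M := by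
  refine le_trans ?_ (hBT (a % q) q M hq hM)
  have : ((PP X).filter (fun p => p ≡ a [MOD q])).card ≤
      ((Finset.range M).filter (fun k => (a % q + k * q).Prime)).card := by
    apply card_le_card_of_injOn (fun p => p / q)
    · intro p hp
      rw [mem_coe, mem_filter, PP, mem_filter, mem_Ioc] at hp
      obtain ⟨⟨⟨h1, h2⟩, h3⟩, h4⟩ := hp
      have h5 : a % q + p / q * q = p := by
        have : p % q = a % q := h4
        rw [← this, mul_comm]; exact Nat.mod_add_div p q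
      rw [mem_coe, mem_filter, mem_range]
      refine ⟨?_, by rw [h5]; exact h3⟩
      rw [Nat.div_lt_iff_lt_mul (by omega)]
      omega
    · intro p hp p' hp' h
      rw [mem_coe, mem_filter] at hp hp'
      have h1 : p % q = a % q := hp.2
      have h2 : p' % q = a % q := hp'.2
      simp only at h
      have e1 := Nat.mod_add_div p q
      have e2 := Nat.mod_add_div p' q
      rw [← e1, ← e2, h1, h2, h]
  exact_mod_cast this

open Classical in
/-- **Least primes in progressions, short intervals of residue classes, almost all moduli.** -/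
theorem linnik_avg (ε η : ℝ) (hε : 0 < ε) (hε1 : ε < 1) (hη : 0 < η) (hη1 : η < 1) :
    ∃ c κ : ℝ, 0 < c ∧ 0 < κ ∧ ∃ D₀ : ℕ, ∀ D : ℕ, D₀ ≤ D → ∀ β : ℝ, 0 ≤ β → β ≤ 1 →
      ∃ E : Finset ℕ, (E.card : ℝ) ≤ (D : ℝ) ^ (1 - κ) ∧ ∀ d : ℕ, D < d → d < 2 * D → d ∉ E →
        c * ((Nat.totient d : ℝ) / d) * (d : ℝ) ^ η ≤
          (((Ioc ⌊β * d⌋₊ ⌊β * d + (d : ℝ) ^ η⌋₊).filter (fun a => a.Coprime d ∧
            ∃ p : ℕ, p.Prime ∧ p ≡ a [MOD d] ∧ (p : ℝ) < (d : ℝ) ^ (1 + ε))).card : ℝ) := by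
  classical
  set τ : ℝ := min ε η / 2 with hτ
  have hτ0 : 0 < τ := by rw [hτ]; have := lt_min hε hη; linarith
  have hτε : τ ≤ ε / 2 := by rw [hτ]; have := min_le_left ε η; linarith
  have hτη : τ ≤ η / 2 := by rw [hτ]; have := min_le_right ε η; linarith
  obtain ⟨κ, hκ0, hκδ, X₀, hX₀, hI⟩ := INT2 (τ / 4) (by positivity) (by linarith)
  obtain ⟨C, hC, hBT⟩ := Pool.Agent.Helper602.MK.BTLib.brun_titchmarsh
  obtain ⟨X1, hX1, hPP⟩ := PP_lower
  have ev1 := log_pow_le 1 (κ / 2) 400 (by positivity)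
  have ev2 : ∀ᶠ D : ℕ in atTop, 16 ≤ (D : ℝ) ^ (τ / 2) :=
    ((tendsto_rpow_atTop (by positivity)).comp tendsto_natCast_atTop_atTop).eventually_ge_atTop _
  have ev3 : ∀ᶠ D : ℕ in atTop, 2 ≤ (D : ℝ) ^ (1 - η) :=
    ((tendsto_rpow_atTop (by linarith)).comp tendsto_natCast_atTop_atTop).eventually_ge_atTop _
  have ev4 : ∀ᶠ D : ℕ in atTop, max 3 (max X₀ X1) ≤ D := eventually_ge_atTop _
  obtain ⟨D₀, hD₀⟩ := (ev1.and (ev2.and (ev3.and ev4))).exists_forall_of_atTop
  refine ⟨τ / (192 * C), κ / 2, by positivity, by positivity, D₀, ?_⟩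
  intro D hD β hβ0 hβ1
  obtain ⟨f1, f2, f3, f4⟩ := hD₀ D hD
  rw [pow_one] at f1
  have hD3 : 3 ≤ D := (le_max_left _ _).trans f4
  have hD3' : (3 : ℝ) ≤ D := by exact_mod_cast hD3
  have hD0 : (0 : ℝ) < D := by linarith
  have hD1 : (1 : ℝ) ≤ D := by linarith
  have hDX₀ : X₀ ≤ D := ((le_max_left _ _).trans (le_max_right _ _)).trans f4
  have hDX1 : X1 ≤ D := ((le_max_right _ _).trans (le_max_right _ _)).trans f4
  set X : ℕ := ⌊(D : ℝ) ^ (1 + τ)⌋₊ with hXd
  have hXle : (X : ℝ) ≤ (D : ℝ) ^ (1 + τ) := Nat.floor_le (by positivity)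
  have hD1τ : (D : ℝ) ^ (1 + τ) = D * (D : ℝ) ^ τ := by rw [Real.rpow_add hD0, Real.rpow_one]
  have hDτ : 256 ≤ (D : ℝ) ^ τ := by
    have : (D : ℝ) ^ τ = (D : ℝ) ^ (τ / 2) * (D : ℝ) ^ (τ / 2) := by
      rw [← Real.rpow_add hD0]; congr 1; ring
    rw [this]; nlinarith
  have hXge : (D : ℝ) ^ (1 + τ) / 2 ≤ X := by
    have h1 := Nat.lt_floor_add_one ((D : ℝ) ^ (1 + τ))
    rw [← hXd] at h1
    have h2 : 2 ≤ (D : ℝ) ^ (1 + τ) := by rw [hD1τ]; nlinarith
    linarith
  have hXge2 : D * (128 : ℝ) ≤ X := by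
    refine le_trans ?_ hXge
    rw [hD1τ]; nlinarith
  have hDX : (D : ℝ) ≤ X := by linarith
  have hDXn : D ≤ X := by exact_mod_cast hDX
  have hX0 : (0 : ℝ) < X := by linarith
  have hX3 : (3 : ℝ) ≤ X := by linarith
  -- condition (2)
  have hc2 : (D : ℝ) ≤ (X : ℝ) ^ (1 - τ / 4) := by
    have h1 : ((D : ℝ) ^ (1 + τ) / 2) ^ (1 - τ / 4) ≤ (X : ℝ) ^ (1 - τ / 4) := by
      apply Real.rpow_le_rpow (by positivity) hXge (by linarith)
    refine le_trans ?_ h1
    rw [Real.div_rpow (by positivity) (by norm_num), ← Real.rpow_mul hD0.le]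
    have h2 : (2 : ℝ) ^ (1 - τ / 4) ≤ 2 := by
      calc (2 : ℝ) ^ (1 - τ / 4) ≤ 2 ^ (1 : ℝ) := Real.rpow_le_rpow_of_exponent_le (by norm_num) (by linarith)
        _ = 2 := Real.rpow_one _
    have h3 : (D : ℝ) ^ (1 + τ / 2) ≤ (D : ℝ) ^ ((1 + τ) * (1 - τ / 4)) := by
      apply Real.rpow_le_rpow_of_exponent_le hD1
      nlinarith
    have h4 : (D : ℝ) ^ (1 + τ / 2) = D * (D : ℝ) ^ (τ / 2) := by rw [Real.rpow_add hD0, Real.rpow_one]
    rw [le_div_iff₀ (by positivity)]
    calc D * (2 : ℝ) ^ (1 - τ / 4) ≤ D * 2 := by gcongr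
      _ ≤ D * (D : ℝ) ^ (τ / 2) := by gcongr; linarith
      _ = (D : ℝ) ^ (1 + τ / 2) := h4.symm
      _ ≤ _ := h3
  -- condition (3)
  have hc3 : 16 * (X : ℝ) ≤ (D : ℝ) ^ 2 := by
    have h1 : (D : ℝ) ^ (1 + τ) * (D : ℝ) ^ (τ / 2) ≤ (D : ℝ) ^ (2 : ℝ) := by
      rw [← Real.rpow_add hD0]
      apply Real.rpow_le_rpow_of_exponent_le hD1
      linarith
    calc 16 * (X : ℝ) ≤ (D : ℝ) ^ (τ / 2) * (D : ℝ) ^ (1 + τ) := by gcongr
      _ ≤ (D : ℝ) ^ (2 : ℝ) := by linarith
      _ = (D : ℝ) ^ 2 := by rw [← Real.rpow_natCast]; norm_num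
  set H : ℝ := (D : ℝ) ^ η with hH
  have hH1 : 1 ≤ H := Real.one_le_rpow hD1 hη.le
  have hH0 : 0 < H := by linarith
  have hHD : H ≤ D / 2 := by
    have h1 : (D : ℝ) = H * (D : ℝ) ^ (1 - η) := by
      rw [hH, ← Real.rpow_add hD0]; simp
    rw [le_div_iff₀ (by norm_num)]
    calc H * 2 ≤ H * (D : ℝ) ^ (1 - η) := by gcongr
      _ = D := h1.symm
  have hsum := hI X (hDX₀.trans hDXn) (PP X) (filter_subset _ _) D hc2 hc3 H β hH1 hHD hβ0 hβ1
  set n : ℝ := ((PP X).card : ℝ) with hn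
  have hnlow := hPP X (hDX1.trans hDXn)
  have hL0 : 0 < Real.log X := Real.log_pos (by linarith)
  have hLD0 : 0 < Real.log D := Real.log_pos (by linarith)
  have hLXD : Real.log X ≤ 2 * Real.log D := by
    have h1 : (X : ℝ) ≤ (D : ℝ) ^ 2 := by linarith
    have := Real.log_le_log hX0 h1
    rwa [Real.log_pow] at this
  have hn0 : 0 < n := lt_of_lt_of_le (by positivity) hnlow
  -- total error
  have herr : H * (X : ℝ) ^ (1 - κ) + 24 * (X : ℝ) ^ 2 / D ≤ 25 * (H * X * (D : ℝ) ^ (-κ)) := by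
    have h1 : (X : ℝ) ^ (1 - κ) ≤ X * (D : ℝ) ^ (-κ) := by
      rw [sub_eq_add_neg, Real.rpow_add hX0, Real.rpow_one]
      gcongr X * ?_
      exact Real.rpow_le_rpow_of_nonpos hD0 hDX (by linarith)
    have h2 : (X : ℝ) / D ≤ H * (D : ℝ) ^ (-κ) := by
      calc (X : ℝ) / D ≤ (D : ℝ) ^ (1 + τ) / D := by gcongr
        _ = (D : ℝ) ^ τ := by rw [hD1τ]; field_simp
        _ ≤ (D : ℝ) ^ (η - κ) := by
          apply Real.rpow_le_rpow_of_exponent_le hD1
          linarith
        _ = H * (D : ℝ) ^ (-κ) := by rw [hH, ← Real.rpow_add hD0]; congr 1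
    have h3 : 24 * (X : ℝ) ^ 2 / D ≤ 24 * (X * (H * (D : ℝ) ^ (-κ))) := by
      calc 24 * (X : ℝ) ^ 2 / D = 24 * (X * (X / D)) := by ring
        _ ≤ _ := by gcongr
    calc _ ≤ H * (X * (D : ℝ) ^ (-κ)) + 24 * (X * (H * (D : ℝ) ^ (-κ))) := by
          apply add_le_add _ h3
          gcongr
      _ = _ := by ring
  set t : ℝ := n * H / (4 * D) with ht
  have ht0 : 0 < t := by rw [ht]; positivity
  set E : Finset ℕ := (Ioo D (2 * D)).filter (fun q => t < |(classCount (PP X) q β H : ℝ) - n * (H / q)|) with hE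
  refine ⟨E, ?_, ?_⟩
  · have h1 : (E.card : ℝ) * t ≤ 25 * (H * X * (D : ℝ) ^ (-κ)) := by
      refine le_trans ?_ (hsum.trans herr)
      rw [← nsmul_eq_mul, ← sum_const]
      calc ∑ _q ∈ E, t ≤ ∑ q ∈ E, |(classCount (PP X) q β H : ℝ) - n * (H / q)| := by
            refine sum_le_sum fun q hq => ?_
            rw [hE, mem_filter] at hq
            exact hq.2.le
        _ ≤ _ := sum_le_sum_of_subset_of_nonneg (filter_subset _ _) (fun _ _ _ => abs_nonneg _)
    have h2 : H * X / (8 * D * Real.log X) ≤ t := by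
      rw [ht]
      calc H * X / (8 * D * Real.log X) = (X / (2 * Real.log X)) * H / (4 * D) := by field_simp; ring
        _ ≤ n * H / (4 * D) := by gcongr
    have h3 : (E.card : ℝ) * (H * X / (8 * D * Real.log X)) ≤ 25 * (H * X * (D : ℝ) ^ (-κ)) :=
      le_trans (by gcongr) h1
    have h4 : (E.card : ℝ) ≤ 200 * Real.log X * (D * (D : ℝ) ^ (-κ)) := by
      have h5 : (E.card : ℝ) * (H * X / (8 * D * Real.log X)) = (H * X) * ((E.card : ℝ) / (8 * D * Real.log X)) := by ring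
      have h6 : 25 * (H * X * (D : ℝ) ^ (-κ)) = (H * X) * (25 * (D : ℝ) ^ (-κ)) := by ring
      rw [h5, h6] at h3
      have h7 := le_of_mul_le_mul_left h3 (by positivity)
      rw [div_le_iff₀ (by positivity)] at h7
      linarith
    refine h4.trans ?_
    have h5 : (D : ℝ) ^ (1 - κ / 2) = (D : ℝ) ^ (κ / 2) * (D * (D : ℝ) ^ (-κ)) := by
      have : (1 : ℝ) - κ / 2 = κ / 2 + (1 + -κ) := by ring
      rw [this, Real.rpow_add hD0, Real.rpow_add hD0, Real.rpow_one]
    rw [h5]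
    apply mul_le_mul_of_nonneg_right _ (by positivity)
    linarith
  · intro d hd1 hd2 hdE
    have hdI : d ∈ Ioo D (2 * D) := mem_Ioo.mpr ⟨hd1, hd2⟩
    have hgood : |(classCount (PP X) d β H : ℝ) - n * (H / d)| ≤ t := by
      by_contra hcon
      push Not at hcon
      exact hdE (mem_filter.mpr ⟨hdI, hcon⟩)
    have hd1' : (D : ℝ) + 1 ≤ d := by exact_mod_cast hd1
    have hd2' : (d : ℝ) + 1 ≤ 2 * D := by exact_mod_cast hd2
    have hd0 : (0 : ℝ) < d := by linarith
    have hdn : 1 ≤ d := by omega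
    have hφ : (0 : ℝ) < Nat.totient d := by exact_mod_cast Nat.totient_pos.2 hdn
    -- lower bound for the class count
    have hRlow : t ≤ (classCount (PP X) d β H : ℝ) := by
      rw [abs_le] at hgood
      have h1 : 2 * t ≤ n * (H / d) := by
        rw [ht]
        calc 2 * (n * H / (4 * D)) = n * (H / (2 * D)) := by field_simp; ring
          _ ≤ n * (H / d) := by gcongr; linarith
      linarith [hgood.1]
    -- M
    set M : ℕ := 2 * X / d + 1 with hM
    have hMd : 2 * X < M * d := by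
      rw [hM]
      have := Nat.lt_div_mul_add (a := 2 * X) (b := d) (by omega)
      rw [add_mul, one_mul]; exact this
    have hMge : (X : ℝ) / D ≤ M := by
      have h1 : (2 * X : ℝ) < M * d := by exact_mod_cast hMd
      rw [div_le_iff₀ hD0]
      have h2 : (M : ℝ) * d ≤ M * (2 * D) := by gcongr; linarith
      nlinarith
    have hMle : (M : ℝ) ≤ 3 * X / D := by
      rw [hM]; push_cast
      have h1 : ((2 * X / d : ℕ) : ℝ) ≤ ((2 * X : ℕ) : ℝ) / d := Nat.cast_div_le
      have h2 : ((2 * X : ℕ) : ℝ) / d ≤ 2 * X / D := by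
        push_cast
        apply div_le_div_of_nonneg_left (by positivity) hD0 (by linarith)
      have h3 : 1 ≤ (X : ℝ) / D := by rw [le_div_iff₀ hD0]; linarith
      have h4 : 3 * (X : ℝ) / D = 2 * X / D + X / D := by ring
      rw [h4]; linarith
    have hXD : (D : ℝ) ^ (τ / 2) ≤ X / D := by
      have h1 : (D : ℝ) ^ τ / 2 ≤ X / D := by
        rw [le_div_iff₀ hD0]
        calc (D : ℝ) ^ τ / 2 * D = (D : ℝ) ^ (1 + τ) / 2 := by rw [hD1τ]; ring
          _ ≤ X := hXge
      refine le_trans ?_ h1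
      have h2 : (D : ℝ) ^ τ = (D : ℝ) ^ (τ / 2) * (D : ℝ) ^ (τ / 2) := by
        rw [← Real.rpow_add hD0]; congr 1; ring
      rw [h2]; nlinarith
    have hM16 : (16 : ℝ) ≤ M := f2.trans (hXD.trans hMge)
    have hM2 : 2 ≤ M := by
      have : (2 : ℝ) ≤ M := by linarith
      exact_mod_cast this
    have hlogM : τ / 2 * Real.log D ≤ Real.log M := by
      rw [← Real.log_rpow hD0]
      apply Real.log_le_log (by positivity)
      linarith
    have hlogM0 : 0 < Real.log M := lt_of_lt_of_le (by positivity) hlogM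
    set B : ℝ := C * ((d : ℝ) / (Nat.totient d : ℝ)) * M / Real.log M with hB
    have hB0 : 0 < B := by rw [hB]; positivity
    set Gd : Finset ℕ := (Ioc ⌊β * d⌋₊ ⌊β * d + (d : ℝ) ^ η⌋₊).filter (fun a => a.Coprime d ∧
            ∃ p : ℕ, p.Prime ∧ p ≡ a [MOD d] ∧ (p : ℝ) < (d : ℝ) ^ (1 + ε)) with hGd
    have hRup : (classCount (PP X) d β H : ℝ) ≤ Gd.card * B := by
      unfold classCount
      push_cast
      have hsub : ∀ a ∈ Ioc ⌊β * d⌋₊ ⌊β * d + H⌋₊, a ∉ Gd →
          (((PP X).filter (fun p => p ≡ a [MOD d])).card : ℝ) = 0 := by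
        intro a ha haG
        by_contra hne
        apply haG
        have hne' : ((PP X).filter (fun p => p ≡ a [MOD d])).card ≠ 0 := by
          intro h; apply hne; rw [h]; simp
        rw [card_ne_zero] at hne'
        obtain ⟨p, hp⟩ := hne'
        rw [mem_filter, PP, mem_filter, mem_Ioc] at hp
        obtain ⟨⟨⟨hp1, hp2⟩, hpp⟩, hpa⟩ := hp
        have hp1' : (X : ℝ) < p := by exact_mod_cast hp1
        have hp2' : (p : ℝ) ≤ 2 * X := by exact_mod_cast hp2
        rw [hGd, mem_filter, mem_Ioc]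
        rw [mem_Ioc] at ha
        refine ⟨⟨ha.1, ha.2.trans (Nat.floor_le_floor ?_)⟩, ?_, p, hpp, hpa, ?_⟩
        · rw [hH]
          gcongr
        · have hcop : Nat.Coprime p d := by
            rw [Nat.Prime.coprime_iff_not_dvd hpp]
            intro hdvd
            have := Nat.le_of_dvd (by omega) hdvd
            have h1 : (p : ℝ) ≤ d := by exact_mod_cast this
            linarith
          have := hpa.gcd_eq
          unfold Nat.Coprime at hcop ⊢
          rw [← this]; exact hcop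
        · have h1 : (2 : ℝ) * D ^ (1 + τ) < (D : ℝ) ^ (1 + ε) := by
            have h2 : (D : ℝ) ^ (1 + τ) * (D : ℝ) ^ (τ / 2) ≤ (D : ℝ) ^ (1 + ε) := by
              rw [← Real.rpow_add hD0]
              apply Real.rpow_le_rpow_of_exponent_le hD1
              linarith
            have h3 : 0 < (D : ℝ) ^ (1 + τ) := by positivity
            nlinarith
          have h2 : (D : ℝ) ^ (1 + ε) ≤ (d : ℝ) ^ (1 + ε) := by
            apply Real.rpow_le_rpow hD0.le (by linarith) (by linarith)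
          linarith
      calc ∑ a ∈ Ioc ⌊β * d⌋₊ ⌊β * d + H⌋₊, (((PP X).filter (fun p => p ≡ a [MOD d])).card : ℝ)
          ≤ ∑ a ∈ Ioc ⌊β * d⌋₊ ⌊β * d + H⌋₊, (if a ∈ Gd then B else 0) := by
            refine sum_le_sum fun a ha => ?_
            split_ifs with haG
            · exact class_bt hBT hdn hM2 hMd
            · rw [hsub a ha haG]
        _ = (((Ioc ⌊β * d⌋₊ ⌊β * d + H⌋₊).filter (fun a => a ∈ Gd)).card : ℝ) * B := by
            rw [← sum_filter, sum_const, nsmul_eq_mul]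
        _ ≤ Gd.card * B := by
            gcongr
            intro a ha
            exact (mem_filter.mp ha).2
    have h1 : t ≤ Gd.card * B := hRlow.trans hRup
    have h2 : t / B ≤ Gd.card := by rw [div_le_iff₀ hB0]; exact h1
    refine le_trans ?_ h2
    rw [le_div_iff₀ hB0]
    -- c (φ/d) d^η B ≤ t
    have hdη : (d : ℝ) ^ η ≤ 2 * H := by
      calc (d : ℝ) ^ η ≤ (2 * D : ℝ) ^ η := by
            apply Real.rpow_le_rpow hd0.le (by linarith) hη.le
        _ = 2 ^ η * (D : ℝ) ^ η := Real.mul_rpow (by norm_num) hD0.le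
        _ ≤ 2 * H := by
            rw [hH]
            gcongr
            calc (2 : ℝ) ^ η ≤ 2 ^ (1 : ℝ) := Real.rpow_le_rpow_of_exponent_le (by norm_num) hη1.le
              _ = 2 := Real.rpow_one _
    have hBle : B ≤ C * ((d : ℝ) / (Nat.totient d : ℝ)) * (3 * X / D) / (τ / 2 * Real.log D) := by
      rw [hB]
      gcongr
    calc τ / (192 * C) * ((Nat.totient d : ℝ) / d) * (d : ℝ) ^ η * B ≤
        τ / (192 * C) * ((Nat.totient d : ℝ) / d) * (2 * H) *
          (C * ((d : ℝ) / (Nat.totient d : ℝ)) * (3 * X / D) / (τ / 2 * Real.log D)) := by gcongr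
      _ = H * X / (16 * D * Real.log D) := by
        field_simp
        ring
      _ ≤ (X / (2 * Real.log X)) * H / (4 * D) := by
        have e1 : (X / (2 * Real.log X)) * H / (4 * D) = H * X / (8 * D * Real.log X) := by
          field_simp; ring
        rw [e1]
        apply div_le_div_of_nonneg_left (by positivity) (by positivity)
        nlinarith
      _ ≤ t := by
        rw [ht]
        gcongr

end Pool.Agent.H438R2.DL
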