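import Pool.Agent.H438R2.DL.Gen2

open Finset MeasureTheory Filter

namespace Pool.Agent.H438R2.DL

open Pool.Agent.H469R2.NK (e norm_e)

/-- `L²` bound for the averaged difference over one piece (power saving version) -/
lemma AD_piece2 {P : Finset ℕ} {X : ℕ} {N : ℕ} {β σ s ω Ξ0 T CW Y η : ℝ}
    (hX : (1 : ℝ) ≤ X) (hT : 16 ≤ T) (hTX : T ^ 8 ≤ X)
    (hP : (P.card : ℝ) ≤ X) (hσ : σ = 0 ∨ σ = 1)
    (hs1 : 1 / (3 * T * X) ≤ s) (hsω : s ≤ ω) (hω : ω = 1 / T ^ 6) (hΞ0 : Ξ0 = T ^ 3)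
    (hη : η = CW / Ξ0) (hCW : 0 < CW) (hY : 0 < Y)
    (hK : ((Ico N (64 * N)).card : ℝ) ≤ 8 * X / Y)
    (hM1 : ∫ u, (Fw P (fun p : ℕ => Real.log p) s u) ^ 2 ≤ 4 * (X : ℝ) ^ 2 * T)
    (hM2 : ∫ u, (Fw P (fun p : ℕ => Real.log p) ω u) ^ 2 ≤ 4 * (X : ℝ) ^ 2 * T)
    (hW : ∀ ξ : ℝ, Ξ0 ≤ |ξ| → |ξ| ≤ (X : ℝ) ^ 6 →
      ‖∑ k ∈ Ico N (64 * N), e (Real.log ((k : ℝ) + β) * ξ)‖ ≤ η * (Ico N (64 * N)).card) :
    ∫ u, (ADl P (Ico N (64 * N)) β σ s ω u) ^ 2 ≤
      ((8 * X / Y) * (√(4 * (4 * (6 * Real.pi) ^ 2 + 4 * CW ^ 2) + 18 * Real.pi) * (X / T ^ 2))) ^ 2 := by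
  have hT0 : 0 < T := by linarith
  have hT1 : 1 ≤ T := by linarith
  have hX0 : (0 : ℝ) < X := by linarith
  have hs0 : 0 < s := lt_of_lt_of_le (by positivity) hs1
  have hpi := Real.pi_pos
  have hω0 : 0 < ω := by rw [hω]; positivity
  have hΞ00 : 0 < Ξ0 := by rw [hΞ0]; positivity
  have hωΞ : ω * Ξ0 = 1 / T ^ 3 := by
    rw [hω, hΞ0]
    field_simp
  have h256 : (256 : ℝ) ≤ T ^ 3 := by
    calc (256 : ℝ) ≤ 16 ^ 3 := by norm_num
      _ ≤ T ^ 3 := by gcongr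
  have hη0 : 0 ≤ η := by rw [hη]; positivity
  have ho : |-(σ * s)| ≤ ω := by
    rw [abs_neg]
    rcases hσ with rfl | rfl
    · simp; exact hω0.le
    · rw [one_mul, abs_of_pos hs0]; exact hsω
  have hcore := core P (fun p : ℕ => Real.log p) (Ico N (64 * N)) (fun k : ℕ => Real.log ((k : ℝ) + β))
    (o := -(σ * s)) (τ := s) (ω := ω) (Ξ0 := Ξ0) (Ξ1 := (X : ℝ) ^ 6) (η := η) (M := 4 * (X : ℝ) ^ 2 * T)
    hs0 hsω ho hΞ00.le (by
      rw [mul_assoc, hωΞ, mul_one_div, div_le_div_iff₀ (by positivity) (by norm_num)]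
      have := Real.pi_lt_four
      linarith) (by positivity) hη0 hM1 hM2 hW
  change ∫ u, (ADl P (Ico N (64 * N)) β σ s ω u) ^ 2 ≤ _ at hcore
  refine hcore.trans ?_
  set Cc : ℝ := 4 * (4 * (6 * Real.pi) ^ 2 + 4 * CW ^ 2) + 18 * Real.pi with hCc
  have hCc0 : 0 ≤ Cc := by rw [hCc]; positivity
  have erhs : (8 * X / Y * (√Cc * (X / T ^ 2))) ^ 2 =
      (8 * X / Y) ^ 2 * (Cc * (X / T ^ 2) ^ 2) := by
    rw [mul_pow, mul_pow, Real.sq_sqrt hCc0]
  rw [erhs]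
  have hstuff : (4 * (6 * Real.pi * ω * Ξ0) ^ 2 + 4 * η ^ 2) * (4 * (X : ℝ) ^ 2 * T) +
      2 * Real.pi * (P.card : ℝ) ^ 2 / (s ^ 2 * (X : ℝ) ^ 6) ≤ Cc * (X / T ^ 2) ^ 2 := by
    have h1 : (6 * Real.pi * ω * Ξ0) ^ 2 = (6 * Real.pi) ^ 2 * (1 / T ^ 6) := by
      rw [mul_assoc (6 * Real.pi), hωΞ]; field_simp
    have h2 : η ^ 2 = CW ^ 2 * (1 / T ^ 6) := by
      rw [hη, hΞ0]; field_simp
    have h4 : (4 * (6 * Real.pi * ω * Ξ0) ^ 2 + 4 * η ^ 2) * (4 * (X : ℝ) ^ 2 * T) ≤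
        4 * (4 * (6 * Real.pi) ^ 2 + 4 * CW ^ 2) * (X / T ^ 2) ^ 2 := by
      rw [h1, h2]
      have e1 : (4 * ((6 * Real.pi) ^ 2 * (1 / T ^ 6)) + 4 * (CW ^ 2 * (1 / T ^ 6))) * (4 * (X : ℝ) ^ 2 * T) =
          4 * (4 * (6 * Real.pi) ^ 2 + 4 * CW ^ 2) * ((X : ℝ) ^ 2 * (1 / T ^ 5)) := by
        field_simp
      rw [e1]
      apply mul_le_mul_of_nonneg_left _ (by positivity)
      rw [div_pow, div_eq_mul_one_div ((X : ℝ) ^ 2), ← pow_mul]
      apply mul_le_mul_of_nonneg_left _ (by positivity)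
      apply one_div_le_one_div_of_le (by positivity)
      exact pow_le_pow_right₀ hT1 (by norm_num)
    have h5 : 2 * Real.pi * (P.card : ℝ) ^ 2 / (s ^ 2 * (X : ℝ) ^ 6) ≤
        18 * Real.pi * (X / T ^ 2) ^ 2 := by
      have h6 : 2 * Real.pi * (P.card : ℝ) ^ 2 / (s ^ 2 * (X : ℝ) ^ 6) ≤
          2 * Real.pi * (X : ℝ) ^ 2 / ((1 / (3 * T * X)) ^ 2 * (X : ℝ) ^ 6) := by gcongr
      refine h6.trans ?_
      have e2 : 2 * Real.pi * (X : ℝ) ^ 2 / ((1 / (3 * T * X)) ^ 2 * (X : ℝ) ^ 6) =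
          18 * Real.pi * (T ^ 2 / (X : ℝ) ^ 2) := by
        field_simp
        ring
      rw [e2]
      apply mul_le_mul_of_nonneg_left _ (by positivity)
      rw [div_pow, ← pow_mul, div_le_div_iff₀ (by positivity) (by positivity)]
      calc T ^ 2 * T ^ (2 * 2) = T ^ 6 := by ring
        _ ≤ T ^ 8 := pow_le_pow_right₀ hT1 (by norm_num)
        _ ≤ X := hTX
        _ ≤ (X : ℝ) ^ 2 * (X : ℝ) ^ 2 := by
          have : (1 : ℝ) ≤ (X : ℝ) ^ 3 := one_le_pow₀ hX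
          nlinarith
    calc _ ≤ 4 * (4 * (6 * Real.pi) ^ 2 + 4 * CW ^ 2) * (X / T ^ 2) ^ 2 +
          18 * Real.pi * (X / T ^ 2) ^ 2 := add_le_add h4 h5
      _ = _ := by rw [hCc]; ring
  apply mul_le_mul _ hstuff (by positivity) (by positivity)
  gcongr

theorem G2 (δ : ℝ) (hδ : 0 < δ) (hδ1 : δ < 1) :
    ∃ κ : ℝ, 0 < κ ∧ κ ≤ δ / 16 ∧ ∃ X₀ : ℕ, 3 ≤ X₀ ∧ ∀ X : ℕ, X₀ ≤ X → ∀ P : Finset ℕ, P ⊆ Ioc X (2 * X) →
      ∀ (Y H β σ : ℝ), 0 < Y → Y ≤ (X:ℝ) ^ (1 - δ) →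
      (X : ℝ) ^ (-κ) ≤ H → H ≤ Y → 0 ≤ β → β ≤ 1 → (σ = 0 ∨ σ = 1) →
      ∫ y in Set.Icc Y (2 * Y), dv P (Ico ⌊X / (8 * Y)⌋₊ (64 * ⌊X / (8 * Y)⌋₊)) β σ H y ≤
        H * (X : ℝ) ^ (1 - κ) := by
  set Q : ℕ := ⌈12 / δ⌉₊ + 1 with hQ
  obtain ⟨η', hη'0, hη'1, CW, hCW, hW⟩ := W_bound Q (by omega)
  set c : ℝ := δ * η' / 16 with hc
  have hc0 : 0 < c := by rw [hc]; positivity
  have hcδ : c ≤ δ / 16 := by rw [hc]; nlinarith
  set Cc : ℝ := 4 * (4 * (6 * Real.pi) ^ 2 + 4 * CW ^ 2) + 18 * Real.pi with hCc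
  have hpi := Real.pi_pos
  have hCc0 : 0 < Cc := by rw [hCc]; positivity
  set C0 : ℝ := 128 * √Cc + 12 with hC0
  have hC00 : 0 < C0 := by rw [hC0]; positivity
  have ev1 : ∀ᶠ X : ℕ in atTop, 16 ≤ (X : ℝ) ^ c :=
    ((tendsto_rpow_atTop hc0).comp tendsto_natCast_atTop_atTop).eventually_ge_atTop 16
  have ev2 : ∀ᶠ X : ℕ in atTop, C0 ≤ (X : ℝ) ^ (c / 2) :=
    ((tendsto_rpow_atTop (by positivity)).comp tendsto_natCast_atTop_atTop).eventually_ge_atTop C0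
  have ev3 : ∀ᶠ X : ℕ in atTop, 1000 ≤ (X : ℝ) ^ c :=
    ((tendsto_rpow_atTop hc0).comp tendsto_natCast_atTop_atTop).eventually_ge_atTop 1000
  obtain ⟨X₀, hX₀⟩ := (ev1.and (ev2.and ev3)).exists_forall_of_atTop
  refine ⟨c / 2, by positivity, by linarith, max 3 X₀, le_max_left _ _, ?_⟩
  intro X hX P hP Y H β σ hY hYX hHl hHY hβ0 hβ1 hσ
  obtain ⟨hT16, hXC0, hT1000⟩ := hX₀ X ((le_max_right _ _).trans hX)
  have hX3 : 3 ≤ X := (le_max_left _ _).trans hX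
  have hX3' : (3 : ℝ) ≤ X := by exact_mod_cast hX3
  have hX0 : (0 : ℝ) < X := by linarith
  have hX1r : (1 : ℝ) ≤ X := by linarith
  set T : ℝ := (X : ℝ) ^ c with hTdef
  have hT0 : 0 < T := by linarith
  have hT1 : 1 ≤ T := by linarith
  have hTpow : ∀ n : ℕ, (n : ℝ) * c ≤ δ → T ^ n ≤ (X : ℝ) ^ δ := by
    intro n hn
    rw [hTdef, ← Real.rpow_natCast, ← Real.rpow_mul hX0.le]
    apply Real.rpow_le_rpow_of_exponent_le hX1r
    linarith
  have hT16δ : T ^ 16 ≤ (X : ℝ) ^ δ := hTpow 16 (by push_cast; linarith)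
  have hXδX : (X : ℝ) ^ δ ≤ X := by
    calc (X : ℝ) ^ δ ≤ (X : ℝ) ^ (1 : ℝ) := Real.rpow_le_rpow_of_exponent_le hX1r hδ1.le
      _ = X := Real.rpow_one _
  have hT8X : T ^ 8 ≤ X := (pow_le_pow_right₀ hT1 (by norm_num)).trans (hT16δ.trans hXδX)
  have hHT : 1 / T ≤ H := by
    refine le_trans ?_ hHl
    rw [hTdef, one_div, ← Real.rpow_neg hX0.le]
    apply Real.rpow_le_rpow_of_exponent_le hX1r
    linarith
  have hH0 : 0 < H := lt_of_lt_of_le (by positivity) hHT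
  have hXδ0 : 0 < (X : ℝ) ^ δ := by positivity
  have hXsplit : (X : ℝ) ^ (1 - δ) * (X : ℝ) ^ δ = X := by
    rw [← Real.rpow_add hX0]; simp
  have hYXδ : Y * (X : ℝ) ^ δ ≤ X := by
    calc Y * (X : ℝ) ^ δ ≤ (X : ℝ) ^ (1 - δ) * (X : ℝ) ^ δ := by gcongr
      _ = X := hXsplit
  have hYX' : Y / X ≤ 1 / (X : ℝ) ^ δ := by
    rw [div_le_div_iff₀ hX0 hXδ0]; linarith
  have hYT : Y / X ≤ 1 / T ^ 16 := hYX'.trans (one_div_le_one_div_of_le (by positivity) hT16δ)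
  have hHX' : H / X ≤ 1 / T ^ 16 := le_trans (by gcongr) hYT
  have hXδ1000 : 1000 ≤ (X : ℝ) ^ δ := by
    refine hT1000.trans (le_trans ?_ hT16δ)
    calc T = T ^ 1 := (pow_one T).symm
      _ ≤ T ^ 16 := pow_le_pow_right₀ hT1 (by norm_num)
  have hXYbig : 1000 ≤ X / Y := by
    rw [le_div_iff₀ hY]
    nlinarith
  have hH2 : H ≤ X / 2 := by
    have h1 : Y * 1000 ≤ X := by
      calc Y * 1000 ≤ Y * (X : ℝ) ^ δ := by gcongr
        _ ≤ X := hYXδ
    linarith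
  -- N
  set N : ℕ := ⌊X / (8 * Y)⌋₊ with hN
  have hX8 : X / (8 * Y) = (X / Y) / 8 := by field_simp
  have hNle : (N : ℝ) ≤ X / Y / 8 := by
    rw [← hX8]; exact Nat.floor_le (by positivity)
  have hNge : X / Y / 16 ≤ N := by
    have h1 := Nat.lt_floor_add_one (X / (8 * Y))
    rw [← hN, hX8] at h1
    linarith
  have hN1r : (1 : ℝ) ≤ N := by linarith
  have hN1 : 1 ≤ N := by exact_mod_cast hN1r
  have hN0 : (0 : ℝ) < N := by linarith
  have hNδ : (X : ℝ) ^ (δ / 2) ≤ N := by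
    refine le_trans ?_ hNge
    have h1 : (X : ℝ) ^ δ ≤ X / Y := by
      rw [le_div_iff₀ hY]; linarith
    have h2 : (X : ℝ) ^ (δ / 2) * (X : ℝ) ^ (δ / 2) = (X : ℝ) ^ δ := by
      rw [← Real.rpow_add hX0]; congr 1; ring
    have h3 : 16 ≤ (X : ℝ) ^ (δ / 2) := by
      refine hT16.trans ?_
      rw [hTdef]
      apply Real.rpow_le_rpow_of_exponent_le hX1r
      linarith
    nlinarith
  set K := Ico N (64 * N) with hKdef
  have hKcard : (K.card : ℝ) = 63 * N := by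
    rw [hKdef, Nat.card_Ico]
    rw [show 64 * N - N = 63 * N by omega]; push_cast; ring
  have hK8 : (K.card : ℝ) ≤ 8 * X / Y := by
    rw [hKcard]
    have : 8 * X / Y = 8 * (X / Y) := by ring
    rw [this]; linarith
  -- parameters
  set Ξ0 : ℝ := T ^ 3 with hΞ0
  set ω : ℝ := 1 / T ^ 6 with hω
  set η : ℝ := CW / Ξ0 with hη
  have hΞ01 : 1 ≤ Ξ0 := one_le_pow₀ hT1
  have hΞ00 : 0 < Ξ0 := by linarith
  have hω0 : 0 < ω := by rw [hω]; positivity
  have hωA : ω ≤ 1 / T := by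
    rw [hω]
    apply one_div_le_one_div_of_le hT0
    calc T = T ^ 1 := (pow_one T).symm
      _ ≤ T ^ 6 := pow_le_pow_right₀ hT1 (by norm_num)
  have hω1 : ω ≤ 1 / 16 := hωA.trans (one_div_le_one_div_of_le (by norm_num) hT16)
  have hWb : ∀ ξ : ℝ, Ξ0 ≤ |ξ| → |ξ| ≤ (X : ℝ) ^ 6 →
      ‖∑ k ∈ Ico N (64 * N), e (Real.log ((k : ℝ) + β) * ξ)‖ ≤ η * (Ico N (64 * N)).card := by
    intro ξ h1 h2
    have hXQ : (X : ℝ) ^ 6 ≤ (N : ℝ) ^ Q := by
      calc (X : ℝ) ^ 6 = (X : ℝ) ^ (6 : ℝ) := by rw [← Real.rpow_natCast]; norm_num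
        _ ≤ (X : ℝ) ^ (δ / 2 * Q) := by
          apply Real.rpow_le_rpow_of_exponent_le hX1r
          have h3 : 12 / δ ≤ Q := by
            rw [hQ]; push_cast
            have := Nat.le_ceil (12 / δ)
            linarith
          rw [div_le_iff₀ hδ] at h3
          linarith
        _ = ((X : ℝ) ^ (δ / 2)) ^ Q := by rw [Real.rpow_mul hX0.le, Real.rpow_natCast]
        _ ≤ (N : ℝ) ^ Q := by gcongr
    have h3 := hW N β ξ hN1 hβ0 hβ1 (hΞ01.trans h1) (h2.trans hXQ)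
    refine h3.trans ?_
    have h4 : 1 / |ξ| ≤ 1 / Ξ0 := one_div_le_one_div_of_le hΞ00 h1
    have h5 : (N : ℝ) ^ (-η') ≤ 1 / Ξ0 := by
      rw [Real.rpow_neg hN0.le, ← one_div]
      apply one_div_le_one_div_of_le hΞ00
      calc Ξ0 = T ^ 3 := hΞ0
        _ ≤ T ^ 8 := pow_le_pow_right₀ hT1 (by norm_num)
        _ = ((X : ℝ) ^ (δ / 2)) ^ η' := by
          rw [hTdef, ← Real.rpow_natCast, ← Real.rpow_mul hX0.le, ← Real.rpow_mul hX0.le]
          congr 1
          rw [hc]; push_cast; ring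
        _ ≤ (N : ℝ) ^ η' := by gcongr
    have h6 : ((Ico N (64 * N)).card : ℝ) = 63 * N := hKcard
    rw [h6]
    calc CW * N * (1 / |ξ| + (N : ℝ) ^ (-η')) ≤ CW * N * (1 / Ξ0 + 1 / Ξ0) := by gcongr
      _ = 2 * (CW / Ξ0) * N := by ring
      _ ≤ 63 * (CW / Ξ0) * N := by gcongr; norm_num
      _ = η * (63 * N) := by rw [hη]; ring
  -- J
  set J : ℕ := ⌈T⌉₊ with hJ
  have hJge : T ≤ J := Nat.le_ceil _
  have hJle : (J : ℝ) ≤ 2 * T := by
    have := (Nat.ceil_lt_add_one (a := T) (by positivity)).le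
    rw [← hJ] at this
    linarith
  have hJ0r : (0 : ℝ) < J := by linarith
  have hJ0 : 0 < J := by exact_mod_cast hJ0r
  have hXpos : 0 < X := by omega
  -- small quantities
  have h2HX : 2 * H / X ≤ ω := by
    rw [hω, mul_div_assoc]
    calc 2 * (H / X) ≤ 2 * (1 / T ^ 16) := by gcongr
      _ ≤ 1 / T ^ 6 := by
        rw [mul_one_div, div_le_div_iff₀ (by positivity) (by positivity)]
        calc 2 * T ^ 6 ≤ T * T ^ 6 := by gcongr; linarith
          _ = T ^ 7 := by ring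
          _ ≤ 1 * T ^ 16 := by rw [one_mul]; exact pow_le_pow_right₀ hT1 (by norm_num)
  have hs_lower : ∀ D : ℝ, 0 < D → D ≤ 3 * X → 1 / (3 * T * X) ≤ H / D := by
    intro D hD hDX
    calc 1 / (3 * T * X) = (1 / T) / (3 * X) := by field_simp
      _ ≤ H / (3 * X) := by gcongr
      _ ≤ H / D := by gcongr
  have hMb : ∀ s : ℝ, 1 / (3 * T * X) ≤ s → ∀ P' : Finset ℕ, P' ⊆ P →
      ∫ u, (Fw P' (fun p : ℕ => Real.log p) s u) ^ 2 ≤ 4 * (X : ℝ) ^ 2 * T := by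
    intro s hs1 P' hP'
    have hs0 : 0 < s := lt_of_lt_of_le (by positivity) hs1
    refine (triv_L2 hXpos (hP'.trans hP) hs0).trans ?_
    have h1 : (P'.card : ℝ) ≤ X := card_P_le (hP'.trans hP)
    have h2 : 1 / s ≤ 3 * T * X := by
      rw [div_le_iff₀ hs0]
      rw [div_le_iff₀ (by positivity)] at hs1
      linarith
    calc (P'.card : ℝ) * (4 * X + 1 / s) ≤ X * (4 * X + 3 * T * X) := by gcongr
      _ = (X : ℝ) ^ 2 * (4 + 3 * T) := by ring
      _ ≤ (X : ℝ) ^ 2 * (4 * T) := by gcongr; linarith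
      _ = _ := by ring
  have hωlow : 1 / (3 * T * X) ≤ ω := by
    rw [hω]
    apply one_div_le_one_div_of_le (by positivity)
    calc T ^ 6 ≤ T ^ 8 := pow_le_pow_right₀ hT1 (by norm_num)
      _ ≤ X := hT8X
      _ ≤ 3 * T * X := by nlinarith
  set S : ℝ := √Cc * (X / T ^ 2) with hS
  have hS0 : 0 < S := by rw [hS]; positivity
  -- the L1 bound for each piece and admissible s
  have hL1b : ∀ P' : Finset ℕ, P' ⊆ P → ∀ s : ℝ, 1 / (3 * T * X) ≤ s → s ≤ ω →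
      IntegrableOn (fun y => |ADl P' K β σ s ω (Real.log y)|) (Set.Icc Y (2 * Y)) ∧
      ∫ y in Set.Icc Y (2 * Y), |ADl P' K β σ s ω (Real.log y)| ≤ 16 * X * S := by
    intro P' hP' s hs1 hs2
    have hs0 : 0 < s := lt_of_lt_of_le (by positivity) hs1
    have hPX : (P'.card : ℝ) ≤ X := card_P_le (hP'.trans hP)
    have h1 := AD_piece2 (P := P') (X := X) (N := N) (β := β) (σ := σ) (s := s) (ω := ω) (Ξ0 := Ξ0)
      (T := T) (CW := CW) (Y := Y) (η := η) hX1r hT16 hT8X hPX hσ hs1 hs2 hω hΞ0 hη hCW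
      hY hK8 (hMb s hs1 P' hP') (hMb ω hωlow P' hP') hWb
    rw [← hCc, ← hS] at h1
    have h2 : Integrable (fun u => ADl P' K β σ s ω u ^ 2) := by
      have h3 := (AD_L2 P' (fun p : ℕ => Real.log p) K (fun k : ℕ => Real.log ((k : ℝ) + β)) (-(σ * s)) s ω)
      have h4 := h3.integrable_norm_pow (by norm_num)
      have e0 : ∀ r : ℝ, ‖(r : ℂ)‖ ^ 2 = r ^ 2 := by
        intro r
        rw [Complex.norm_real, Real.norm_eq_abs, sq_abs]
      simpa [e0, ADl] using h4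
    have h5 := change (g := ADl P' K β σ s ω)
      (AD_measurable _ _ _ _ _ _ _) (fun u => AD_bounded P' (fun p : ℕ => Real.log p) K (fun k : ℕ => Real.log ((k : ℝ) + β))
        (o := -(σ * s)) hs0 hω0 u) h2 hY (E := ((8 * X / Y) * S) ^ 2) (by positivity) h1
    refine ⟨h5.1, h5.2.trans (le_of_eq ?_)⟩
    rw [Real.sqrt_sq (by positivity)]
    field_simp
    ring
  -- pieces
  set N1 : ℕ → ℝ := fun j => X + j * (X / J) with hN1def
  set N2 : ℕ → ℝ := fun j => X + ((j : ℝ) + 1) * (X / J) with hN2def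
  have hXJ : 0 < (X : ℝ) / J := by positivity
  have hN1X : ∀ j, (X : ℝ) ≤ N1 j := fun j => by simp only [hN1def]; nlinarith [Nat.cast_nonneg (α := ℝ) j]
  have hN12 : ∀ j, N2 j - N1 j = X / J := fun j => by simp only [hN1def, hN2def]; ring
  have hN2X : ∀ j ∈ range J, N2 j ≤ 2 * X := by
    intro j hj
    have h1 : (j : ℝ) + 1 ≤ J := by exact_mod_cast mem_range.mp hj
    simp only [hN2def]
    have h2 : ((j : ℝ) + 1) * (X / J) ≤ J * (X / J) := by gcongr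
    have h3 : (J : ℝ) * (X / J) = X := by field_simp
    linarith
  have hPjsub : ∀ j, Pk P X J j ⊆ P := fun j => filter_subset _ _
  set κ : ℝ := 4 * ω + 4 * Y / (X * ω) + 2 * (X / J + H) / X with hκ
  have hpt : ∀ y ∈ Set.Icc Y (2 * Y), dv P K β σ H y ≤
      (∑ j ∈ range J, ((2 * H / X) * |ADl (Pk P X J j) K β σ (H / (N1 j - H)) ω (Real.log y)| +
        (2 * H / X) * |ADl (Pk P X J j) K β σ (H / (N2 j + H)) ω (Real.log y)|)) + X * ((H / Y) * κ) := by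
    intro y hy
    have hy0 : 0 < y := hY.trans_le hy.1
    unfold dv
    rw [cnt_split' hXpos hJ0 hP, card_split' hXpos hJ0 hP, sum_mul, ← sum_sub_distrib]
    refine (abs_sum_le_sum_abs _ _).trans ?_
    have hj : ∀ j ∈ range J, |cnt (Pk P X J j) K β σ H y - ((Pk P X J j).card : ℝ) * (H / y)| ≤
        ((2 * H / X) * |ADl (Pk P X J j) K β σ (H / (N1 j - H)) ω (Real.log y)| +
        (2 * H / X) * |ADl (Pk P X J j) K β σ (H / (N2 j + H)) ω (Real.log y)|) +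
        ((Pk P X J j).card : ℝ) * ((H / Y) * κ) := by
      intro j hj
      have hp := piece_est (Pk P X J j) N (β := β) (σ := σ) (H := H) (N1 := N1 j) (N2 := N2 j) (X := X) (ω := ω)
        (y := y) hσ hω0 (by linarith) hy0 hX0 hβ0 hN1 hH0 hH2 (hN1X j) (by have := hN12 j; linarith) (hN2X j hj)
        (fun p hp => by
          rw [Pk, mem_filter] at hp
          obtain ⟨hp1, hp2⟩ := hp
          obtain ⟨-, h1, h2⟩ := jf_spec' hXpos hJ0 (hP hp1)
          rw [hp2] at h1 h2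
          exact ⟨h1, h2⟩)
        (fun p hp => by
          have hp1 := hP (hPjsub j hp)
          rw [mem_Ioc] at hp1
          have hp2 : (X : ℝ) < p := by exact_mod_cast hp1.1
          have hp3 : (p : ℝ) ≤ 2 * X := by exact_mod_cast hp1.2
          have he : 1 / 2 ≤ Real.exp (-ω) := by
            have := Real.add_one_le_exp (-ω); linarith
          constructor
          · have h1 : X / Y / 4 ≤ Real.exp (-ω) * p / y := by
              rw [div_div, div_le_div_iff₀ (by positivity) hy0]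
              have h2 : y ≤ 2 * Y := hy.2
              calc (X : ℝ) * y ≤ X * (2 * Y) := by gcongr
                _ = (1 / 2 * X) * (Y * 4) := by ring
                _ ≤ (Real.exp (-ω) * p) * (Y * 4) := by gcongr
            linarith
          · have h1 : (p : ℝ) / y ≤ 2 * (X / Y) := by
              rw [← mul_div_assoc]
              apply div_le_div₀ (by positivity) hp3 hY hy.1
            linarith)
      refine hp.trans ?_
      apply add_le_add le_rfl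
      apply mul_le_mul_of_nonneg_left _ (Nat.cast_nonneg _)
      have h7 : H / y ≤ H / Y := by
        apply div_le_div_of_nonneg_left hH0.le hY hy.1
      have h8 : 4 * ω + 2 * y / (X * ω) + 2 * (N2 j - N1 j + H) / X ≤ κ := by
        rw [hN12 j, hκ]
        have : 2 * y / (X * ω) ≤ 4 * Y / (X * ω) := by
          apply div_le_div_of_nonneg_right _ (by positivity)
          linarith [hy.2]
        linarith
      have h9 : 0 ≤ 4 * ω + 2 * y / (X * ω) + 2 * (N2 j - N1 j + H) / X := by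
        rw [hN12 j]; positivity
      apply mul_le_mul h7 h8 h9 (by positivity)
    refine (sum_le_sum hj).trans ?_
    rw [sum_add_distrib, ← sum_mul, ← card_split' hXpos hJ0 hP]
    have := card_P_le hP
    gcongr
  -- integrate
  have hadm1 : ∀ j ∈ range J, 1 / (3 * T * X) ≤ H / (N1 j - H) ∧ H / (N1 j - H) ≤ ω := by
    intro j hj
    have h1 := hN1X j
    have h2 := hN2X j hj
    have h3 := hN12 j
    constructor
    · apply hs_lower _ (by linarith) (by linarith)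
    · refine le_trans ?_ h2HX
      rw [div_le_div_iff₀ (by linarith) hX0]
      nlinarith
  have hadm2 : ∀ j ∈ range J, 1 / (3 * T * X) ≤ H / (N2 j + H) ∧ H / (N2 j + H) ≤ ω := by
    intro j hj
    have h1 := hN1X j
    have h2 := hN2X j hj
    have h3 := hN12 j
    constructor
    · apply hs_lower _ (by linarith) (by linarith)
    · refine le_trans ?_ h2HX
      rw [div_le_div_iff₀ (by linarith) hX0]
      nlinarith
  have hI1 : ∀ j ∈ range J, IntegrableOn (fun y => (2 * H / X) * |ADl (Pk P X J j) K β σ (H / (N1 j - H)) ω (Real.log y)| +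
        (2 * H / X) * |ADl (Pk P X J j) K β σ (H / (N2 j + H)) ω (Real.log y)|) (Set.Icc Y (2 * Y)) := by
    intro j hj
    exact ((hL1b _ (hPjsub j) _ (hadm1 j hj).1 (hadm1 j hj).2).1.const_mul _).add
      ((hL1b _ (hPjsub j) _ (hadm2 j hj).1 (hadm2 j hj).2).1.const_mul _)
  have hIc : IntegrableOn (fun _ : ℝ => (X : ℝ) * ((H / Y) * κ)) (Set.Icc Y (2 * Y)) :=
    continuous_const.integrableOn_Icc
  have hIs : IntegrableOn (fun y => ∑ j ∈ range J,
      ((2 * H / X) * |ADl (Pk P X J j) K β σ (H / (N1 j - H)) ω (Real.log y)| +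
        (2 * H / X) * |ADl (Pk P X J j) K β σ (H / (N2 j + H)) ω (Real.log y)|)) (Set.Icc Y (2 * Y)) :=
    integrable_finsetSum _ hI1
  have hfin := setIntegral_mono_on (dv_int P K β σ H hY) (hIs.add hIc) measurableSet_Icc hpt
  have e0 : ∫ y in Set.Icc Y (2 * Y), ((fun y => ∑ j ∈ range J,
      ((2 * H / X) * |ADl (Pk P X J j) K β σ (H / (N1 j - H)) ω (Real.log y)| +
        (2 * H / X) * |ADl (Pk P X J j) K β σ (H / (N2 j + H)) ω (Real.log y)|)) +
        (fun _ : ℝ => (X : ℝ) * ((H / Y) * κ))) y = _ := integral_add' hIs hIc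
  refine (hfin.trans (le_of_eq e0)).trans ?_
  rw [integral_finsetSum _ hI1]
  have hconst : ∫ y in Set.Icc Y (2 * Y), (X : ℝ) * ((H / Y) * κ) = X * H * κ := by
    rw [setIntegral_const, smul_eq_mul]
    unfold Measure.real
    rw [Real.volume_Icc, ENNReal.toReal_ofReal (by linarith)]
    field_simp
    ring
  rw [hconst]
  have hsum : ∑ j ∈ range J, ∫ y in Set.Icc Y (2 * Y), ((2 * H / X) * |ADl (Pk P X J j) K β σ (H / (N1 j - H)) ω (Real.log y)| +
        (2 * H / X) * |ADl (Pk P X J j) K β σ (H / (N2 j + H)) ω (Real.log y)|) ≤ J * (64 * H * S) := by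
    have : ∀ j ∈ range J, ∫ y in Set.Icc Y (2 * Y), ((2 * H / X) * |ADl (Pk P X J j) K β σ (H / (N1 j - H)) ω (Real.log y)| +
        (2 * H / X) * |ADl (Pk P X J j) K β σ (H / (N2 j + H)) ω (Real.log y)|) ≤ 64 * H * S := by
      intro j hj
      obtain ⟨i1, b1⟩ := hL1b _ (hPjsub j) _ (hadm1 j hj).1 (hadm1 j hj).2
      obtain ⟨i2, b2⟩ := hL1b _ (hPjsub j) _ (hadm2 j hj).1 (hadm2 j hj).2
      rw [integral_add (i1.const_mul _) (i2.const_mul _), integral_const_mul, integral_const_mul]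
      have c1 := mul_le_mul_of_nonneg_left b1 (by positivity : 0 ≤ 2 * H / X)
      have c2 := mul_le_mul_of_nonneg_left b2 (by positivity : 0 ≤ 2 * H / X)
      have e1 : 2 * H / X * (16 * X * S) = 32 * H * S := by field_simp; ring
      rw [e1] at c1 c2
      linarith
    refine (sum_le_sum this).trans ?_
    rw [sum_const, card_range, nsmul_eq_mul]
  have hκb : κ ≤ 12 / T := by
    have hTT : 1 / T ^ 10 ≤ 1 / T := by
      apply one_div_le_one_div_of_le hT0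
      calc T = T ^ 1 := (pow_one T).symm
        _ ≤ T ^ 10 := pow_le_pow_right₀ hT1 (by norm_num)
    have a2 : 4 * Y / (X * ω) ≤ 4 / T := by
      have : 4 * Y / (X * ω) = 4 * (Y / X) * T ^ 6 := by
        rw [hω]; field_simp
      rw [this]
      calc 4 * (Y / X) * T ^ 6 ≤ 4 * (1 / T ^ 16) * T ^ 6 := by gcongr
        _ = 4 * (1 / T ^ 10) := by field_simp
        _ ≤ 4 * (1 / T) := by gcongr
        _ = 4 / T := by ring
    have a3 : 2 * (X / J + H) / X ≤ 4 / T := by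
      have e1 : 2 * (X / J + H) / X = 2 * (1 / J) + 2 * (H / X) := by field_simp
      rw [e1]
      have b1 : 1 / (J : ℝ) ≤ 1 / T := one_div_le_one_div_of_le hT0 hJge
      have b2 : H / X ≤ 1 / T := by
        refine hHX'.trans (one_div_le_one_div_of_le hT0 ?_)
        calc T = T ^ 1 := (pow_one T).symm
          _ ≤ T ^ 16 := pow_le_pow_right₀ hT1 (by norm_num)
      have e2 : 4 / T = 2 * (1 / T) + 2 * (1 / T) := by ring
      rw [e2]; linarith
    have e3 : 12 / T = 4 * (1 / T) + 4 / T + 4 / T := by ring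
    rw [hκ, e3]
    linarith
  have hJS : J * (64 * H * S) ≤ 128 * √Cc * (H * X / T) := by
    rw [hS]
    calc (J : ℝ) * (64 * H * (√Cc * (X / T ^ 2))) ≤ (2 * T) * (64 * H * (√Cc * (X / T ^ 2))) := by
          gcongr
      _ = _ := by field_simp; ring
  have hκ2 : (X : ℝ) * H * κ ≤ 12 * (H * X / T) := by
    calc (X : ℝ) * H * κ ≤ X * H * (12 / T) := by gcongr
      _ = _ := by ring
  have htot : (∑ j ∈ range J, ∫ y in Set.Icc Y (2 * Y), ((2 * H / X) * |ADl (Pk P X J j) K β σ (H / (N1 j - H)) ω (Real.log y)| +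
        (2 * H / X) * |ADl (Pk P X J j) K β σ (H / (N2 j + H)) ω (Real.log y)|)) + X * H * κ ≤ C0 * (H * X / T) := by
    have := hsum.trans hJS
    rw [hC0]
    linarith
  refine htot.trans ?_
  have hTsplit : T = (X : ℝ) ^ (c / 2) * (X : ℝ) ^ (c / 2) := by
    rw [hTdef, ← Real.rpow_add hX0]; congr 1; ring
  have hXc : (X : ℝ) ^ (1 - c / 2) = X / (X : ℝ) ^ (c / 2) := by
    rw [Real.rpow_sub hX0, Real.rpow_one]
  rw [hXc]
  have hq : 0 < (X : ℝ) ^ (c / 2) := by positivity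
  calc C0 * (H * X / T) ≤ (X : ℝ) ^ (c / 2) * (H * X / T) := by gcongr
    _ = H * (X / (X : ℝ) ^ (c / 2)) := by
      rw [hTsplit]; field_simp

end Pool.Agent.H438R2.DL
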