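import Pool.Agent.H438R2.DL.L2

open Finset

namespace Pool.Agent.H438R2.DL

/-- pairs `(k, p)`, `k ∈ K`, `p ∈ P`, with `p` in the window of length `H` at `(k + β) y` -/
noncomputable def cnt (P K : Finset ℕ) (β σ H y : ℝ) : ℝ :=
  ∑ k ∈ K, ((P.filter (fun p : ℕ => ((k : ℝ) + β) * y - σ * H < p ∧ (p : ℝ) ≤ ((k : ℝ) + β) * y + (1 - σ) * H)).card : ℝ)

lemma sand_lower {σ H N1 N2 z p : ℝ} (hσ : σ = 0 ∨ σ = 1) (hz : 0 < z) (hH : 0 < H) (hN1 : 0 < N1)
    (hp1 : N1 < p) (hp2 : p ≤ N2)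
    (h : Real.log z - σ * (H / (N2 + H)) < Real.log p ∧ Real.log p ≤ Real.log z + (1 - σ) * (H / (N2 + H))) :
    z - σ * H < p ∧ p ≤ z + (1 - σ) * H := by
  have hp0 : 0 < p := by linarith
  have hN2 : 0 < N2 := by linarith
  have ht : 0 < H / (N2 + H) := by positivity
  have ht1 : H / (N2 + H) < 1 := by rw [div_lt_one (by positivity)]; linarith
  rcases hσ with rfl | rfl
  · simp only [zero_mul, sub_zero, one_mul] at h ⊢
    obtain ⟨h1, h2⟩ := h
    refine ⟨(Real.log_lt_log_iff hz hp0).mp h1, ?_⟩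
    have h3 : Real.log (p / z) ≤ H / (N2 + H) := by
      rw [Real.log_div hp0.ne' hz.ne']; linarith
    have h4 := Real.one_sub_inv_le_log_of_pos (x := p / z) (by positivity)
    rw [inv_div] at h4
    have h5 : 1 - z / p ≤ H / (N2 + H) := h4.trans h3
    have h6 : p - z ≤ H / (N2 + H) * p := by
      have : p - z = (1 - z / p) * p := by field_simp
      rw [this]; gcongr
    have h7 : H / (N2 + H) * p ≤ H := by
      rw [div_mul_eq_mul_div, div_le_iff₀ (by positivity)]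
      nlinarith
    linarith
  · simp only [one_mul, sub_self, zero_mul, add_zero] at h ⊢
    obtain ⟨h1, h2⟩ := h
    refine ⟨?_, (Real.log_le_log_iff hp0 hz).mp h2⟩
    have h3 : Real.log (z / p) < H / (N2 + H) := by
      rw [Real.log_div hz.ne' hp0.ne']; linarith
    have h4 := Real.one_sub_inv_le_log_of_pos (x := z / p) (by positivity)
    rw [inv_div] at h4
    have h5 : 1 - p / z < H / (N2 + H) := lt_of_le_of_lt h4 h3
    have h6 : N2 / (N2 + H) < p / z := by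
      have : N2 / (N2 + H) = 1 - H / (N2 + H) := by field_simp; ring
      rw [this]; linarith
    rw [div_lt_div_iff₀ (by positivity) hz] at h6
    nlinarith

lemma sand_upper {σ H N1 N2 z p : ℝ} (hσ : σ = 0 ∨ σ = 1) (hz : 0 < z) (hH : 0 < H) (hN1 : H < N1)
    (hp1 : N1 < p) (hp2 : p ≤ N2) (h : z - σ * H < p ∧ p ≤ z + (1 - σ) * H) :
    Real.log z - σ * (H / (N1 - H)) < Real.log p ∧ Real.log p ≤ Real.log z + (1 - σ) * (H / (N1 - H)) := by
  have hp0 : 0 < p := by linarith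
  have hNH : 0 < N1 - H := by linarith
  rcases hσ with rfl | rfl
  · simp only [zero_mul, sub_zero, one_mul] at h ⊢
    obtain ⟨h1, h2⟩ := h
    refine ⟨Real.log_lt_log hz h1, ?_⟩
    have h4 := Real.log_le_sub_one_of_pos (x := p / z) (by positivity)
    rw [Real.log_div hp0.ne' hz.ne'] at h4
    have h5 : p / z - 1 ≤ H / (N1 - H) := by
      have : p / z - 1 = (p - z) / z := by field_simp
      rw [this]
      apply div_le_div₀ hH.le (by linarith) hNH (by linarith)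
    linarith
  · simp only [one_mul, sub_self, zero_mul, add_zero] at h ⊢
    obtain ⟨h1, h2⟩ := h
    refine ⟨?_, Real.log_le_log hp0 h2⟩
    have h4 := Real.log_le_sub_one_of_pos (x := z / p) (by positivity)
    rw [Real.log_div hz.ne' hp0.ne'] at h4
    have h5 : z / p - 1 < H / (N1 - H) := by
      have : z / p - 1 = (z - p) / p := by field_simp
      rw [this, div_lt_div_iff₀ hp0 hNH]
      have h6 : z - p < H := by linarith
      have h7 : N1 - H < p := by linarith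
      rcases le_or_gt (z - p) 0 with h8 | h8
      · nlinarith
      · calc (z - p) * (N1 - H) ≤ (z - p) * p := by gcongr
          _ < H * p := by gcongr
    linarith

/-- rewriting the log-window count in terms of `Fw` -/
lemma sum_Fw {P K : Finset ℕ} {β σ t y : ℝ} (ht : 0 < t) :
    t * ∑ k ∈ K, Fw P (fun p => Real.log p) t (Real.log y + -(σ * t) + Real.log ((k : ℝ) + β)) =
      ∑ k ∈ K, ((P.filter (fun p : ℕ => (Real.log y + Real.log ((k : ℝ) + β)) - σ * t < Real.log p ∧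
        Real.log p ≤ (Real.log y + Real.log ((k : ℝ) + β)) + (1 - σ) * t)).card : ℝ) := by
  rw [mul_sum]
  refine sum_congr rfl fun k _ => ?_
  unfold Fw
  rw [← mul_assoc, mul_one_div_cancel ht.ne', one_mul]
  congr 2
  apply filter_congr
  intro p _
  constructor <;> rintro ⟨h1, h2⟩ <;> constructor <;> linarith

lemma cnt_lower {P K : Finset ℕ} {β σ H N1 N2 y : ℝ} (hσ : σ = 0 ∨ σ = 1) (hy : 0 < y) (hβ : 0 ≤ β)
    (hK : ∀ k ∈ K, 1 ≤ k) (hH : 0 < H) (hN1 : 0 < N1) (hN12 : N1 ≤ N2) (hP : ∀ p ∈ P, N1 < (p : ℝ) ∧ (p : ℝ) ≤ N2) :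
    (H / (N2 + H)) * ∑ k ∈ K, Fw P (fun p => Real.log p) (H / (N2 + H))
      (Real.log y + -(σ * (H / (N2 + H))) + Real.log ((k : ℝ) + β)) ≤ cnt P K β σ H y := by
  have hN2 : 0 < N2 := by linarith
  rw [sum_Fw (by positivity)]
  unfold cnt
  refine sum_le_sum fun k hk => ?_
  have hk1 : (1 : ℝ) ≤ k := by exact_mod_cast hK k hk
  have hkβ : (0 : ℝ) < (k : ℝ) + β := by linarith
  have hlog : Real.log y + Real.log ((k : ℝ) + β) = Real.log (((k : ℝ) + β) * y) := by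
    rw [Real.log_mul hkβ.ne' hy.ne', add_comm]
  rw [hlog]
  have hsub := card_le_card (monotone_filter_right P (p := fun p : ℕ => Real.log (((k : ℝ) + β) * y) - σ * (H / (N2 + H)) < Real.log p ∧
        Real.log p ≤ Real.log (((k : ℝ) + β) * y) + (1 - σ) * (H / (N2 + H)))
        (q := fun p : ℕ => ((k : ℝ) + β) * y - σ * H < p ∧ (p : ℝ) ≤ ((k : ℝ) + β) * y + (1 - σ) * H) (by
      intro p hp h
      exact sand_lower hσ (by positivity) hH hN1 (hP p hp).1 (hP p hp).2 h))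
  exact_mod_cast hsub

lemma cnt_upper {P K : Finset ℕ} {β σ H N1 N2 y : ℝ} (hσ : σ = 0 ∨ σ = 1) (hy : 0 < y) (hβ : 0 ≤ β)
    (hK : ∀ k ∈ K, 1 ≤ k) (hH : 0 < H) (hN1 : H < N1) (hP : ∀ p ∈ P, N1 < (p : ℝ) ∧ (p : ℝ) ≤ N2) :
    cnt P K β σ H y ≤ (H / (N1 - H)) * ∑ k ∈ K, Fw P (fun p => Real.log p) (H / (N1 - H))
      (Real.log y + -(σ * (H / (N1 - H))) + Real.log ((k : ℝ) + β)) := by
  have hNH : 0 < N1 - H := by linarith
  rw [sum_Fw (by positivity)]
  unfold cnt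
  refine sum_le_sum fun k hk => ?_
  have hk1 : (1 : ℝ) ≤ k := by exact_mod_cast hK k hk
  have hkβ : (0 : ℝ) < (k : ℝ) + β := by linarith
  have hlog : Real.log y + Real.log ((k : ℝ) + β) = Real.log (((k : ℝ) + β) * y) := by
    rw [Real.log_mul hkβ.ne' hy.ne', add_comm]
  rw [hlog]
  have hsub := card_le_card (monotone_filter_right P
        (p := fun p : ℕ => ((k : ℝ) + β) * y - σ * H < p ∧ (p : ℝ) ≤ ((k : ℝ) + β) * y + (1 - σ) * H)
        (q := fun p : ℕ => Real.log (((k : ℝ) + β) * y) - σ * (H / (N1 - H)) < Real.log p ∧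
        Real.log p ≤ Real.log (((k : ℝ) + β) * y) + (1 - σ) * (H / (N1 - H))) (by
      intro p hp h
      exact sand_upper hσ (by positivity) hH hN1 (hP p hp).1 (hP p hp).2 h))
  exact_mod_cast hsub

/-- the number of integers in `[A, B)` -/
lemma card_Ico_real (M N : ℕ) (A B : ℝ) (hA : 0 ≤ A) (hAB : A ≤ B) (hM : (M : ℝ) ≤ A) (hN : B ≤ N) :
    |(((Ico M N).filter (fun k : ℕ => A ≤ (k : ℝ) ∧ (k : ℝ) < B)).card : ℝ) - (B - A)| ≤ 1 := by
  have h1 : (Ico M N).filter (fun k : ℕ => A ≤ (k : ℝ) ∧ (k : ℝ) < B) = Ico ⌈A⌉₊ ⌈B⌉₊ := by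
    ext k
    rw [mem_filter, mem_Ico, mem_Ico, Nat.ceil_le, Nat.lt_ceil]
    constructor
    · rintro ⟨_, h⟩; exact h
    · rintro ⟨h2, h3⟩
      refine ⟨⟨?_, ?_⟩, h2, h3⟩
      · exact_mod_cast hM.trans h2
      · exact_mod_cast h3.trans_le hN
  rw [h1, Nat.card_Ico]
  have h2 := Nat.ceil_lt_add_one hA
  have h3 := Nat.ceil_lt_add_one (hA.trans hAB)
  have h4 := Nat.le_ceil A
  have h5 := Nat.le_ceil B
  rw [Nat.cast_sub (Nat.ceil_mono hAB), abs_le]
  constructor <;> linarith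

lemma main_term (P : Finset ℕ) (N : ℕ) {β ω y X : ℝ} (hω : 0 < ω) (hω1 : ω ≤ 1)
    (hy : 0 < y) (hX : 0 < X) (hβ0 : 0 ≤ β) (hN : 1 ≤ N)
    (hP : ∀ p ∈ P, 0 < (p : ℝ) ∧ (p : ℝ) ≤ 2 * X ∧ N + β ≤ Real.exp (-ω) * p / y ∧ p / y ≤ 64 * N + β) :
    |(∑ k ∈ Ico N (64 * N), Fw P (fun p => Real.log p) ω (Real.log y + Real.log ((k : ℝ) + β))) -
      ∑ p ∈ P, (p : ℝ) / y| ≤ P.card * (2 * X * ω / y + 1 / ω) := by
  have h1 : (∑ k ∈ Ico N (64 * N), Fw P (fun p => Real.log p) ω (Real.log y + Real.log ((k : ℝ) + β))) =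
      ∑ p ∈ P, (1 / ω) * (((Ico N (64 * N)).filter (fun k : ℕ =>
        Real.exp (-ω) * p / y - β ≤ (k : ℝ) ∧ (k : ℝ) < p / y - β)).card : ℝ) := by
    unfold Fw
    rw [← mul_sum, ← mul_sum]
    congr 1
    simp only [card_filter]
    push_cast
    rw [sum_comm]
    refine sum_congr rfl fun p hp => sum_congr rfl fun k hk => ?_
    obtain ⟨hp0, -, -, -⟩ := hP p hp
    have hk1 : (1 : ℝ) ≤ k := by exact_mod_cast hN.trans (mem_Ico.mp hk).1
    have hkβ : (0 : ℝ) < (k : ℝ) + β := by linarith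
    have hlog : Real.log y + Real.log ((k : ℝ) + β) = Real.log (((k : ℝ) + β) * y) := by
      rw [Real.log_mul hkβ.ne' hy.ne', add_comm]
    rw [hlog]
    have hiff : (Real.log (((k : ℝ) + β) * y) < Real.log p ∧ Real.log p ≤ Real.log (((k : ℝ) + β) * y) + ω) ↔
        (Real.exp (-ω) * p / y - β ≤ (k : ℝ) ∧ (k : ℝ) < p / y - β) := by
      rw [Real.log_lt_log_iff (by positivity) hp0]
      have e1 : Real.log (((k : ℝ) + β) * y) + ω = Real.log (((k : ℝ) + β) * y * Real.exp ω) := by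
        rw [Real.log_mul (by positivity) (Real.exp_ne_zero _), Real.log_exp]
      rw [e1, Real.log_le_log_iff hp0 (by positivity)]
      rw [lt_sub_iff_add_lt, lt_div_iff₀ hy, sub_le_iff_le_add, div_le_iff₀ hy]
      have e2 : (p : ℝ) ≤ ((k : ℝ) + β) * y * Real.exp ω ↔ Real.exp (-ω) * p ≤ ((k : ℝ) + β) * y := by
        rw [Real.exp_neg, inv_mul_le_iff₀ (Real.exp_pos ω), mul_comm (Real.exp ω)]
      rw [e2]
      tauto
    simp only [hiff]
  rw [h1, ← sum_sub_distrib]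
  refine (abs_sum_le_sum_abs _ _).trans ?_
  rw [← nsmul_eq_mul, ← sum_const]
  refine sum_le_sum fun p hp => ?_
  obtain ⟨hp0, hpX, hlow, hup⟩ := hP p hp
  have hN' : (1 : ℝ) ≤ N := by exact_mod_cast hN
  have hexp1 : Real.exp (-ω) ≤ 1 := Real.exp_le_one_iff.mpr (by linarith)
  have hAB : Real.exp (-ω) * p / y - β ≤ p / y - β := by
    gcongr
    nlinarith
  have hc := card_Ico_real N (64 * N) (Real.exp (-ω) * p / y - β) (p / y - β) (by linarith) hAB (by linarith)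
    (by push_cast; linarith)
  set c : ℝ := (((Ico N (64 * N)).filter (fun k : ℕ =>
        Real.exp (-ω) * p / y - β ≤ (k : ℝ) ∧ (k : ℝ) < p / y - β)).card : ℝ) with hcdef
  have e3 : (p / y - β) - (Real.exp (-ω) * p / y - β) = (p / y) * (1 - Real.exp (-ω)) := by ring
  rw [e3] at hc
  have hpy : 0 < p / y := by positivity
  -- `1 - ω ≤ (1 - exp (-ω)) / ω ≤ 1`
  have hA1 : 1 - Real.exp (-ω) ≤ ω := by
    have := Real.add_one_le_exp (-ω); linarith
  have hA2 : ω - ω ^ 2 ≤ 1 - Real.exp (-ω) := by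
    have h2 : Real.exp (-ω) ≤ 1 / (1 + ω) := by
      rw [Real.exp_neg, ← one_div]
      apply one_div_le_one_div_of_le (by linarith)
      linarith [Real.add_one_le_exp ω]
    have h3 : 1 / (1 + ω) ≤ 1 - ω + ω ^ 2 := by
      rw [div_le_iff₀ (by linarith)]
      nlinarith [pow_pos hω 3]
    linarith
  have e4 : 1 / ω * c - p / y = (1 / ω) * (c - (p / y) * (1 - Real.exp (-ω))) +
      (p / y) * ((1 - Real.exp (-ω)) / ω - 1) := by
    field_simp
    ring
  rw [e4]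
  refine (abs_add_le _ _).trans ?_
  rw [abs_mul, abs_mul, abs_of_pos hpy, abs_of_pos (by positivity : (0 : ℝ) < 1 / ω)]
  have h5 : |(1 - Real.exp (-ω)) / ω - 1| ≤ ω := by
    have e5 : (1 - Real.exp (-ω)) / ω - 1 = (1 - Real.exp (-ω) - ω) / ω := by field_simp
    rw [e5, abs_div, abs_of_pos hω, div_le_iff₀ hω, abs_le]
    constructor <;> nlinarith
  have h6 : p / y * |(1 - Real.exp (-ω)) / ω - 1| ≤ 2 * X / y * ω := by gcongr
  have h7 : 1 / ω * |c - (p / y) * (1 - Real.exp (-ω))| ≤ 1 / ω * 1 := by gcongr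
  have h8 : 2 * X * ω / y = 2 * X / y * ω := by ring
  rw [h8]
  linarith

end Pool.Agent.H438R2.DL
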